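import Pool.Agent.Lib.TopBw.NecBase

/-!
# Comb layouts

In a comb layout the root is at `0`, and every hub `p` and every star `s` has a side (`true` = right),
a residue `ρ`, `1 ≤ ρ < k`, and a number `m`. All the positions on the way from the parent to the centre
are of the form `± (ρ + k i)`, `i` = start row, …, `3 m`; the centre is at `± (ρ + 3 k m)`. The start
row is `0` for children of the root and for stars on the other side than their hub (special stars), and
`3 hm + 1` for the other stars of the hub, where `3 hm` is the row of the hub. The leaves of a star are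
put on the free positions of the zone of its centre, and the leaves of the root on the free positions
of the zone of `0`.
-/

set_option autoImplicit false

namespace Pool.Agent.Lib.TopBw

open Finset

variable {t q : ℕ} {sat : Fin t → Bool → Fin q → Bool}

/-- the first row of the way to a star -/
def startRow (side : Star t q → Bool) (hside : Fin t × Bool → Bool) (hm : Fin t × Bool → ℕ)
    (s : Star t q) : ℕ :=
  match hubOf s with
  | none => 0
  | some p => if side s = hside p then 3 * hm p + 1 else 0

/-- the combinatorial data of a comb layout, with all the conditions -/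
structure Comb (t q : ℕ) (sat : Fin t → Bool → Fin q → Bool) where
  /-- side of a star -/
  side : Star t q → Bool
  /-- residue of a star -/
  ρ : Star t q → ℕ
  /-- the centre of a star is in the row `3 m` -/
  m : Star t q → ℕ
  /-- side of a hub -/
  hside : Fin t × Bool → Bool
  /-- residue of a hub -/
  hρ : Fin t × Bool → ℕ
  /-- the hub is in the row `3 hm` -/
  hm : Fin t × Bool → ℕ
  ρ_pos : ∀ s, 1 ≤ ρ s
  ρ_lt : ∀ s, ρ s < kk t q
  hρ_pos : ∀ p, 1 ≤ hρ p
  hρ_lt : ∀ p, hρ p < kk t q
  ρ_inj : ∀ s s', side s = side s' → ρ s = ρ s' → s = s'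
  hρ_inj : ∀ p p', hside p = hside p' → hρ p = hρ p' → p = p'
  ρ_ne : ∀ s p, side s = hside p → ρ s ≠ hρ p
  m_pos : ∀ s, 1 ≤ m s
  m_inj : ∀ s s', side s = side s' → m s = m s' → s = s'
  m_ne : ∀ s p, side s = hside p → m s ≠ hm p
  child : ∀ s p, hubOf s = some p → side s = hside p → hm p < m s ∧ ρ s ≤ hρ p
  special : ∀ s p, hubOf s = some p → side s ≠ hside p → hm p = 0 ∧ ρ s + hρ p ≤ kk t q
  special_card : (univ.filter fun s => ∃ p, hubOf s = some p ∧ side s ≠ hside p).card ≤ t
  pass_le : ∀ s, (univ.filter fun s' => side s' = side s ∧ m s < m s' ∧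
      startRow side hside hm s' < 3 * m s).card +
    (univ.filter fun p => hside p = side s ∧ m s < hm p).card ≤ cap sat s

/-- `± n` -/
def sg (b : Bool) (n : ℕ) : ℤ := if b then (n : ℤ) else -(n : ℤ)

lemma sg_inj {b b' : Bool} {n n' : ℕ} (hn : 1 ≤ n) (_ : 1 ≤ n') (h : sg b n = sg b' n') :
    b = b' ∧ n = n' := by
  unfold sg at h
  cases b <;> cases b' <;> simp at h ⊢ <;> omega

lemma abs_sg (b : Bool) (n : ℕ) : |sg b n| = n := by
  unfold sg
  split_ifs <;> simp

lemma res_inj {k r r' i i' : ℕ} (hr : r < k) (hr' : r' < k) (h : r + k * i = r' + k * i') :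
    r = r' ∧ i = i' := by
  have h1 : (r + k * i) % k = r := by rw [Nat.add_mul_mod_self_left, Nat.mod_eq_of_lt hr]
  have h2 : (r' + k * i') % k = r' := by rw [Nat.add_mul_mod_self_left, Nat.mod_eq_of_lt hr']
  have h3 : r = r' := by rw [← h1, ← h2, h]
  subst h3
  refine ⟨rfl, ?_⟩
  have h4 : k * i = k * i' := by omega
  exact Nat.eq_of_mul_eq_mul_left (by omega) h4

lemma chain_sg (b : Bool) (r k : ℕ) : ∀ (n a : ℕ) (y : ℤ), |y - sg b (r + k * a)| ≤ k →
    List.IsChain (fun a b : ℤ => |a - b| ≤ k)
      (y :: ((List.range' a n).map (fun i => sg b (r + k * i)) ++ [sg b (r + k * (a + n))])) := by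
  intro n
  induction n with
  | zero =>
    intro a y h
    simpa using h
  | succ n ih =>
    intro a y h
    rw [List.range'_succ, List.map_cons, List.cons_append, List.isChain_cons_cons]
    refine ⟨h, ?_⟩
    have h2 := ih (a + 1) (sg b (r + k * a)) (by
      unfold sg
      split_ifs
      · rw [abs_le]; push_cast; constructor <;> nlinarith
      · rw [abs_le]; push_cast; constructor <;> nlinarith)
    rw [show a + (n + 1) = a + 1 + n by ring]
    exact h2

lemma nodup_sg (b : Bool) (r k : ℕ) (hr : r < k) (hr' : 1 ≤ r) (a n : ℕ) :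
    ((List.range' a n).map (fun i => sg b (r + k * i)) ++ [sg b (r + k * (a + n))]).Nodup := by
  have h : (List.range' a n).map (fun i => sg b (r + k * i)) ++ [sg b (r + k * (a + n))] =
      (List.range' a (n + 1)).map (fun i => sg b (r + k * i)) := by
    rw [List.range'_concat]
    simp
  rw [h]
  refine List.Nodup.map ?_ List.nodup_range'
  intro i i' hi
  exact (res_inj hr hr (sg_inj (by omega) (by omega) hi).2).2

lemma exists_choice (n : ℕ) (S : Finset ℤ) (h : n ≤ S.card) :
    ∃ f : Fin n → ℤ, Function.Injective f ∧ ∀ i, f i ∈ S := by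
  obtain ⟨e⟩ : Nonempty (Fin n ↪ S) := by
    apply Function.Embedding.nonempty_of_card_le
    simpa using h
  exact ⟨fun i => (e i : ℤ), fun i j hij => e.injective (Subtype.ext hij), fun i => (e i).2⟩

namespace Comb

variable (C : Comb t q sat)

/-- start row of the way to a star -/
def st (s : Star t q) : ℕ := startRow C.side C.hside C.hm s

/-- position of a hub -/
def hx (p : Fin t × Bool) : ℤ := sg (C.hside p) (C.hρ p + kk t q * (3 * C.hm p))

/-- positions before the hub -/
def hpre (p : Fin t × Bool) : List ℤ :=
  (List.range' 0 (3 * C.hm p)).map fun i => sg (C.hside p) (C.hρ p + kk t q * i)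

/-- position of the centre of a star -/
def sx (s : Star t q) : ℤ := sg (C.side s) (C.ρ s + kk t q * (3 * C.m s))

/-- positions before the centre of a star -/
def spre (s : Star t q) : List ℤ :=
  (List.range' (C.st s) (3 * C.m s - C.st s)).map fun i => sg (C.side s) (C.ρ s + kk t q * i)

/-- occupied by the root, a hub, a star centre or the ways to them -/
def Occ (y : ℤ) : Prop :=
  y = 0 ∨ (∃ p, y ∈ C.hpre p ++ [C.hx p]) ∨ ∃ s, y ∈ C.spre s ++ [C.sx s]

lemma mem_hpos {p : Fin t × Bool} {y : ℤ} : y ∈ C.hpre p ++ [C.hx p] ↔
    ∃ i, i ≤ 3 * C.hm p ∧ y = sg (C.hside p) (C.hρ p + kk t q * i) := by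
  simp only [hpre, hx, List.mem_append, List.mem_map, List.mem_range', List.mem_singleton]
  constructor
  · rintro (⟨i, ⟨i', hi', rfl⟩, rfl⟩ | rfl)
    · exact ⟨_, by omega, rfl⟩
    · exact ⟨_, le_rfl, rfl⟩
  · rintro ⟨i, hi, rfl⟩
    rcases Nat.lt_or_ge i (3 * C.hm p) with h | h
    · exact Or.inl ⟨i, ⟨i, h, by omega⟩, rfl⟩
    · exact Or.inr (by rw [show i = 3 * C.hm p by omega])

lemma st_lt (s : Star t q) : C.st s < 3 * C.m s := by
  have h1 := C.m_pos s
  unfold st startRow
  cases h : hubOf s with
  | none => simp only; omega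
  | some p =>
    simp only
    split_ifs with h2
    · have := (C.child s p h h2).1; omega
    · omega

lemma mem_spos {s : Star t q} {y : ℤ} : y ∈ C.spre s ++ [C.sx s] ↔
    ∃ i, C.st s ≤ i ∧ i ≤ 3 * C.m s ∧ y = sg (C.side s) (C.ρ s + kk t q * i) := by
  have h0 := C.st_lt s
  simp only [spre, sx, List.mem_append, List.mem_map, List.mem_range', List.mem_singleton]
  constructor
  · rintro (⟨i, ⟨i', hi', rfl⟩, rfl⟩ | rfl)
    · exact ⟨_, by omega, by omega, rfl⟩
    · exact ⟨_, h0.le, le_rfl, rfl⟩
  · rintro ⟨i, hi, hi', rfl⟩
    rcases Nat.lt_or_ge i (3 * C.m s) with h | h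
    · exact Or.inl ⟨i, ⟨i - C.st s, by omega, by omega⟩, rfl⟩
    · exact Or.inr (by rw [show i = 3 * C.m s by omega])

lemma sg_abs (b : Bool) (n : ℕ) : |sg b n| = n := by
  cases b <;> simp [sg]

lemma mem_zone_sg_zero {b : Bool} {n k : ℕ} (h : sg b n ∈ zone k 0) : n ≤ k := by
  have h1 := mem_zone.1 h
  cases b <;> simp only [sg, if_true, Bool.false_eq_true, if_false] at h1 <;> omega

/-- a position of the side `b'` in the zone of a position of the side `b`, far from `0` -/
lemma sg_near {b b' : Bool} {n n' k : ℕ} (h : sg b' n' ∈ zone k (sg b n)) (hn : k < n) :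
    b' = b ∧ n' ≠ n ∧ n ≤ n' + k ∧ n' ≤ n + k := by
  have h1 := mem_zone.1 h
  cases b <;> cases b' <;> simp only [sg, if_true, Bool.false_eq_true, if_false] at h1 <;>
    simp <;> omega

/-- the rows of the positions with residue `r'` near the position `r + 3 k m` -/
lemma row_near {k r r' i m : ℕ} (hr : 1 ≤ r) (hr' : 1 ≤ r') (hrk : r < k) (hrk' : r' < k)
    (h1 : r + k * (3 * m) ≤ r' + k * i + k) (h2 : r' + k * i ≤ r + k * (3 * m) + k) :
    (i = 3 * m ∨ (i = 3 * m + 1 ∧ r' ≤ r) ∨ (i + 1 = 3 * m ∧ r ≤ r')) := by
  rcases Nat.lt_trichotomy i (3 * m) with h | h | h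
  · right; right
    have h3 : 3 * m ≤ i + 1 := by
      by_contra hc
      have h4 : i + 2 ≤ 3 * m := by omega
      have h5 : k * (i + 2) ≤ k * (3 * m) := Nat.mul_le_mul_left _ h4
      have h6 : k * (i + 2) = k * i + 2 * k := by ring
      omega
    have h7 : i + 1 = 3 * m := by omega
    refine ⟨h7, ?_⟩
    rw [← h7, Nat.mul_add, Nat.mul_one] at h1
    omega
  · exact Or.inl h
  · right; left
    have h3 : i ≤ 3 * m + 1 := by
      by_contra hc
      have h4 : 3 * m + 2 ≤ i := by omega
      have h5 : k * (3 * m + 2) ≤ k * i := Nat.mul_le_mul_left _ h4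
      have h6 : k * (3 * m + 2) = k * (3 * m) + 2 * k := by ring
      omega
    have h7 : i = 3 * m + 1 := by omega
    refine ⟨h7, ?_⟩
    rw [h7, Nat.mul_add, Nat.mul_one] at h2
    omega

lemma card_hubOf_none : (univ.filter fun s : Star t q => hubOf s = none).card ≤
    t + t * q + (2 * q + 3) + 4 * R0 t q := by
  classical
  let f : Fin t ⊕ (Fin q × Fin t) ⊕ Fin (2 * q + 3) ⊕ Fin (4 * R0 t q) → Star t q
    | .inl a => .D a
    | .inr (.inl p) => .F p.1 p.2
    | .inr (.inr (.inl i)) => .E i
    | .inr (.inr (.inr i)) => .M i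
  have hsub : (univ.filter fun s : Star t q => hubOf s = none) ⊆ univ.image f := by
    intro s hs
    have hs' := (mem_filter.1 hs).2
    rw [mem_image]
    cases s with
    | D a => exact ⟨.inl a, mem_univ _, rfl⟩
    | A a x b => simp [hubOf] at hs'
    | W a x j => simp [hubOf] at hs'
    | F j i => exact ⟨.inr (.inl (j, i)), mem_univ _, rfl⟩
    | E i => exact ⟨.inr (.inr (.inl i)), mem_univ _, rfl⟩
    | M i => exact ⟨.inr (.inr (.inr i)), mem_univ _, rfl⟩
  refine (card_le_card hsub).trans (card_image_le.trans ?_)
  simp only [card_univ, Fintype.card_sum, Fintype.card_prod, Fintype.card_fin]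
  have h2 : q * t = t * q := Nat.mul_comm q t
  omega

/-- CHUNK SC2. Enough free positions for the leaves of the root. Occupied positions `y ≠ 0` with
`|y| ≤ k` are in row `0` (row `1` starts at `k + 1`), of the `2 t` hubs and of the stars with start row
`0`: the `t + t q + 2 q + 3 + 4 R0` stars which hang at the root, and at most `t` special ones. -/
theorem root_free [DecidablePred fun y => ¬ C.Occ y] :
    rootLeaves t q ≤ ((zone (kk t q) 0).filter fun y => ¬ C.Occ y).card := by
  classical
  have hcover : zone (kk t q) 0 ⊆ ((zone (kk t q) 0).filter fun y => ¬ C.Occ y) ∪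
      ((univ.image fun p : Fin t × Bool => sg (C.hside p) (C.hρ p)) ∪
        (univ.filter fun s : Star t q => C.st s = 0).image fun s => sg (C.side s) (C.ρ s)) := by
    intro y hy
    by_cases hocc : C.Occ y
    · refine mem_union_right _ ?_
      rcases hocc with h | ⟨p, hp⟩ | ⟨s, hs⟩
      · exact absurd h (mem_zone.1 hy).1
      · refine mem_union_left _ ?_
        obtain ⟨i, hi, rfl⟩ := C.mem_hpos.1 hp
        have h1 := mem_zone_sg_zero hy
        have h2 := C.hρ_pos p
        have h3 : i = 0 := by
          by_contra hc
          have : kk t q * 1 ≤ kk t q * i := Nat.mul_le_mul_left _ (by omega)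
          omega
        subst h3
        exact mem_image.2 ⟨p, mem_univ _, by simp⟩
      · refine mem_union_right _ ?_
        obtain ⟨i, hi, -, rfl⟩ := C.mem_spos.1 hs
        have h1 := mem_zone_sg_zero hy
        have h2 := C.ρ_pos s
        have h3 : i = 0 := by
          by_contra hc
          have : kk t q * 1 ≤ kk t q * i := Nat.mul_le_mul_left _ (by omega)
          omega
        subst h3
        exact mem_image.2 ⟨s, mem_filter.2 ⟨mem_univ _, by omega⟩, by simp⟩
    · exact mem_union_left _ (mem_filter.2 ⟨hy, hocc⟩)
  have hst : (univ.filter fun s : Star t q => C.st s = 0) ⊆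
      (univ.filter fun s : Star t q => hubOf s = none) ∪
        (univ.filter fun s => ∃ p, hubOf s = some p ∧ C.side s ≠ C.hside p) := by
    intro s hs
    have h1 := (mem_filter.1 hs).2
    rcases h : hubOf s with _ | p
    · exact mem_union_left _ (mem_filter.2 ⟨mem_univ _, h⟩)
    · refine mem_union_right _ (mem_filter.2 ⟨mem_univ _, p, h, ?_⟩)
      intro h2
      have h3 : C.st s = 3 * C.hm p + 1 := by
        unfold st startRow
        rw [h]
        simp [h2]
      omega
  have c1 := card_le_card hcover
  have c2 := card_union_le ((zone (kk t q) 0).filter fun y => ¬ C.Occ y)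
    ((univ.image fun p : Fin t × Bool => sg (C.hside p) (C.hρ p)) ∪
        (univ.filter fun s : Star t q => C.st s = 0).image fun s => sg (C.side s) (C.ρ s))
  have c3 := card_union_le (univ.image fun p : Fin t × Bool => sg (C.hside p) (C.hρ p))
    ((univ.filter fun s : Star t q => C.st s = 0).image fun s => sg (C.side s) (C.ρ s))
  have c4 : (univ.image fun p : Fin t × Bool => sg (C.hside p) (C.hρ p)).card ≤ 2 * t :=
    card_image_le.trans (by simp [mul_comm])
  have c5 : ((univ.filter fun s : Star t q => C.st s = 0).image
      fun s => sg (C.side s) (C.ρ s)).card ≤ t + t * q + (2 * q + 3) + 4 * R0 t q + t :=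
    card_image_le.trans ((card_le_card hst).trans ((card_union_le _ _).trans
      (Nat.add_le_add card_hubOf_none C.special_card)))
  rw [card_zone] at c1
  unfold rootLeaves
  omega

/-- CHUNK SC3. Enough free positions for the leaves of the star `s`. Let `m = C.m s`. Each star `s'` on
the same side with `m s' > m` and start row `< 3 m`, and each hub on the same side with `hm > m` has at
most two positions in the zone of `s` (rows `3 m - 1`, `3 m` or `3 m`, `3 m + 1`), and `s` itself has one
(row `3 m - 1`). The other ones have none: those with last row `3 m' < 3 m`; the stars with start row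
`3 hm + 1 > 3 m`, where `hm ≠ m` by `m_ne`, so the start row is `≥ 3 m + 4`; those on the other side.
So at least `2 k - 2 cap - 1` positions are free by `pass_le`. -/
theorem star_free (s : Star t q) [DecidablePred fun y => ¬ C.Occ y] :
    lv sat s ≤ ((zone (kk t q) (C.sx s)).filter fun y => ¬ C.Occ y).card := by
  classical
  set k := kk t q with hk
  set m := C.m s with hm
  set S1 : Finset (Star t q) := univ.filter fun s' => C.side s' = C.side s ∧ C.m s < C.m s' ∧
      startRow C.side C.hside C.hm s' < 3 * C.m s with hS1
  set S2 : Finset (Fin t × Bool) := univ.filter fun p => C.hside p = C.side s ∧ C.m s < C.hm p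
    with hS2
  set r := C.ρ s with hr
  -- the positions with residue `r'`
  let two : ℕ → Bool → ℤ := fun r' b =>
    if b then sg (C.side s) (r' + k * (3 * m))
    else if r' ≤ r then sg (C.side s) (r' + k * (3 * m + 1))
    else sg (C.side s) (r' + k * (3 * m - 1))
  have hm1 : 1 ≤ m := C.m_pos s
  have hr1 : 1 ≤ r := C.ρ_pos s
  have hrk : r < k := C.ρ_lt s
  have hbig : k < r + k * (3 * m) := by
    have : k * 1 ≤ k * (3 * m) := Nat.mul_le_mul_left _ (by omega)
    omega
  have htwo : ∀ r' i : ℕ, 1 ≤ r' → r' < k → r' ≠ r → r + k * (3 * m) ≤ r' + k * i + k →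
      r' + k * i ≤ r + k * (3 * m) + k →
      (3 * m ≤ i + 1 ∧ i ≤ 3 * m + 1) ∧ ∃ b, sg (C.side s) (r' + k * i) = two r' b := by
    intro r' i h1 h2 h3 h4 h5
    rcases row_near hr1 h1 hrk h2 h4 h5 with h | ⟨h, h'⟩ | ⟨h, h'⟩
    · exact ⟨by omega, true, by simp [two, h]⟩
    · refine ⟨by omega, false, ?_⟩
      simp only [two, Bool.false_eq_true, if_false]
      rw [if_pos h', h]
    · refine ⟨by omega, false, ?_⟩
      simp only [two, Bool.false_eq_true, if_false]
      rw [if_neg (by omega), show i = 3 * m - 1 by omega]
  have hcover : zone k (C.sx s) ⊆ ((zone k (C.sx s)).filter fun y => ¬ C.Occ y) ∪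
      (((S1 ×ˢ (univ : Finset Bool)).image fun z => two (C.ρ z.1) z.2) ∪
        (((S2 ×ˢ (univ : Finset Bool)).image fun z => two (C.hρ z.1) z.2) ∪
          {sg (C.side s) (r + k * (3 * m - 1))})) := by
    intro y hy
    by_cases hocc : C.Occ y
    · refine mem_union_right _ ?_
      rcases hocc with h | ⟨p, hp⟩ | ⟨s', hs'⟩
      · exfalso
        subst h
        have h1 : sg (C.side s) 0 ∈ zone k (C.sx s) := by
          have : sg (C.side s) 0 = 0 := by cases C.side s <;> rfl
          rw [this]; exact hy
        have h2 : r + k * (3 * m) ≤ 0 + k := (sg_near h1 hbig).2.2.1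
        omega
      · refine mem_union_right _ (mem_union_left _ ?_)
        obtain ⟨i, hi, rfl⟩ := C.mem_hpos.1 hp
        obtain ⟨h1, h2, h3, h4⟩ := sg_near hy hbig
        obtain ⟨h5, b, h6⟩ := htwo (C.hρ p) i (C.hρ_pos p) (C.hρ_lt p)
          (fun h => C.ρ_ne s p h1.symm h.symm) h3 h4
        have h7 := C.m_ne s p h1.symm
        refine mem_image.2 ⟨(p, b), mem_product.2 ⟨mem_filter.2 ⟨mem_univ _, h1, ?_⟩,
          mem_univ _⟩, ?_⟩
        · show m < C.hm p
          have : m ≠ C.hm p := h7
          omega
        · show two (C.hρ p) b = sg (C.hside p) (C.hρ p + k * i)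
          rw [← h6, h1]
      · obtain ⟨i, hi0, hi, rfl⟩ := C.mem_spos.1 hs'
        obtain ⟨h1, h2, h3, h4⟩ := sg_near hy hbig
        by_cases hss : s' = s
        · subst hss
          refine mem_union_right _ (mem_union_right _ ?_)
          rw [mem_singleton]
          have h5 := row_near hr1 hr1 hrk hrk h3 h4
          have h6 : i ≠ 3 * m := fun h => h2 (by rw [h])
          have h7 : i = 3 * m - 1 := by
            have : i ≤ 3 * m := hi
            omega
          rw [h7]
        · refine mem_union_left _ ?_
          obtain ⟨h5, b, h6⟩ := htwo (C.ρ s') i (C.ρ_pos s') (C.ρ_lt s')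
            (fun h => hss (C.ρ_inj s' s h1 h)) h3 h4
          have h7 : C.m s' ≠ m := fun h => hss (C.m_inj s' s h1 h)
          have h8 : m < C.m s' := by omega
          refine mem_image.2 ⟨(s', b), mem_product.2 ⟨mem_filter.2 ⟨mem_univ _, h1, h8, ?_⟩,
            mem_univ _⟩, ?_⟩
          · have h9 : C.st s' ≤ 3 * m + 1 := by omega
            show startRow C.side C.hside C.hm s' < 3 * m
            have h10 : startRow C.side C.hside C.hm s' ≤ 3 * m + 1 := h9
            unfold startRow at h10 ⊢
            rcases h : hubOf s' with _ | p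
            · simp only; omega
            · rw [h] at h10
              simp only at h10 ⊢
              split_ifs at h10 ⊢ with h11
              · have h12 : m ≠ C.hm p := C.m_ne s p (h1.symm.trans h11)
                omega
              · omega
          · show two (C.ρ s') b = sg (C.side s') (C.ρ s' + k * i)
            rw [← h6, h1]
    · exact mem_union_left _ (mem_filter.2 ⟨hy, hocc⟩)
  have c1 := card_le_card hcover
  have c2 := card_union_le ((zone k (C.sx s)).filter fun y => ¬ C.Occ y)
    (((S1 ×ˢ (univ : Finset Bool)).image fun z => two (C.ρ z.1) z.2) ∪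
        (((S2 ×ˢ (univ : Finset Bool)).image fun z => two (C.hρ z.1) z.2) ∪
          {sg (C.side s) (r + k * (3 * m - 1))}))
  have c3 := card_union_le ((S1 ×ˢ (univ : Finset Bool)).image fun z => two (C.ρ z.1) z.2)
        (((S2 ×ˢ (univ : Finset Bool)).image fun z => two (C.hρ z.1) z.2) ∪
          {sg (C.side s) (r + k * (3 * m - 1))})
  have c4 := card_union_le ((S2 ×ˢ (univ : Finset Bool)).image fun z => two (C.hρ z.1) z.2)
          {sg (C.side s) (r + k * (3 * m - 1))}
  have c5 : ((S1 ×ˢ (univ : Finset Bool)).image fun z => two (C.ρ z.1) z.2).card ≤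
      S1.card * 2 := card_image_le.trans (by rw [card_product]; simp)
  have c6 : ((S2 ×ˢ (univ : Finset Bool)).image fun z => two (C.hρ z.1) z.2).card ≤
      S2.card * 2 := card_image_le.trans (by rw [card_product]; simp)
  have c7 : S1.card + S2.card ≤ cap sat s := C.pass_le s
  rw [card_zone] at c1
  rw [card_singleton] at c4
  unfold lv
  omega

lemma sx_far (C : Comb t q sat) (s : Star t q) : 3 * (kk t q : ℤ) < |C.sx s| := by
  unfold sx
  rw [abs_sg]
  have h1 := C.m_pos s
  have h2 := C.ρ_pos s
  have h3 : kk t q * 3 ≤ kk t q * (3 * C.m s) := Nat.mul_le_mul_left _ (by omega)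
  have : 3 * kk t q < C.ρ s + kk t q * (3 * C.m s) := by omega
  exact_mod_cast this

lemma sx_far' (C : Comb t q sat) {s s' : Star t q} (h : s ≠ s') :
    2 * (kk t q : ℤ) < |C.sx s - C.sx s'| := by
  have key : ∀ s s' : Star t q, C.side s = C.side s' → C.m s < C.m s' →
      2 * (kk t q : ℤ) < |C.sx s - C.sx s'| := by
    intro s s' hs hm
    have h1 : kk t q * (3 * C.m s) + kk t q * 3 ≤ kk t q * (3 * C.m s') := by
      rw [← mul_add]; exact Nat.mul_le_mul_left _ (by omega)
    have h2 := C.ρ_pos s'
    have h3 := C.ρ_lt s
    unfold sx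
    rw [hs, lt_abs]
    unfold sg
    split_ifs
    · right; push_cast; zify at *; linarith
    · left; push_cast; zify at *; linarith
  by_cases hs : C.side s = C.side s'
  · rcases lt_trichotomy (C.m s) (C.m s') with hm | hm | hm
    · exact key s s' hs hm
    · exact absurd (C.m_inj s s' hs hm) h
    · rw [abs_sub_comm]; exact key s' s hs.symm hm
  · have h1 := C.sx_far s
    have h2 := C.sx_far s'
    have h3 : (0 : ℤ) ≤ kk t q := by positivity
    have h4 : (0 : ℤ) ≤ (kk t q : ℤ) * (3 * (C.m s : ℤ)) := by positivity
    have h5 : (0 : ℤ) ≤ (kk t q : ℤ) * (3 * (C.m s' : ℤ)) := by positivity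
    rw [lt_abs] at h1 h2 ⊢
    unfold sx sg at *
    cases hb : C.side s <;> cases hb' : C.side s' <;> simp_all <;> omega

/-- CHUNK SC1. The layout: `x root = 0`, hubs and stars as above, leaves by an injective choice of free
positions (`root_free`, `star_free`); the zones of different stars and of the root are disjoint. -/
theorem rpl (C : Comb t q sat) : Nonempty (RPl (par sat) (kk t q)) := by
  classical
  have hk : 0 < kk t q := by have := R0_ge t q; unfold kk; omega
  obtain ⟨fr, hfr, hfr'⟩ := exists_choice _ _ C.root_free
  choose fs hfs hfs' using fun s => exists_choice _ _ (C.star_free s)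
  simp only [mem_filter, mem_zone] at hfr' hfs'
  let x : Vtx t q sat → ℤ
    | .root => 0
    | .hub a x => C.hx (a, x)
    | .star s => C.sx s
    | .rleaf i => fr i
    | .sleaf s i => fs s i
  let pre : Vtx t q sat → List ℤ
    | .root => []
    | .hub a x => C.hpre (a, x)
    | .star s => C.spre s
    | .rleaf _ => []
    | .sleaf _ _ => []
  have hocc_root : C.Occ 0 := Or.inl rfl
  have hocc_hub : ∀ p y, y ∈ C.hpre p ++ [C.hx p] → C.Occ y := fun p y h => Or.inr (Or.inl ⟨p, h⟩)
  have hocc_star : ∀ s y, y ∈ C.spre s ++ [C.sx s] → C.Occ y :=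
    fun s y h => Or.inr (Or.inr ⟨s, h⟩)
  refine ⟨⟨x, pre, ?_, ?_, ?_, ?_⟩⟩
  · intro v hv
    cases v <;> simp [par, pre] at hv ⊢
  · intro v u hv
    cases v with
    | root => simp [par] at hv
    | hub a b =>
      simp only [par, Option.some.injEq] at hv
      subst hv
      have h1 := C.hρ_lt (a, b)
      have h2 := C.hρ_pos (a, b)
      have h := chain_sg (C.hside (a, b)) (C.hρ (a, b)) (kk t q) (3 * C.hm (a, b)) 0 0 (by
        rw [zero_sub, abs_neg, abs_sg]
        exact_mod_cast (by omega : C.hρ (a, b) + kk t q * 0 ≤ kk t q))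
      rw [zero_add] at h
      exact h
    | star s =>
      simp only [par, Option.some.injEq] at hv
      subst hv
      have hst := C.st_lt s
      have h := chain_sg (C.side s) (C.ρ s) (kk t q) (3 * C.m s - C.st s) (C.st s)
        (x (starPar sat s)) (by
          have h1 := C.ρ_lt s
          have h2 := C.ρ_pos s
          unfold st startRow starPar
          cases hh : hubOf s with
          | none =>
            simp only [x]
            rw [zero_sub, abs_neg, abs_sg]
            exact_mod_cast (by omega : C.ρ s + kk t q * 0 ≤ kk t q)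
          | some p =>
            simp only [x]
            have h3 := C.hρ_lt p
            have h4 := C.hρ_pos p
            split_ifs with hsd
            · have h5 := (C.child s p hh hsd).2
              unfold hx
              rw [hsd]
              unfold sg
              have h6 : kk t q * (3 * C.hm p + 1) = kk t q * (3 * C.hm p) + kk t q := by ring
              rw [h6]
              split_ifs
              · rw [abs_le]; push_cast; zify at *; constructor <;> linarith
              · rw [abs_le]; push_cast; zify at *; constructor <;> linarith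
            · obtain ⟨h5, h6⟩ := C.special s p hh hsd
              unfold hx
              rw [h5]
              unfold sg
              cases hb : C.side s <;> cases hb' : C.hside p <;> simp_all <;> rw [abs_le] <;>
                zify at * <;> constructor <;> linarith)
      rw [show C.st s + (3 * C.m s - C.st s) = 3 * C.m s by omega] at h
      exact h
    | rleaf i =>
      simp only [par, Option.some.injEq] at hv
      subst hv
      have h := (hfr' i).1
      simp only [x, pre, List.nil_append, List.isChain_cons_cons, List.isChain_singleton, and_true]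
      rw [abs_le]
      constructor <;> omega
    | sleaf s i =>
      simp only [par, Option.some.injEq] at hv
      subst hv
      have h := (hfs' s i).1
      simp only [x, pre, List.nil_append, List.isChain_cons_cons, List.isChain_singleton, and_true]
      rw [abs_le]
      constructor <;> omega
  · intro v
    cases v with
    | root => simp [pre]
    | hub a b =>
      have h := nodup_sg (C.hside (a, b)) (C.hρ (a, b)) (kk t q) (C.hρ_lt _) (C.hρ_pos _) 0
        (3 * C.hm (a, b))
      rw [zero_add] at h
      exact h
    | star s =>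
      have hst := C.st_lt s
      have h := nodup_sg (C.side s) (C.ρ s) (kk t q) (C.ρ_lt _) (C.ρ_pos _) (C.st s)
        (3 * C.m s - C.st s)
      rw [show C.st s + (3 * C.m s - C.st s) = 3 * C.m s by omega] at h
      exact h
    | rleaf i => simp [pre]
    | sleaf s i => simp [pre]
  · -- all the cases
    have hroot : ∀ p y, y ∈ C.hpre p ++ [C.hx p] → y ≠ 0 := by
      intro p y hy h0
      rw [C.mem_hpos] at hy
      obtain ⟨i, _, hi⟩ := hy
      have h1 := C.hρ_pos p
      have := abs_sg (C.hside p) (C.hρ p + kk t q * i)
      rw [← hi, h0, abs_zero] at this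
      have : C.hρ p + kk t q * i = 0 := by exact_mod_cast this.symm
      omega
    have hroot' : ∀ s y, y ∈ C.spre s ++ [C.sx s] → y ≠ 0 := by
      intro s y hy h0
      rw [C.mem_spos] at hy
      obtain ⟨i, _, _, hi⟩ := hy
      have h1 := C.ρ_pos s
      have := abs_sg (C.side s) (C.ρ s + kk t q * i)
      rw [← hi, h0, abs_zero] at this
      have : C.ρ s + kk t q * i = 0 := by exact_mod_cast this.symm
      omega
    have hhs : ∀ p s y, y ∈ C.hpre p ++ [C.hx p] → y ∈ C.spre s ++ [C.sx s] → False := by
      intro p s y hy hy'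
      rw [C.mem_hpos] at hy
      rw [C.mem_spos] at hy'
      obtain ⟨i, _, hi⟩ := hy
      obtain ⟨i', _, _, hi'⟩ := hy'
      have h1 := C.hρ_pos p
      have h2 := C.ρ_pos s
      obtain ⟨h3, h4⟩ := sg_inj (by omega) (by omega) (hi.symm.trans hi')
      exact C.ρ_ne s p h3.symm (res_inj (C.hρ_lt p) (C.ρ_lt s) h4).1.symm
    have hrl : ∀ i y, y = fr i → ¬ C.Occ y := fun i y h => h ▸ (hfr' i).2
    have hsl : ∀ s i y, y = fs s i → ¬ C.Occ y := fun s i y h => h ▸ (hfs' s i).2
    have hrs : ∀ i s j, fr i ≠ fs s j := by
      intro i s j h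
      have h1 := (hfr' i).1
      have h2 := (hfs' s j).1
      have h3 := C.sx_far s
      rw [lt_abs] at h3
      omega
    intro v w y hv hw
    cases v with
    | root =>
      have hv' : y = 0 := by simpa [pre, x] using hv
      cases w with
      | root => rfl
      | hub a b => exact absurd hv' (hroot (a, b) y hw)
      | star s => exact absurd hv' (hroot' s y hw)
      | rleaf i =>
        have hw' : y = fr i := by simpa [pre, x] using hw
        exact absurd (hv' ▸ hocc_root) (hrl i y hw')
      | sleaf s i =>
        have hw' : y = fs s i := by simpa [pre, x] using hw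
        exact absurd (hv' ▸ hocc_root) (hsl s i y hw')
    | hub a b =>
      cases w with
      | root =>
        have hw' : y = 0 := by simpa [pre, x] using hw
        exact absurd hw' (hroot (a, b) y hv)
      | hub a' b' =>
        have hy := C.mem_hpos.1 hv
        have hy' := C.mem_hpos.1 hw
        obtain ⟨i, _, hi⟩ := hy
        obtain ⟨i', _, hi'⟩ := hy'
        have h1 := C.hρ_pos (a, b)
        have h2 := C.hρ_pos (a', b')
        obtain ⟨h3, h4⟩ := sg_inj (by omega) (by omega) (hi.symm.trans hi')
        have h5 := C.hρ_inj _ _ h3 (res_inj (C.hρ_lt _) (C.hρ_lt _) h4).1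
        simp only [Prod.mk.injEq] at h5
        rw [h5.1, h5.2]
      | star s => exact (hhs _ _ _ hv hw).elim
      | rleaf i =>
        have hw' : y = fr i := by simpa [pre, x] using hw
        exact absurd (hocc_hub _ _ hv) (hrl i y hw')
      | sleaf s i =>
        have hw' : y = fs s i := by simpa [pre, x] using hw
        exact absurd (hocc_hub _ _ hv) (hsl s i y hw')
    | star s =>
      cases w with
      | root =>
        have hw' : y = 0 := by simpa [pre, x] using hw
        exact absurd hw' (hroot' s y hv)
      | hub a' b' => exact (hhs _ _ _ hw hv).elim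
      | star s' =>
        have hy := C.mem_spos.1 hv
        have hy' := C.mem_spos.1 hw
        obtain ⟨i, _, _, hi⟩ := hy
        obtain ⟨i', _, _, hi'⟩ := hy'
        have h1 := C.ρ_pos s
        have h2 := C.ρ_pos s'
        obtain ⟨h3, h4⟩ := sg_inj (by omega) (by omega) (hi.symm.trans hi')
        have h5 := C.ρ_inj _ _ h3 (res_inj (C.ρ_lt _) (C.ρ_lt _) h4).1
        rw [h5]
      | rleaf i =>
        have hw' : y = fr i := by simpa [pre, x] using hw
        exact absurd (hocc_star _ _ hv) (hrl i y hw')
      | sleaf s i =>
        have hw' : y = fs s i := by simpa [pre, x] using hw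
        exact absurd (hocc_star _ _ hv) (hsl s i y hw')
    | rleaf i =>
      have hv' : y = fr i := by simpa [pre, x] using hv
      cases w with
      | root =>
        have hw' : y = 0 := by simpa [pre, x] using hw
        exact absurd (hw' ▸ hocc_root) (hrl i y hv')
      | hub a' b' => exact absurd (hocc_hub _ _ hw) (hrl i y hv')
      | star s' => exact absurd (hocc_star _ _ hw) (hrl i y hv')
      | rleaf i' =>
        have hw' : y = fr i' := by simpa [pre, x] using hw
        rw [hfr (hv'.symm.trans hw')]
      | sleaf s i' =>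
        have hw' : y = fs s i' := by simpa [pre, x] using hw
        exact absurd (hv'.symm.trans hw') (hrs i s i')
    | sleaf s i =>
      have hv' : y = fs s i := by simpa [pre, x] using hv
      cases w with
      | root =>
        have hw' : y = 0 := by simpa [pre, x] using hw
        exact absurd (hw' ▸ hocc_root) (hsl s i y hv')
      | hub a' b' => exact absurd (hocc_hub _ _ hw) (hsl s i y hv')
      | star s' => exact absurd (hocc_star _ _ hw) (hsl s i y hv')
      | rleaf i' =>
        have hw' : y = fr i' := by simpa [pre, x] using hw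
        exact absurd (hw'.symm.trans hv') (hrs i' s i)
      | sleaf s' i' =>
        have hw' : y = fs s' i' := by simpa [pre, x] using hw
        by_cases hss : s = s'
        · subst hss
          rw [hfs s (hv'.symm.trans hw')]
        · exfalso
          have h1 := (hfs' s i).1
          have h2 := (hfs' s' i').1
          have h3 := C.sx_far' hss
          rw [← hv'] at h1
          rw [← hw'] at h2
          rw [lt_abs] at h3
          omega

end Comb

end Pool.Agent.Lib.TopBw
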