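import Pool.Agent.Lib.TopBw.Comb

/-!
# The comb layout of a satisfying assignment

`X` is the assignment. On the right: the hubs `(a, X a)` (in row `0`, residue `k - 1 - a`) and the
stars `D a`, `A a (X a) false`, `W a (X a) j`, `E i` for `i < q + 2`, `M i` for `i < 2 R0`. On the left:
the hubs `(a, !X a)`, the special stars `A a (X a) true` (residue `a + 1`), and the stars
`A a (!X a) b`, `W a (!X a) j`, `F j i`, `E i` for `i ≥ q + 2`, `M i` for `i ≥ 2 R0`.
Stars of smaller capacity are farther from the root. All other residues are `t + 1 + num s`.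
-/

set_option autoImplicit false

namespace Pool.Agent.Lib.TopBw

open Finset

variable {t q : ℕ} {sat : Fin t → Bool → Fin q → Bool}

/-- a numbering of the stars -/
noncomputable def num (s : Star t q) : ℕ := (Fintype.equivFin (Star t q) s : ℕ)

lemma num_inj {s s' : Star t q} (h : num s = num s') : s = s' := by
  unfold num at h
  exact (Fintype.equivFin (Star t q)).injective (Fin.ext h)

/-- the stars as a sum of types -/
def starEquiv (t q : ℕ) : Star t q ≃ Fin t ⊕ (Fin t × Bool × Bool) ⊕ (Fin t × Bool × Fin q) ⊕
    (Fin q × Fin t) ⊕ Fin (2 * q + 3) ⊕ Fin (4 * R0 t q) where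
  toFun
    | .D a => .inl a
    | .A a x b => .inr (.inl (a, x, b))
    | .W a x j => .inr (.inr (.inl (a, x, j)))
    | .F j i => .inr (.inr (.inr (.inl (j, i))))
    | .E i => .inr (.inr (.inr (.inr (.inl i))))
    | .M i => .inr (.inr (.inr (.inr (.inr i))))
  invFun
    | .inl a => .D a
    | .inr (.inl y) => .A y.1 y.2.1 y.2.2
    | .inr (.inr (.inl y)) => .W y.1 y.2.1 y.2.2
    | .inr (.inr (.inr (.inl y))) => .F y.1 y.2
    | .inr (.inr (.inr (.inr (.inl i)))) => .E i
    | .inr (.inr (.inr (.inr (.inr i)))) => .M i
  left_inv s := by cases s <;> rfl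
  right_inv y := by
    rcases y with a | ⟨a, x, b⟩ | ⟨a, x, j⟩ | ⟨j, i⟩ | i | i <;> rfl

/-- counting stars type by type -/
lemma card_filter_star (p : Star t q → Prop) [DecidablePred p] :
    (univ.filter p).card = (univ.filter fun a : Fin t => p (.D a)).card +
      ((univ.filter fun y : Fin t × Bool × Bool => p (.A y.1 y.2.1 y.2.2)).card +
      ((univ.filter fun y : Fin t × Bool × Fin q => p (.W y.1 y.2.1 y.2.2)).card +
      ((univ.filter fun y : Fin q × Fin t => p (.F y.1 y.2)).card +
      ((univ.filter fun i : Fin (2 * q + 3) => p (.E i)).card +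
      (univ.filter fun i : Fin (4 * R0 t q) => p (.M i)).card)))) := by
  simp only [Finset.card_filter]
  rw [Fintype.sum_equiv (starEquiv t q) _ (fun y => if p ((starEquiv t q).symm y) then 1 else 0)
    (fun s => by rw [Equiv.symm_apply_apply])]
  simp only [Fintype.sum_sum_type]
  rfl

lemma num_lt (s : Star t q) : num s < 7 * R0 t q := by
  have h1 : num s < Fintype.card (Star t q) := (Fintype.equivFin (Star t q) s).2
  have h2 : Fintype.card (Star t q) = 5 * t + 3 * (t * q) + 2 * q + 3 + 4 * R0 t q := by
    rw [Fintype.card_congr (starEquiv t q)]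
    simp only [Fintype.card_sum, Fintype.card_prod, Fintype.card_fin, Fintype.card_bool]
    ring
  have h3 : R0 t q = 2 * t + t * q + q + 2 := rfl
  omega

variable (sat) (X : Fin t → Bool)

/-- sides of the stars -/
def exSide : Star t q → Bool
  | .D _ => true
  | .A a x b => decide (x = X a) && !b
  | .W a x _ => decide (x = X a)
  | .F _ _ => false
  | .E i => decide ((i : ℕ) < q + 2)
  | .M i => decide ((i : ℕ) < 2 * R0 t q)

/-- residues of the stars -/
noncomputable def exρ : Star t q → ℕ
  | .A a x b => if x = X a ∧ b = true then a + 1 else t + 1 + num (.A a x b : Star t q)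
  | s => t + 1 + num s

/-- the period of the rows (divided by 3) -/
def NN (t q : ℕ) : ℕ := 14 * R0 t q + 2

/-- the rows of the centres of the stars (divided by 3) -/
noncomputable def exm : Star t q → ℕ
  | .A a x b => if x = X a then
      (3 * R0 t q + 1 - (2 * a + 1)) * NN t q + (num (.A a x b : Star t q) + 1)
      else (3 * R0 t q + 1 - 2 * a) * NN t q + (7 * R0 t q + 1 + num (.A a x b : Star t q))
  | .W a x j => if x = X a then
      (3 * R0 t q + 1 - cap sat (.W a x j)) * NN t q + (num (.W a x j : Star t q) + 1)
      else (3 * R0 t q + 1 - 2 * a) * NN t q + (num (.W a x j : Star t q) + 1)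
  | s => (3 * R0 t q + 1 - cap sat s) * NN t q + (num s + 1)

/-- sides of the hubs -/
def exhside (p : Fin t × Bool) : Bool := decide (p.2 = X p.1)

/-- residues of the hubs -/
def exhρ (q : ℕ) (p : Fin t × Bool) : ℕ := kk t q - 1 - p.1

/-- the rows of the hubs (divided by 3) -/
def exhm (q : ℕ) (p : Fin t × Bool) : ℕ :=
  if p.2 = X p.1 then 0 else (3 * R0 t q + 1 - 2 * p.1) * NN t q

/-- effective capacity: `exm s = (3 R0 + 1 - eff s) * NN + rr s` -/
def eff : Star t q → ℕ
  | .A a x _ => if x = X a then 2 * a + 1 else 2 * a
  | .W a x j => if x = X a then cap sat (.W a x j) else 2 * a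
  | s => cap sat s

/-- the position in the block -/
noncomputable def rr : Star t q → ℕ
  | .A a x b => if x = X a then num (.A a x b : Star t q) + 1
      else 7 * R0 t q + 1 + num (.A a x b : Star t q)
  | s => num s + 1

lemma exm_eq (s : Star t q) :
    exm sat X s = (3 * R0 t q + 1 - eff sat X s) * NN t q + rr X s := by
  cases s with
  | D a => simp only [exm, eff, rr]
  | A a x b => simp only [exm, eff, rr]; split_ifs <;> rfl
  | W a x j => simp only [exm, eff, rr]; split_ifs <;> rfl
  | F j i => simp only [exm, eff, rr]
  | E i => simp only [exm, eff, rr]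
  | M i => simp only [exm, eff, rr]

lemma eff_le (s : Star t q) : eff sat X s ≤ 3 * R0 t q := by
  have hR : R0 t q = 2 * t + t * q + q + 2 := rfl
  cases s with
  | D a => simp only [eff]; exact cap_le _
  | A a x b => have := a.2; simp only [eff]; split_ifs <;> omega
  | W a x j =>
    have h1 := a.2
    simp only [eff]
    split_ifs
    · exact cap_le _
    · omega
  | F j i => simp only [eff]; exact cap_le _
  | E i => simp only [eff]; exact cap_le _
  | M i => simp only [eff]; exact cap_le _

lemma rr_pos (s : Star t q) : 1 ≤ rr X s := by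
  cases s <;> simp only [rr] <;> try split_ifs <;> omega
  all_goals omega

lemma rr_le (s : Star t q) : rr X s ≤ 14 * R0 t q := by
  have h := num_lt s
  cases s <;> simp only [rr] <;> try split_ifs <;> omega
  all_goals omega

lemma rr_inj {s s' : Star t q} (h : rr X s = rr X s') : s = s' := by
  have h1 := num_lt s
  have h2 := num_lt s'
  apply num_inj
  have e : ∀ s : Star t q, rr X s = num s + 1 ∨ rr X s = 7 * R0 t q + 1 + num s := by
    intro s
    cases s with
    | A a x b => simp only [rr]; split_ifs <;> simp
    | D a => left; rfl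
    | W a x j => left; rfl
    | F j i => left; rfl
    | E i => left; rfl
    | M i => left; rfl
  rcases e s with e1 | e1 <;> rcases e s' with e2 | e2 <;> omega

lemma block_lt {c c' r r' n : ℕ} (h : c * n + r < c' * n + r') (hr' : r' < n) : c ≤ c' := by
  by_contra hc
  push Not at hc
  have : (c' + 1) * n ≤ c * n := Nat.mul_le_mul_right _ hc
  rw [Nat.add_mul, one_mul] at this
  omega

lemma exm_lt {s s' : Star t q} (h : exm sat X s < exm sat X s') :
    eff sat X s' ≤ eff sat X s ∧ (eff sat X s' = eff sat X s → rr X s < rr X s') := by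
  rw [exm_eq, exm_eq] at h
  have h1 := eff_le sat X s
  have h2 := eff_le sat X s'
  have h3 := rr_le X s
  have h4 := rr_le X s'
  have hN : NN t q = 14 * R0 t q + 2 := rfl
  have h5 := block_lt h (by omega)
  refine ⟨by omega, fun he => ?_⟩
  rw [he] at h
  omega

lemma hm_lt_exm {a : ℕ} {s : Star t q} (ha : 2 * a ≤ 3 * R0 t q)
    (h : (3 * R0 t q + 1 - 2 * a) * NN t q < exm sat X s) : eff sat X s ≤ 2 * a := by
  rw [exm_eq] at h
  have h1 := eff_le sat X s
  have h3 := rr_le X s
  have hN : NN t q = 14 * R0 t q + 2 := rfl
  have h5 := block_lt (c := 3 * R0 t q + 1 - 2 * a) (r := 0) (n := NN t q) (by simpa using h) (by omega)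
  omega

lemma exm_lt_hm {a : ℕ} {s : Star t q} (ha : 2 * a ≤ 3 * R0 t q)
    (h : exm sat X s < (3 * R0 t q + 1 - 2 * a) * NN t q) : 2 * a < eff sat X s := by
  rw [exm_eq] at h
  have h1 := eff_le sat X s
  have h3 := rr_le X s
  have h4 := rr_pos X s
  have hN : NN t q = 14 * R0 t q + 2 := rfl
  by_contra hc
  push Not at hc
  have : (3 * R0 t q + 1 - 2 * a) * NN t q ≤ (3 * R0 t q + 1 - eff sat X s) * NN t q :=
    Nat.mul_le_mul_right _ (by omega)
  omega

lemma exm_pos (s : Star t q) : 1 ≤ exm sat X s := by
  rw [exm_eq]
  have h4 := rr_pos X s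
  omega

lemma card_lt_le (n m : ℕ) : (univ.filter fun i : Fin n => (i : ℕ) < m).card ≤ m := by
  have : (univ.filter fun i : Fin n => (i : ℕ) < m).card ≤ (range m).card := by
    apply Finset.card_le_card_of_injOn (fun i : Fin n => (i : ℕ))
    · intro i hi
      simpa using hi
    · intro i _ j _ h
      exact Fin.ext h
  simpa using this

lemma card_ge_le (n m : ℕ) : (univ.filter fun i : Fin n => m ≤ (i : ℕ)).card ≤ n - m := by
  have : (univ.filter fun i : Fin n => m ≤ (i : ℕ)).card ≤ (Ico m n).card := by
    apply Finset.card_le_card_of_injOn (fun i : Fin n => (i : ℕ))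
    · intro i hi
      have := i.2
      simp only [coe_filter, mem_univ, true_and, Set.mem_ofPred_eq] at hi
      simp only [coe_Ico, Set.mem_Ico]
      omega
    · intro i _ j _ h
      exact Fin.ext h
  simpa using this

lemma card_image_le' {α β : Type*} [DecidableEq β] (S : Finset α) (f : α → β) {m : ℕ}
    (h : S.card ≤ m) : (S.image f).card ≤ m := card_image_le.trans h

/-- removing one element -/
lemma card_erase_le' {α : Type*} [DecidableEq α] {T S : Finset α} {s : α} {m : ℕ} (hs : s ∈ S)
    (hT : ∀ x ∈ T, x ∈ S ∧ x ≠ s) (h : S.card ≤ m + 1) : T.card ≤ m := by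
  have h1 : T ⊆ S.erase s := fun x hx => mem_erase.2 ⟨(hT x hx).2, (hT x hx).1⟩
  have h2 := card_le_card h1
  rw [card_erase_of_mem hs] at h2
  omega


lemma eff_right {s : Star t q} (hs : exSide X s = true) : eff sat X s = cap sat s := by
  cases s with
  | A a x b =>
    simp only [exSide, Bool.and_eq_true, decide_eq_true_eq] at hs
    simp only [eff]; rw [if_pos hs.1]; rfl
  | W a x j =>
    simp only [exSide, decide_eq_true_eq] at hs
    simp only [eff]; rw [if_pos hs]
  | D a => rfl
  | F j i => rfl
  | E i => rfl
  | M i => rfl

/-- stars on the right with given index sets -/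
def SR (P Q : Finset (Fin t)) (V : Finset (Fin t × Fin q)) (E : Finset (Fin (2 * q + 3)))
    (N : Finset (Fin (4 * R0 t q))) : Finset (Star t q) :=
  P.image Star.D ∪ (Q.image (fun a => Star.A a (X a) false) ∪
    (V.image (fun y => Star.W y.1 (X y.1) y.2) ∪ (E.image Star.E ∪ N.image Star.M)))

lemma card_SR (P Q : Finset (Fin t)) (V : Finset (Fin t × Fin q)) (E : Finset (Fin (2 * q + 3)))
    (N : Finset (Fin (4 * R0 t q))) :
    (SR X P Q V E N).card ≤ P.card + (Q.card + (V.card + (E.card + N.card))) := by
  unfold SR
  have h1 := card_image_le (s := P) (f := (Star.D : Fin t → Star t q))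
  have h2 := card_image_le (s := Q) (f := (fun a => Star.A a (X a) false : Fin t → Star t q))
  have h3 := card_image_le (s := V) (f := (fun y => Star.W y.1 (X y.1) y.2 : Fin t × Fin q → Star t q))
  have h4 := card_image_le (s := E) (f := (Star.E : Fin (2 * q + 3) → Star t q))
  have h5 := card_image_le (s := N) (f := (Star.M : Fin (4 * R0 t q) → Star t q))
  refine (card_union_le _ _).trans (Nat.add_le_add h1 ((card_union_le _ _).trans
    (Nat.add_le_add h2 ((card_union_le _ _).trans (Nat.add_le_add h3 ((card_union_le _ _).trans
      (Nat.add_le_add h4 h5)))))))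

lemma mem_SR {P Q : Finset (Fin t)} {V : Finset (Fin t × Fin q)} {E : Finset (Fin (2 * q + 3))}
    {N : Finset (Fin (4 * R0 t q))} {s : Star t q} (hs : exSide X s = true)
    (hP : ∀ a, s = .D a → a ∈ P) (hQ : ∀ a, s = .A a (X a) false → a ∈ Q)
    (hV : ∀ a j, s = .W a (X a) j → (a, j) ∈ V) (hE : ∀ i, s = .E i → (i : ℕ) < q + 2 → i ∈ E)
    (hN : ∀ i, s = .M i → (i : ℕ) < 2 * R0 t q → i ∈ N) : s ∈ SR X P Q V E N := by
  unfold SR
  simp only [mem_union, mem_image]
  cases s with
  | D a => exact Or.inl ⟨a, hP a rfl, rfl⟩
  | A a x b =>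
    simp only [exSide, Bool.and_eq_true, decide_eq_true_eq, Bool.not_eq_true'] at hs
    obtain ⟨rfl, rfl⟩ := hs
    exact Or.inr (Or.inl ⟨a, hQ a rfl, rfl⟩)
  | W a x j =>
    simp only [exSide, decide_eq_true_eq] at hs
    subst hs
    exact Or.inr (Or.inr (Or.inl ⟨(a, j), hV a j rfl, rfl⟩))
  | F j i => simp [exSide] at hs
  | E i =>
    simp only [exSide, decide_eq_true_eq] at hs
    exact Or.inr (Or.inr (Or.inr (Or.inl ⟨i, hE i rfl hs, rfl⟩)))
  | M i =>
    simp only [exSide, decide_eq_true_eq] at hs
    exact Or.inr (Or.inr (Or.inr (Or.inr ⟨i, hN i rfl hs, rfl⟩)))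

lemma SR_self {P Q : Finset (Fin t)} {V : Finset (Fin t × Fin q)} {E : Finset (Fin (2 * q + 3))}
    {N : Finset (Fin (4 * R0 t q))} {s : Star t q} {T : Finset (Star t q)} {m : ℕ}
    (hs : s ∈ SR X P Q V E N) (hT : ∀ x ∈ T, x ∈ SR X P Q V E N ∧ x ≠ s)
    (h : P.card + (Q.card + (V.card + (E.card + N.card))) ≤ m + 1) : T.card ≤ m :=
  card_erase_le' hs hT ((card_SR X P Q V E N).trans h)

/-- clause stars of small capacity -/
lemma card_W_small {j : Fin q} (hX : ∃ a, sat a (X a) j = true) :
    (univ.filter fun y : Fin t × Fin q =>
      t * (y.2 : ℕ) + (if sat y.1 (X y.1) y.2 then 1 else 0) ≤ t * (j : ℕ)).card ≤ t * j + (t - 1) := by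
  obtain ⟨a0, ha0⟩ := hX
  have hsub : (univ.filter fun y : Fin t × Fin q =>
      t * (y.2 : ℕ) + (if sat y.1 (X y.1) y.2 then 1 else 0) ≤ t * (j : ℕ)) ⊆
      ((univ : Finset (Fin t)) ×ˢ Iio j) ∪ ((univ.erase a0) ×ˢ {j}) := by
    rintro ⟨a, j'⟩ h
    simp only [mem_filter, mem_univ, true_and] at h
    simp only [mem_union, mem_product, mem_univ, true_and, mem_Iio, mem_singleton, mem_erase, and_true]
    have ht : 0 < t := lt_of_le_of_lt (Nat.zero_le _) a0.2
    rcases lt_trichotomy j' j with h1 | h1 | h1
    · exact Or.inl h1
    · right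
      refine ⟨fun h2 => ?_, h1⟩
      subst h1 h2
      rw [if_pos ha0] at h
      omega
    · exfalso
      have h2 : (j : ℕ) + 1 ≤ j' := h1
      have h3 := Nat.mul_le_mul_left t h2
      rw [Nat.mul_add, Nat.mul_one] at h3
      omega
  refine (card_le_card hsub).trans ((card_union_le _ _).trans ?_)
  rw [card_product, card_product, Fin.card_Iio, card_erase_of_mem (mem_univ _), card_univ,
    Fintype.card_fin, card_singleton, Nat.mul_one]

/-- CHUNK SE2. On the right. -/
theorem exPass_right (ht : 1 ≤ t) (hX : ∀ j, ∃ a, sat a (X a) j = true) (s : Star t q)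
    (hs : exSide X s = true) :
    (univ.filter fun s' => exSide X s' = exSide X s ∧ exm sat X s < exm sat X s' ∧
      startRow (exSide X) (exhside X) (exhm X q) s' < 3 * exm sat X s).card +
    (univ.filter fun p => exhside X p = exSide X s ∧ exm sat X s < exhm X q p).card ≤
      cap sat s := by
  have hR : R0 t q = 2 * t + t * q + q + 2 := rfl
  have h0 : (univ.filter fun p => exhside X p = exSide X s ∧ exm sat X s < exhm X q p) = ∅ := by
    rw [filter_eq_empty_iff]
    rintro ⟨a, x⟩ _ ⟨h1, h2⟩
    rw [hs] at h1
    simp only [exhside, decide_eq_true_eq] at h1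
    simp only [exhm, h1, if_true] at h2
    omega
  rw [h0, card_empty, Nat.add_zero]
  set T := univ.filter fun s' => exSide X s' = exSide X s ∧ exm sat X s < exm sat X s' ∧
      startRow (exSide X) (exhside X) (exhm X q) s' < 3 * exm sat X s with hTdef
  have hT : ∀ x ∈ T, exSide X x = true ∧ cap sat x ≤ cap sat s ∧ x ≠ s := by
    intro x hx
    simp only [hTdef, mem_filter, mem_univ, true_and] at hx
    obtain ⟨h1, h2, -⟩ := hx
    rw [hs] at h1
    refine ⟨h1, ?_, fun h3 => by rw [h3] at h2; omega⟩
    rw [← eff_right sat X h1, ← eff_right sat X hs]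
    exact (exm_lt sat X h2).1
  have hcardE := card_lt_le (2 * q + 3) (q + 2)
  cases s with
  | D a =>
    have ha := a.2
    apply SR_self X (P := Iic a) (Q := Iio a) (V := ∅) (E := ∅) (N := ∅)
    · exact mem_SR X hs (by rintro a' ⟨⟩; simp) (by rintro a' ⟨⟩) (by rintro a' j' ⟨⟩)
        (by rintro i ⟨⟩) (by rintro i ⟨⟩)
    · intro x hx
      obtain ⟨h1, h2, h3⟩ := hT x hx
      refine ⟨mem_SR X h1 ?_ ?_ ?_ ?_ ?_, h3⟩
      · rintro a' rfl
        simp only [cap] at h2
        rw [mem_Iic, Fin.le_def]; omega
      · rintro a' rfl
        simp only [cap] at h2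
        rw [mem_Iio, Fin.lt_def]; omega
      · rintro a' j' rfl
        simp only [cap] at h2
        omega
      · rintro i rfl _
        simp only [cap] at h2
        omega
      · rintro i rfl _
        simp only [cap] at h2
        omega
    · simp only [Fin.card_Iic, Fin.card_Iio, card_empty, cap]
      omega
  | A a x b =>
    have ha := a.2
    apply SR_self X (P := Iic a) (Q := Iic a) (V := ∅) (E := ∅) (N := ∅)
    · exact mem_SR X hs (by rintro a' ⟨⟩) (by rintro a' ⟨⟩; simp) (by rintro a' j' ⟨⟩)
        (by rintro i ⟨⟩) (by rintro i ⟨⟩)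
    · intro x hx
      obtain ⟨h1, h2, h3⟩ := hT x hx
      refine ⟨mem_SR X h1 ?_ ?_ ?_ ?_ ?_, h3⟩
      · rintro a' rfl
        simp only [cap] at h2
        rw [mem_Iic, Fin.le_def]; omega
      · rintro a' rfl
        simp only [cap] at h2
        rw [mem_Iic, Fin.le_def]; omega
      · rintro a' j' rfl
        simp only [cap] at h2
        omega
      · rintro i rfl _
        simp only [cap] at h2
        omega
      · rintro i rfl _
        simp only [cap] at h2
        omega
    · simp only [Fin.card_Iic, card_empty, cap]
      omega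
  | W a x j =>
    have ha := a.2
    have hj : t * (j : ℕ) + t ≤ t * q := by
      calc t * (j : ℕ) + t = t * (j + 1) := by ring
        _ ≤ t * q := Nat.mul_le_mul_left _ j.2
    have hx : x = X a := by simpa [exSide] using hs
    subst hx
    cases hsat : sat a (X a) j with
    | true =>
      apply SR_self X (P := univ) (Q := univ) (V := univ ×ˢ Iic j)
        (E := univ.filter fun i : Fin (2 * q + 3) => (i : ℕ) < q + 2) (N := ∅)
      · exact mem_SR X hs (by simp) (by simp) (by rintro a' j' ⟨⟩; simp)
          (by rintro i ⟨⟩) (by rintro i ⟨⟩)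
      · intro x hx
        obtain ⟨h1, h2, h3⟩ := hT x hx
        refine ⟨mem_SR X h1 (by simp) (by simp) ?_ ?_ ?_, h3⟩
        · rintro a' j' rfl
          simp only [cap, hsat, if_true] at h2
          simp only [mem_product, mem_univ, true_and, mem_Iic]
          by_contra hjj
          push Not at hjj
          have h4 : (j : ℕ) + 1 ≤ j' := hjj
          have h5 := Nat.mul_le_mul_left t h4
          rw [Nat.mul_add, Nat.mul_one] at h5
          have ht1 : t = 1 := by omega
          subst ht1
          obtain ⟨a0, ha0⟩ := hX j'
          have h6 : a' = a0 := Subsingleton.elim _ _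
          rw [h6, ha0] at h2
          simp only [if_true] at h2
          omega
        · rintro i rfl hi
          simp [hi]
        · rintro i rfl _
          simp only [cap, hsat, if_true] at h2
          omega
      · simp only [card_product, Fin.card_Iic, card_empty, cap, hsat, if_true, card_univ,
          Fintype.card_fin]
        have : t * ((j : ℕ) + 1) = t * j + t := by ring
        omega
    | false =>
      apply SR_self X (P := univ) (Q := univ) (V := univ.filter fun y : Fin t × Fin q =>
          t * (y.2 : ℕ) + (if sat y.1 (X y.1) y.2 then 1 else 0) ≤ t * (j : ℕ))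
        (E := univ.filter fun i : Fin (2 * q + 3) => (i : ℕ) < q + 2) (N := ∅)
      · refine mem_SR X hs (by simp) (by simp) ?_ (by rintro i ⟨⟩) (by rintro i ⟨⟩)
        intro a' j' hh
        simp only [Star.W.injEq] at hh
        obtain ⟨rfl, -, rfl⟩ := hh
        simp [hsat]
      · intro x hx
        obtain ⟨h1, h2, h3⟩ := hT x hx
        refine ⟨mem_SR X h1 (by simp) (by simp) ?_ ?_ ?_, h3⟩
        · rintro a' j' rfl
          simp only [cap, hsat] at h2
          simp only [mem_filter, mem_univ, true_and]
          simp only [Bool.false_eq_true, if_false] at h2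
          omega
        · rintro i rfl hi
          simp [hi]
        · rintro i rfl _
          simp only [cap, hsat] at h2
          simp only [Bool.false_eq_true, if_false] at h2
          omega
      · have h7 := card_W_small (sat := sat) X (hX j)
        simp only [card_empty, cap, hsat, card_univ, Fintype.card_fin]
        simp only [Bool.false_eq_true, if_false]
        omega
  | F j i => simp [exSide] at hs
  | E i =>
    have hi : (i : ℕ) < q + 2 := by simpa [exSide] using hs
    apply SR_self X (P := univ) (Q := univ) (V := univ.filter fun y : Fin t × Fin q =>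
        t * (y.2 : ℕ) + (if sat y.1 (X y.1) y.2 then 1 else 0) ≤ 0)
      (E := univ.filter fun i : Fin (2 * q + 3) => (i : ℕ) < q + 2) (N := ∅)
    · exact mem_SR X hs (by simp) (by simp) (by rintro a' j' ⟨⟩)
        (by rintro i' ⟨⟩ h; simp [h]) (by rintro i ⟨⟩)
    · intro x hx
      obtain ⟨h1, h2, h3⟩ := hT x hx
      refine ⟨mem_SR X h1 (by simp) (by simp) ?_ ?_ ?_, h3⟩
      · rintro a' j' rfl
        simp only [cap] at h2
        simp only [mem_filter, mem_univ, true_and]
        omega
      · rintro i rfl hi
        simp [hi]
      · rintro i rfl _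
        simp only [cap] at h2
        omega
    · have h7 : (univ.filter fun y : Fin t × Fin q =>
          t * (y.2 : ℕ) + (if sat y.1 (X y.1) y.2 then 1 else 0) ≤ 0).card ≤ t - 1 := by
        rcases Nat.eq_zero_or_pos q with hq | hq
        · subst hq
          rw [filter_eq_empty_iff.2 (fun y => y.2.elim0)]
          simp
        · have := card_W_small (sat := sat) X (hX ⟨0, hq⟩)
          simpa using this
      simp only [card_empty, cap, card_univ, Fintype.card_fin]
      omega
  | M i =>
    have hi : (i : ℕ) < 2 * R0 t q := by simpa [exSide] using hs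
    have hcardM := card_lt_le (4 * R0 t q) (2 * R0 t q)
    apply SR_self X (P := univ) (Q := univ) (V := univ)
      (E := univ.filter fun i : Fin (2 * q + 3) => (i : ℕ) < q + 2)
      (N := univ.filter fun i : Fin (4 * R0 t q) => (i : ℕ) < 2 * R0 t q)
    · exact mem_SR X hs (by simp) (by simp) (by simp)
        (by rintro i' ⟨⟩) (by rintro i' ⟨⟩ h; simp [h])
    · intro x hx
      obtain ⟨h1, h2, h3⟩ := hT x hx
      exact ⟨mem_SR X h1 (by simp) (by simp) (by simp) (by rintro i rfl h; simp [h])
        (by rintro i rfl h; simp [h]), h3⟩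
    · simp only [cap, card_univ, Fintype.card_fin, Fintype.card_prod]
      omega

/-- stars on the left with given index sets -/
def SL (P : Finset (Fin t)) (Q : Finset (Fin t × Bool)) (V : Finset (Fin t × Fin q))
    (F : Finset (Fin q × Fin t)) (E : Finset (Fin (2 * q + 3)))
    (N : Finset (Fin (4 * R0 t q))) : Finset (Star t q) :=
  P.image (fun a => Star.A a (X a) true) ∪ (Q.image (fun y => Star.A y.1 (!X y.1) y.2) ∪
    (V.image (fun y => Star.W y.1 (!X y.1) y.2) ∪ (F.image (fun y => Star.F y.1 y.2) ∪
      (E.image Star.E ∪ N.image Star.M))))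

lemma card_SL (P : Finset (Fin t)) (Q : Finset (Fin t × Bool)) (V : Finset (Fin t × Fin q))
    (F : Finset (Fin q × Fin t)) (E : Finset (Fin (2 * q + 3))) (N : Finset (Fin (4 * R0 t q))) :
    (SL X P Q V F E N).card ≤
      P.card + (Q.card + (V.card + (F.card + (E.card + N.card)))) := by
  unfold SL
  have h1 := card_image_le (s := P) (f := (fun a => Star.A a (X a) true : Fin t → Star t q))
  have h2 := card_image_le (s := Q) (f := (fun y => Star.A y.1 (!X y.1) y.2 : Fin t × Bool → Star t q))
  have h3 := card_image_le (s := V) (f := (fun y => Star.W y.1 (!X y.1) y.2 : Fin t × Fin q → Star t q))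
  have h6 := card_image_le (s := F) (f := (fun y => Star.F y.1 y.2 : Fin q × Fin t → Star t q))
  have h4 := card_image_le (s := E) (f := (Star.E : Fin (2 * q + 3) → Star t q))
  have h5 := card_image_le (s := N) (f := (Star.M : Fin (4 * R0 t q) → Star t q))
  refine (card_union_le _ _).trans (Nat.add_le_add h1 ((card_union_le _ _).trans
    (Nat.add_le_add h2 ((card_union_le _ _).trans (Nat.add_le_add h3 ((card_union_le _ _).trans
      (Nat.add_le_add h6 ((card_union_le _ _).trans (Nat.add_le_add h4 h5)))))))))

lemma mem_SL {P : Finset (Fin t)} {Q : Finset (Fin t × Bool)} {V : Finset (Fin t × Fin q)}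
    {F : Finset (Fin q × Fin t)} {E : Finset (Fin (2 * q + 3))} {N : Finset (Fin (4 * R0 t q))}
    {s : Star t q} (hs : exSide X s = false)
    (hP : ∀ a, s = .A a (X a) true → a ∈ P) (hQ : ∀ a b, s = .A a (!X a) b → (a, b) ∈ Q)
    (hV : ∀ a j, s = .W a (!X a) j → (a, j) ∈ V) (hF : ∀ j i, s = .F j i → (j, i) ∈ F)
    (hE : ∀ i, s = .E i → q + 2 ≤ (i : ℕ) → i ∈ E)
    (hN : ∀ i, s = .M i → 2 * R0 t q ≤ (i : ℕ) → i ∈ N) : s ∈ SL X P Q V F E N := by
  unfold SL
  simp only [mem_union, mem_image]
  cases s with
  | D a => simp [exSide] at hs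
  | A a x b =>
    by_cases hx : x = X a
    · subst hx
      have hb : b = true := by
        cases b
        · simp [exSide] at hs
        · rfl
      subst hb
      exact Or.inl ⟨a, hP a rfl, rfl⟩
    · have hx' : x = !X a := by
        cases x <;> cases hXa : X a <;> simp_all
      subst hx'
      exact Or.inr (Or.inl ⟨(a, b), hQ a b rfl, rfl⟩)
  | W a x j =>
    simp only [exSide, decide_eq_false_iff_not] at hs
    have hx' : x = !X a := by
      cases x <;> cases hXa : X a <;> simp_all
    subst hx'
    exact Or.inr (Or.inr (Or.inl ⟨(a, j), hV a j rfl, rfl⟩))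
  | F j i => exact Or.inr (Or.inr (Or.inr (Or.inl ⟨(j, i), hF j i rfl, rfl⟩)))
  | E i =>
    simp only [exSide, decide_eq_false_iff_not, not_lt] at hs
    exact Or.inr (Or.inr (Or.inr (Or.inr (Or.inl ⟨i, hE i rfl hs, rfl⟩))))
  | M i =>
    simp only [exSide, decide_eq_false_iff_not, not_lt] at hs
    exact Or.inr (Or.inr (Or.inr (Or.inr (Or.inr ⟨i, hN i rfl hs, rfl⟩))))

lemma SL_self {P : Finset (Fin t)} {Q : Finset (Fin t × Bool)} {V : Finset (Fin t × Fin q)}
    {F : Finset (Fin q × Fin t)} {E : Finset (Fin (2 * q + 3))} {N : Finset (Fin (4 * R0 t q))}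
    {s : Star t q} {T : Finset (Star t q)} {m : ℕ}
    (hs : s ∈ SL X P Q V F E N) (hT : ∀ x ∈ T, x ∈ SL X P Q V F E N ∧ x ≠ s)
    (h : P.card + (Q.card + (V.card + (F.card + (E.card + N.card)))) ≤ m + 1) : T.card ≤ m :=
  card_erase_le' hs hT ((card_SL X P Q V F E N).trans h)

lemma hub_count (s : Star t q) :
    (univ.filter fun p => exhside X p = false ∧ exm sat X s < exhm X q p).card ≤
      (univ.filter fun a : Fin t => 2 * (a : ℕ) < eff sat X s).card := by
  have hR : R0 t q = 2 * t + t * q + q + 2 := rfl
  apply Finset.card_le_card_of_injOn (fun p : Fin t × Bool => p.1)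
  · rintro ⟨a, x⟩ h
    simp only [coe_filter, mem_univ, true_and, Set.mem_ofPred_eq] at h ⊢
    obtain ⟨h1, h2⟩ := h
    simp only [exhside, decide_eq_false_iff_not] at h1
    simp only [exhm, if_neg h1] at h2
    have := a.2
    exact exm_lt_hm sat X (by omega) h2
  · rintro ⟨a, x⟩ h ⟨a', x'⟩ h' hh
    simp only [coe_filter, mem_univ, true_and, Set.mem_ofPred_eq, exhside,
      decide_eq_false_iff_not] at h h'
    simp only at hh
    subst hh
    have := h.1
    have := h'.1
    cases x <;> cases x' <;> cases hXa : X a <;> simp_all

lemma count_lt_mul (a : Fin t) : (univ.filter fun a' : Fin t => 2 * (a' : ℕ) < 2 * a).card ≤ a := by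
  refine (card_le_card (t := Iio a) ?_).trans (by rw [Fin.card_Iio])
  intro a' h
  simp only [mem_filter, mem_univ, true_and] at h
  rw [mem_Iio, Fin.lt_def]; omega

lemma count_lt_mul' (a : Fin t) :
    (univ.filter fun a' : Fin t => 2 * (a' : ℕ) < 2 * a + 1).card ≤ a + 1 := by
  refine (card_le_card (t := Iic a) ?_).trans (by rw [Fin.card_Iic])
  intro a' h
  simp only [mem_filter, mem_univ, true_and] at h
  rw [mem_Iic, Fin.le_def]; omega

/-- CHUNK SE3. On the left. A star `s'` of a hub `(a', !X a')` has the start row `3 hm + 1`, so it is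
counted only if `hm (a', !X a') < m s < m s'`. -/
theorem exPass_left (ht : 1 ≤ t) (s : Star t q) (hs : exSide X s = false) :
    (univ.filter fun s' => exSide X s' = exSide X s ∧ exm sat X s < exm sat X s' ∧
      startRow (exSide X) (exhside X) (exhm X q) s' < 3 * exm sat X s).card +
    (univ.filter fun p => exhside X p = exSide X s ∧ exm sat X s < exhm X q p).card ≤
      cap sat s := by
  have hR : R0 t q = 2 * t + t * q + q + 2 := rfl
  rw [hs]
  have hhub := hub_count sat X s
  have hall : (univ.filter fun a : Fin t => 2 * (a : ℕ) < eff sat X s).card ≤ t := by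
    refine (card_filter_le _ _).trans ?_
    rw [card_univ, Fintype.card_fin]
  set T := univ.filter fun s' => exSide X s' = false ∧ exm sat X s < exm sat X s' ∧
      startRow (exSide X) (exhside X) (exhm X q) s' < 3 * exm sat X s with hTdef
  have hT : ∀ x ∈ T, exSide X x = false ∧ eff sat X x ≤ eff sat X s ∧
      (eff sat X x = eff sat X s → rr X s < rr X x) ∧
      startRow (exSide X) (exhside X) (exhm X q) x < 3 * exm sat X s ∧ x ≠ s := by
    intro x hx
    simp only [hTdef, mem_filter, mem_univ, true_and] at hx
    obtain ⟨h1, h2, h3⟩ := hx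
    have h4 := exm_lt sat X h2
    exact ⟨h1, h4.1, h4.2, h3, fun h3 => by rw [h3] at h2; omega⟩
  have hnot : ∀ a : Fin t, (!X a) ≠ X a := fun a => by cases X a <;> simp
  -- stars of the left hubs
  have hA : ∀ a b, (.A a (!X a) b : Star t q) ∈ T → eff sat X s ≤ 2 * a := by
    intro a b h
    obtain ⟨h1, h2, h3, h4, h5⟩ := hT _ h
    have ha := a.2
    apply hm_lt_exm sat X (by omega)
    simp only [startRow, hubOf, exSide, exhside, hnot, decide_false, Bool.false_and, if_true, exhm,
      if_false] at h4
    omega
  have hW : ∀ a j, (.W a (!X a) j : Star t q) ∈ T → eff sat X s ≤ 2 * a := by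
    intro a b h
    obtain ⟨h1, h2, h3, h4, h5⟩ := hT _ h
    have ha := a.2
    apply hm_lt_exm sat X (by omega)
    simp only [startRow, hubOf, exSide, exhside, hnot, decide_false, if_true, exhm,
      if_false] at h4
    omega
  have eA : ∀ a : Fin t, eff sat X (.A a (X a) true : Star t q) = 2 * a + 1 := by
    intro a; simp [eff]
  have eA' : ∀ (a : Fin t) b, eff sat X (.A a (!X a) b : Star t q) = 2 * a := by
    intro a b; simp only [eff]; rw [if_neg (hnot a)]
  have eW' : ∀ (a : Fin t) (j : Fin q), eff sat X (.W a (!X a) j : Star t q) = 2 * a := by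
    intro a b; simp only [eff]; rw [if_neg (hnot a)]
  have hcardE := card_ge_le (2 * q + 3) (q + 2)
  cases s with
  | D a => simp [exSide] at hs
  | A a x b =>
    have ha := a.2
    by_cases hx : x = X a
    · subst hx
      have hb : b = true := by
        cases b
        · simp [exSide] at hs
        · rfl
      subst hb
      have h6 := eA a
      rw [h6] at hhub
      have h7 := count_lt_mul' a
      have key : T.card ≤ a := by
        apply SL_self X (P := Iic a) (Q := ∅) (V := ∅) (F := ∅) (E := ∅) (N := ∅)
        · exact mem_SL X hs (by rintro a' ⟨⟩; simp)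
            (by intro a' b' h; simp only [Star.A.injEq] at h; obtain ⟨rfl, h, -⟩ := h
                exact absurd h.symm (hnot _)) (by rintro a' j' ⟨⟩)
            (by rintro i j ⟨⟩) (by rintro i ⟨⟩) (by rintro i ⟨⟩)
        · intro y hy
          obtain ⟨h1, h2, h3, h4, h5⟩ := hT y hy
          rw [h6] at h2
          refine ⟨mem_SL X h1 ?_ ?_ ?_ ?_ ?_ ?_, h5⟩
          · rintro a' rfl
            rw [eA] at h2
            rw [mem_Iic, Fin.le_def]; omega
          · rintro a' b' rfl
            have := hA _ _ hy
            rw [h6] at this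
            rw [eA'] at h2
            omega
          · rintro a' b' rfl
            have := hW _ _ hy
            rw [h6] at this
            rw [eW'] at h2
            omega
          · rintro j i rfl
            simp only [eff, cap] at h2
            omega
          · rintro i rfl _
            simp only [eff, cap] at h2
            omega
          · rintro i rfl _
            simp only [eff, cap] at h2
            omega
        · simp only [Fin.card_Iic, card_empty]
          omega
      simp only [cap]
      omega
    · have hx' : x = !X a := by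
        cases x <;> cases hXa : X a <;> simp_all
      subst hx'
      have h6 := eA' a b
      rw [h6] at hhub
      have h7 := count_lt_mul a
      have key : T.card ≤ a + 1 := by
        apply SL_self X (P := Iio a) (Q := {a} ×ˢ univ) (V := ∅) (F := ∅) (E := ∅) (N := ∅)
        · exact mem_SL X hs (by intro a' h; simp only [Star.A.injEq] at h
                                obtain ⟨rfl, h, -⟩ := h
                                exact absurd h (hnot _))
            (by rintro a' b' h; simp only [Star.A.injEq] at h; obtain ⟨rfl, -, rfl⟩ := h; simp)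
            (by rintro a' j' ⟨⟩)
            (by rintro i j ⟨⟩) (by rintro i ⟨⟩) (by rintro i ⟨⟩)
        · intro y hy
          obtain ⟨h1, h2, h3, h4, h5⟩ := hT y hy
          rw [h6] at h2 h3
          refine ⟨mem_SL X h1 ?_ ?_ ?_ ?_ ?_ ?_, h5⟩
          · rintro a' rfl
            rw [eA] at h2
            rw [mem_Iio, Fin.lt_def]; omega
          · rintro a' b' rfl
            have := hA _ _ hy
            rw [h6] at this
            rw [eA'] at h2
            simp only [mem_product, mem_singleton, mem_univ, and_true]
            exact Fin.ext (by omega)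
          · rintro a' b' rfl
            have := hW _ _ hy
            rw [h6] at this
            rw [eW'] at h2 h3
            have h8 := h3 (by omega)
            have h9 := num_lt (.W a' (!X a') b' : Star t q)
            simp only [rr, if_neg (hnot a)] at h8
            omega
          · rintro j i rfl
            simp only [eff, cap] at h2
            omega
          · rintro i rfl _
            simp only [eff, cap] at h2
            omega
          · rintro i rfl _
            simp only [eff, cap] at h2
            omega
        · simp only [Fin.card_Iio, card_empty, card_product, card_singleton, card_univ,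
            Fintype.card_bool]
          omega
      simp only [cap]
      omega
  | W a x j =>
    have ha := a.2
    have hx' : x = !X a := by
      simp only [exSide, decide_eq_false_iff_not] at hs
      cases x <;> cases hXa : X a <;> simp_all
    subst hx'
    have h6 := eW' a j
    rw [h6] at hhub
    have h7 := count_lt_mul a
    have key : T.card ≤ a + 1 + q := by
      apply SL_self X (P := Iio a) (Q := {a} ×ˢ univ) (V := {a} ×ˢ univ) (F := ∅) (E := ∅) (N := ∅)
      · exact mem_SL X hs (by rintro a' ⟨⟩)
          (by rintro a' b' ⟨⟩)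
          (by rintro a' b' h; simp only [Star.W.injEq] at h; obtain ⟨rfl, -, rfl⟩ := h; simp)
          (by rintro i j ⟨⟩) (by rintro i ⟨⟩) (by rintro i ⟨⟩)
      · intro y hy
        obtain ⟨h1, h2, h3, h4, h5⟩ := hT y hy
        rw [h6] at h2 h3
        refine ⟨mem_SL X h1 ?_ ?_ ?_ ?_ ?_ ?_, h5⟩
        · rintro a' rfl
          rw [eA] at h2
          rw [mem_Iio, Fin.lt_def]; omega
        · rintro a' b' rfl
          have := hA _ _ hy
          rw [h6] at this
          rw [eA'] at h2
          simp only [mem_product, mem_singleton, mem_univ, and_true]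
          exact Fin.ext (by omega)
        · rintro a' b' rfl
          have := hW _ _ hy
          rw [h6] at this
          rw [eW'] at h2
          simp only [mem_product, mem_singleton, mem_univ, and_true]
          exact Fin.ext (by omega)
        · rintro j i rfl
          simp only [eff, cap] at h2
          omega
        · rintro i rfl _
          simp only [eff, cap] at h2
          omega
        · rintro i rfl _
          simp only [eff, cap] at h2
          omega
      · simp only [Fin.card_Iio, card_empty, card_product, card_singleton, card_univ,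
          Fintype.card_bool, Fintype.card_fin]
        omega
    simp only [cap]
    omega
  | F j i =>
    have hj : t * (j : ℕ) + t ≤ t * q := by
      calc t * (j : ℕ) + t = t * (j + 1) := by ring
        _ ≤ t * q := Nat.mul_le_mul_left _ j.2
    have h6 : eff sat X (.F j i : Star t q) = 3 * t + q + t * j := rfl
    have key : T.card ≤ t + t * (j + 1) + q := by
      apply SL_self X (P := univ) (Q := ∅) (V := ∅) (F := Iic j ×ˢ univ)
        (E := univ.filter fun i : Fin (2 * q + 3) => q + 2 ≤ (i : ℕ)) (N := ∅)
      · exact mem_SL X hs (by rintro a' ⟨⟩) (by rintro a' b' ⟨⟩) (by rintro a' j' ⟨⟩)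
          (by rintro j' i' h; simp only [Star.F.injEq] at h; obtain ⟨rfl, rfl⟩ := h; simp)
          (by rintro i ⟨⟩) (by rintro i ⟨⟩)
      · intro y hy
        obtain ⟨h1, h2, h3, h4, h5⟩ := hT y hy
        rw [h6] at h2
        refine ⟨mem_SL X h1 (by simp) ?_ ?_ ?_ ?_ ?_, h5⟩
        · rintro a' b' rfl
          have := hA _ _ hy
          rw [h6] at this
          have := a'.2
          omega
        · rintro a' b' rfl
          have := hW _ _ hy
          rw [h6] at this
          have := a'.2
          omega
        · rintro j' i' rfl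
          simp only [eff, cap] at h2
          simp only [mem_product, mem_univ, and_true, mem_Iic]
          by_contra hjj
          push Not at hjj
          have h8 : (j : ℕ) + 1 ≤ j' := hjj
          have h9 := Nat.mul_le_mul_left t h8
          rw [Nat.mul_add, Nat.mul_one] at h9
          omega
        · rintro i rfl h
          simp [h]
        · rintro i rfl _
          simp only [eff, cap] at h2
          omega
      · simp only [Fin.card_Iic, card_empty, card_product, card_univ, Fintype.card_fin]
        have : ((j : ℕ) + 1) * t = t * (j + 1) := by ring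
        omega
    simp only [cap]
    have : t * ((j : ℕ) + 1) = t * j + t := by ring
    omega
  | E i =>
    have h6 : eff sat X (.E i : Star t q) = 3 * t + q := rfl
    have hcq := card_lt_le q 1
    have key : T.card ≤ t + t + q := by
      apply SL_self X (P := univ) (Q := ∅) (V := ∅)
        (F := (univ.filter fun j : Fin q => (j : ℕ) < 1) ×ˢ univ)
        (E := univ.filter fun i : Fin (2 * q + 3) => q + 2 ≤ (i : ℕ)) (N := ∅)
      · exact mem_SL X hs (by rintro a' ⟨⟩) (by rintro a' b' ⟨⟩) (by rintro a' j' ⟨⟩)
          (by rintro j' i' ⟨⟩) (by rintro i' h hh; simp [hh]) (by rintro i ⟨⟩)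
      · intro y hy
        obtain ⟨h1, h2, h3, h4, h5⟩ := hT y hy
        rw [h6] at h2
        refine ⟨mem_SL X h1 (by simp) ?_ ?_ ?_ ?_ ?_, h5⟩
        · rintro a' b' rfl
          have := hA _ _ hy
          rw [h6] at this
          have := a'.2
          omega
        · rintro a' b' rfl
          have := hW _ _ hy
          rw [h6] at this
          have := a'.2
          omega
        · rintro j' i' rfl
          simp only [eff, cap] at h2
          simp only [mem_product, mem_univ, and_true, mem_filter, true_and]
          by_contra hjj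
          push Not at hjj
          have h9 := Nat.mul_le_mul_left t hjj
          rw [Nat.mul_one] at h9
          omega
        · rintro i rfl h
          simp [h]
        · rintro i rfl _
          simp only [eff, cap] at h2
          omega
      · simp only [card_empty, card_product, card_univ, Fintype.card_fin]
        have := Nat.mul_le_mul_right t hcq
        omega
    simp only [cap]
    omega
  | M i =>
    have hcardM := card_ge_le (4 * R0 t q) (2 * R0 t q)
    have h6 : eff sat X (.M i : Star t q) = 3 * R0 t q := rfl
    have key : T.card ≤ t + (q * t + (q + 2 * R0 t q)) := by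
      apply SL_self X (P := univ) (Q := ∅) (V := ∅) (F := univ)
        (E := univ.filter fun i : Fin (2 * q + 3) => q + 2 ≤ (i : ℕ))
        (N := univ.filter fun i : Fin (4 * R0 t q) => 2 * R0 t q ≤ (i : ℕ))
      · exact mem_SL X hs (by rintro a' ⟨⟩) (by rintro a' b' ⟨⟩) (by rintro a' j' ⟨⟩)
          (by rintro j' i' ⟨⟩) (by rintro i' ⟨⟩) (by rintro i' h hh; simp [hh])
      · intro y hy
        obtain ⟨h1, h2, h3, h4, h5⟩ := hT y hy
        rw [h6] at h2
        refine ⟨mem_SL X h1 (by simp) ?_ ?_ (by simp) ?_ ?_, h5⟩
        · rintro a' b' rfl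
          have := hA _ _ hy
          rw [h6] at this
          have := a'.2
          omega
        · rintro a' b' rfl
          have := hW _ _ hy
          rw [h6] at this
          have := a'.2
          omega
        · rintro i rfl h
          simp [h]
        · rintro i rfl h
          simp [h]
      · simp only [card_empty, card_univ, Fintype.card_fin, Fintype.card_prod]
        omega
    simp only [cap]
    have : q * t = t * q := Nat.mul_comm _ _
    omega

lemma exρ_cases (s : Star t q) : (∃ a b, s = .A a (X a) b ∧ b = true ∧ exρ X s = a + 1) ∨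
    exρ X s = t + 1 + num s := by
  cases s with
  | A a x b =>
    by_cases h : x = X a ∧ b = true
    · left
      exact ⟨a, b, by rw [h.1], h.2, by simp only [exρ]; rw [if_pos h]⟩
    · right
      simp only [exρ]
      rw [if_neg h]
  | D a => right; rfl
  | W a x j => right; rfl
  | F j i => right; rfl
  | E i => right; rfl
  | M i => right; rfl

lemma exρ_le (s : Star t q) : exρ X s ≤ t + 7 * R0 t q := by
  have h1 := num_lt s
  rcases exρ_cases X s with ⟨a, b, -, -, h⟩ | h
  · have := a.2; omega
  · omega

/-- CHUNK SE1. The other conditions. (`exm s = c * NN + r` with `1 ≤ r < NN` and `r` injective in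
`s`; `exhm p` is a multiple of `NN`; `exρ s ≤ t + 7 R0 < k - 1 - a`.) -/
theorem exists_comb (ht : 1 ≤ t) (hq : 1 ≤ q) (hX : ∀ j, ∃ a, sat a (X a) j = true) :
    Nonempty (Comb t q sat) := by
  have hR : R0 t q = 2 * t + t * q + q + 2 := rfl
  have hk : kk t q = 20 * R0 t q := rfl
  have hN : NN t q = 14 * R0 t q + 2 := rfl
  refine ⟨{
    side := exSide X
    ρ := exρ X
    m := exm sat X
    hside := exhside X
    hρ := exhρ q
    hm := exhm X q
    ρ_pos := ?_
    ρ_lt := ?_
    hρ_pos := ?_
    hρ_lt := ?_
    ρ_inj := ?_
    hρ_inj := ?_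
    ρ_ne := ?_
    m_pos := ?_
    m_inj := ?_
    m_ne := ?_
    child := ?_
    special := ?_
    special_card := ?_
    pass_le := ?_ }⟩
  · intro s
    rcases exρ_cases X s with ⟨a, b, -, -, h⟩ | h <;> omega
  · intro s
    have := exρ_le X s
    omega
  · intro p
    have := p.1.2
    unfold exhρ
    omega
  · intro p
    unfold exhρ
    omega
  · intro s s' _ h
    rcases exρ_cases X s with ⟨a, b, h1, h2, h3⟩ | h1 <;>
      rcases exρ_cases X s' with ⟨a', b', h1', h2', h3'⟩ | h1'
    · have : a = a' := Fin.ext (by omega)
      subst this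
      rw [h1, h1', h2, h2']
    · have := a.2; omega
    · have := a'.2; omega
    · exact num_inj (by omega)
  · rintro ⟨a, x⟩ ⟨a', x'⟩ h1 h2
    have h3 := a.2
    have h4 := a'.2
    simp only [exhρ] at h2
    have : a = a' := Fin.ext (by omega)
    subst this
    simp only [exhside, decide_eq_decide] at h1
    have : x = x' := by
      cases x <;> cases x' <;> cases hXa : X a <;> simp_all
    rw [this]
  · intro s p _ h
    have h1 := exρ_le X s
    have := p.1.2
    simp only [exhρ] at h
    omega
  · exact exm_pos sat X
  · intro s s' _ h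
    rw [exm_eq, exm_eq] at h
    have h3 := rr_le X s
    have h4 := rr_le X s'
    apply rr_inj X
    have e : ∀ c r, r < NN t q → (c * NN t q + r) % NN t q = r := by
      intro c r hr
      rw [Nat.add_comm, Nat.add_mul_mod_self_right, Nat.mod_eq_of_lt hr]
    rw [← e _ _ (show rr X s < NN t q by omega), h, e _ _ (by omega)]
  · intro s p _ h
    rw [exm_eq] at h
    have h3 := rr_le X s
    have h4 := rr_pos X s
    have e : ∀ c r, r < NN t q → (c * NN t q + r) % NN t q = r := by
      intro c r hr
      rw [Nat.add_comm, Nat.add_mul_mod_self_right, Nat.mod_eq_of_lt hr]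
    have e1 : exhm X q p % NN t q = 0 := by
      unfold exhm
      split_ifs
      · simp
      · exact Nat.mul_mod_left _ _
    rw [← h, e _ _ (by omega)] at e1
    omega
  · rintro s ⟨a, x⟩ hh hsd
    have h1 := exρ_le X s
    have h2 := a.2
    have h3 := exm_pos sat X s
    refine ⟨?_, by simp only [exhρ]; omega⟩
    simp only [exhm]
    split_ifs with hx
    · omega
    · have h4 := rr_pos X s
      rw [exm_eq]
      have he : eff sat X s = 2 * a := by
        cases s with
        | A a' x' b => 
          simp only [hubOf, Option.some.injEq, Prod.mk.injEq] at hh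
          obtain ⟨rfl, rfl⟩ := hh
          simp only [eff]; rw [if_neg hx]
        | W a' x' j =>
          simp only [hubOf, Option.some.injEq, Prod.mk.injEq] at hh
          obtain ⟨rfl, rfl⟩ := hh
          simp only [eff]; rw [if_neg hx]
        | D a => simp [hubOf] at hh
        | F j i => simp [hubOf] at hh
        | E i => simp [hubOf] at hh
        | M i => simp [hubOf] at hh
      rw [he]
      omega
  · rintro s ⟨a, x⟩ hh hsd
    cases s with
    | A a' x' b =>
      simp only [hubOf, Option.some.injEq, Prod.mk.injEq] at hh
      obtain ⟨rfl, rfl⟩ := hh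
      simp only [exSide, exhside] at hsd
      have h2 := a'.2
      by_cases hx : x' = X a'
      · have hb : b = true := by
          cases b
          · simp [hx] at hsd
          · rfl
        subst hx hb
        refine ⟨by simp [exhm], ?_⟩
        have e : exρ X (.A a' (X a') true : Star t q) = a' + 1 := by simp [exρ]
        rw [e]
        simp only [exhρ]
        omega
      · simp [hx] at hsd
    | W a' x' j =>
      simp only [hubOf, Option.some.injEq, Prod.mk.injEq] at hh
      obtain ⟨rfl, rfl⟩ := hh
      simp only [exSide, exhside] at hsd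
      exact absurd rfl hsd
    | D a => simp [hubOf] at hh
    | F j i => simp [hubOf] at hh
    | E i => simp [hubOf] at hh
    | M i => simp [hubOf] at hh
  · have h : (univ.filter fun s : Star t q => ∃ p, hubOf s = some p ∧ exSide X s ≠ exhside X p) ⊆
        (univ : Finset (Fin t)).image (fun a => (.A a (X a) true : Star t q)) := by
      intro s hs
      simp only [mem_filter, mem_univ, true_and] at hs
      obtain ⟨⟨a, x⟩, hh, hsd⟩ := hs
      simp only [mem_image, mem_univ, true_and]
      cases s with
      | A a' x' b =>
        simp only [hubOf, Option.some.injEq, Prod.mk.injEq] at hh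
        obtain ⟨rfl, rfl⟩ := hh
        simp only [exSide, exhside] at hsd
        by_cases hx : x' = X a'
        · have hb : b = true := by
            cases b
            · simp [hx] at hsd
            · rfl
          exact ⟨a', by rw [hx, hb]⟩
        · simp [hx] at hsd
      | W a' x' j =>
        simp only [hubOf, Option.some.injEq, Prod.mk.injEq] at hh
        obtain ⟨rfl, rfl⟩ := hh
        simp only [exSide, exhside] at hsd
        exact absurd rfl hsd
      | D a => simp [hubOf] at hh
      | F j i => simp [hubOf] at hh
      | E i => simp [hubOf] at hh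
      | M i => simp [hubOf] at hh
    refine (card_le_card h).trans ?_
    refine card_image_le.trans ?_
    simp
  · intro s
    cases hs : exSide X s with
    | true => have h := exPass_right sat X ht hX s hs; rw [hs] at h; exact h
    | false => have h := exPass_left sat X ht s hs; rw [hs] at h; exact h

/-- a satisfying assignment gives a placement -/
theorem sufficiency (ht : 1 ≤ t) (hq : 1 ≤ q) (hX : ∀ j, ∃ a, sat a (X a) j = true) :
    Nonempty (RPl (par sat) (kk t q)) := by
  obtain ⟨C⟩ := exists_comb sat X ht hq hX
  exact C.rpl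

end Pool.Agent.Lib.TopBw
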