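import Mathlib
import Pool.Agent.Lib.OOD.Encode

/-!
# Topological bandwidth: definitions

* `refinement G ℓ`: the graph `G` with the edge `e` subdivided `ℓ e` times
* `bandwidth G`: the bandwidth of a finite graph
* `topBandwidth G`: the topological bandwidth, the least bandwidth of a refinement
-/

set_option autoImplicit false

namespace Pool.Agent.Lib.TopBw

open Pool.Agent.Lib.CookLevin Pool.Agent.OOD

/-- The edges `{i, j}`, `i < j`, of a graph on the vertex set `Fin n`. -/
abbrev EdgeOf {n : ℕ} (G : SimpleGraph (Fin n)) : Type :=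
  {p : Fin n × Fin n // p.1 < p.2 ∧ G.Adj p.1 p.2}

/-- The vertices of the refinement of `G` in which each edge `e` is subdivided `ℓ e` times: the
vertices of `G`, and `ℓ e` new vertices for each edge `e`. -/
abbrev RefVert {n : ℕ} (G : SimpleGraph (Fin n)) (ℓ : EdgeOf G → ℕ) : Type :=
  Fin n ⊕ (Σ e : EdgeOf G, Fin (ℓ e))

/-- The vertex number `s` of the path which replaces the edge `e = {i, j}`, `i < j`: this is `i` for
`s = 0`, the new vertices of `e` for `s = 1, …, ℓ e`, and `j` for `s = ℓ e + 1`. -/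
def pathVert {n : ℕ} (G : SimpleGraph (Fin n)) (ℓ : EdgeOf G → ℕ) (e : EdgeOf G) (s : ℕ) :
    RefVert G ℓ :=
  if s = 0 then Sum.inl e.1.1
  else if h : s - 1 < ℓ e then Sum.inr ⟨e, ⟨s - 1, h⟩⟩
  else Sum.inl e.1.2

/-- The refinement of `G` in which each edge `e` is subdivided `ℓ e` times, that is, replaced by a
path with `ℓ e` new inner vertices (for `ℓ e = 0` the edge is kept). -/
def refinement {n : ℕ} (G : SimpleGraph (Fin n)) (ℓ : EdgeOf G → ℕ) :
    SimpleGraph (RefVert G ℓ) :=
  SimpleGraph.fromRel fun x y =>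
    ∃ (e : EdgeOf G) (s : ℕ), s ≤ ℓ e ∧ x = pathVert G ℓ e s ∧ y = pathVert G ℓ e (s + 1)

/-- The finite graph `G` has a numbering `π` (a bijection onto `{0, …, |V| - 1}`) with
`|π u - π v| ≤ b` for all edges `uv`. -/
def HasBandwidthLE {V : Type*} (G : SimpleGraph V) (b : ℕ) : Prop :=
  ∃ π : V ≃ Fin (Nat.card V), ∀ u v, G.Adj u v → |((π u : ℕ) : ℤ) - ((π v : ℕ) : ℤ)| ≤ b

/-- The bandwidth `b(G)` of a finite graph: the minimum over all numberings of the largest
difference of the numbers of two adjacent vertices. -/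
noncomputable def bandwidth {V : Type*} (G : SimpleGraph V) : ℕ := sInf {b | HasBandwidthLE G b}

/-- The topological bandwidth `b*(G)`: the minimum of the bandwidths of the refinements of `G`. -/
noncomputable def topBandwidth {n : ℕ} (G : SimpleGraph (Fin n)) : ℕ :=
  sInf {b | ∃ ℓ : EdgeOf G → ℕ, b = bandwidth (refinement G ℓ)}

/-- An instance: a graph and a number. -/
abbrev Inst : Type := (Σ n : ℕ, SimpleGraph (Fin n)) × ℕ

/-- The string of an instance `(G, k)`: `k` in unary, a `0`, and the string of `G` (the number of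
vertices in unary, a `0`, and the adjacency matrix). -/
noncomputable def encodeInst (I : Inst) : Word :=
  List.replicate I.2 true ++ false :: encodeGraph I.1

/-- TOPBW-TREE: the strings of the pairs `(T, k)` with `T` a tree, `k ≥ 1` and `b*(T) ≤ k`. -/
def TopBwTree (w : Word) : Prop :=
  ∃ I : Inst, w = encodeInst I ∧ I.1.2.IsTree ∧ 1 ≤ I.2 ∧ topBandwidth I.1.2 ≤ I.2

end Pool.Agent.Lib.TopBw
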