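import Pool.Agent.Lib.TopBw.Tree
import Pool.Agent.Lib.OOD.GraphPT
import Pool.Agent.Lib.CookLevin.TMLocal

/-!
# The tree as a list of names, computed in polynomial time (chunk RD2)

Names of the vertices: `((kind, i, j, x, b), l)`; `l = 0`: root, hub or centre of a star, `l = i + 1`:
the leaf number `i` of the root or of the star.
-/

set_option autoImplicit false

namespace Pool.Agent.Lib.TopBw

open Pool.Agent.PolyTime Pool.Agent.Lib.CookLevin Pool.Agent.OOD

/-! ### Numbers which are lengths of lists -/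

section PL

variable {α : Type*} [Enc α]

/-- the number `n a` is the length of a list computed in polynomial time -/
def PL (n : α → ℕ) : Prop := ∃ l : α → List Unit, PT l ∧ ∀ a, (l a).length = n a

lemma PL.length {β : Type*} [Enc β] {l : α → List β} (hl : PT l) : PL fun a => (l a).length :=
  ⟨fun a => (l a).map fun _ => (), PT.map (f := fun (_ : α) (_ : β) => ()) (PT.const ()) hl,
    fun a => by simp⟩

lemma PL.const (n : ℕ) : PL fun _ : α => n :=
  ⟨fun _ => List.replicate n (), PT.const _, fun a => by simp⟩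

lemma PL.add {m n : α → ℕ} (hm : PL m) (hn : PL n) : PL fun a => m a + n a := by
  obtain ⟨l, hl, hl'⟩ := hm
  obtain ⟨k, hk, hk'⟩ := hn
  exact ⟨fun a => l a ++ k a, PT.append hl hk, fun a => by simp [hl', hk']⟩

lemma PL.mul {m n : α → ℕ} (hm : PL m) (hn : PL n) : PL fun a => m a * n a := by
  obtain ⟨l, hl, hl'⟩ := hm
  obtain ⟨k, hk, hk'⟩ := hn
  have h := PL.length (PT.product hl hk)
  refine (congrArg PL (funext fun a => ?_)).mp h
  show ((l a) ×ˢ (k a)).length = _
  rw [List.length_product, hl', hk']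

lemma PL.range {n : α → ℕ} (hn : PL n) : PT fun a => List.range (n a) := by
  obtain ⟨l, hl, hl'⟩ := hn
  exact (PT.rangeLength hl).congr fun a => by rw [hl']

lemma PL.replicate {β : Type*} [Enc β] {n : α → ℕ} (hn : PL n) (b : β) :
    PT fun a => List.replicate (n a) b := by
  have h := PT.map (f := fun (_ : α) (_ : ℕ) => b) (PT.const b) hn.range
  refine h.congr fun a => ?_
  rw [List.map_const', List.length_range]

end PL

/-! ### Names -/

/-- codes of the root, the hubs and the stars -/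
abbrev Cd : Type := ℕ × ℕ × ℕ × Bool × Bool

/-- names of vertices -/
abbrev Nm : Type := Cd × ℕ

/-- code of a star -/
def codeS {t q : ℕ} : Star t q → Cd
  | .D a => (2, a, 0, false, false)
  | .A a x b => (3, a, 0, x, b)
  | .W a x j => (4, a, j, x, false)
  | .F j i => (5, j, i, false, false)
  | .E i => (6, i, 0, false, false)
  | .M i => (7, i, 0, false, false)

/-- code of the root -/
def codeR : Cd := (0, 0, 0, false, false)

/-- name of a vertex -/
def nm {t q : ℕ} {sat : Fin t → Bool → Fin q → Bool} : Vtx t q sat → Nm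
  | .root => (codeR, 0)
  | .hub a x => ((1, a, 0, x, false), 0)
  | .star s => (codeS s, 0)
  | .rleaf i => (codeR, i + 1)
  | .sleaf s i => (codeS s, i + 1)

lemma codeS_kind {t q : ℕ} (s : Star t q) : 2 ≤ (codeS s).1 := by
  cases s <;> simp [codeS]

lemma codeS_inj {t q : ℕ} {s s' : Star t q} (h : codeS s = codeS s') : s = s' := by
  cases s <;> cases s' <;> simp [codeS, Fin.ext_iff] at h ⊢ <;> tauto

lemma codeS_ne_codeR {t q : ℕ} (s : Star t q) : codeS s ≠ codeR := by
  intro h
  have := codeS_kind s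
  rw [h] at this
  simp [codeR] at this

lemma codeS_ne_hub {t q : ℕ} (s : Star t q) {a b : ℕ} {x y : Bool} : codeS s ≠ (1, a, b, x, y) := by
  intro h
  have := codeS_kind s
  rw [h] at this
  simp at this

lemma nm_inj {t q : ℕ} {sat : Fin t → Bool → Fin q → Bool} {u v : Vtx t q sat}
    (h : nm u = nm v) : u = v := by
  have e1 : ∀ s : Star t q, ∀ i : ℕ, (codeR, i) ≠ (codeS s, (0 : ℕ)) := fun s i h =>
    codeS_ne_codeR s (congrArg Prod.fst h).symm
  cases u with
  | root =>
    cases v with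
    | root => rfl
    | hub a x => simp [nm, codeR] at h
    | star s => exact absurd (congrArg Prod.fst h).symm (codeS_ne_codeR s)
    | rleaf i => simp [nm] at h
    | sleaf s i => simp [nm] at h
  | hub a x =>
    cases v with
    | root => simp [nm, codeR] at h
    | hub a' x' =>
      simp [nm] at h
      obtain ⟨h1, rfl⟩ := h
      have : a = a' := Fin.ext h1
      rw [this]
    | star s => exact absurd (congrArg Prod.fst h).symm (codeS_ne_hub s)
    | rleaf i => simp [nm] at h
    | sleaf s i => simp [nm] at h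
  | star s =>
    cases v with
    | root => exact absurd (congrArg Prod.fst h) (codeS_ne_codeR s)
    | hub a x => exact absurd (congrArg Prod.fst h) (codeS_ne_hub s)
    | star s' => rw [codeS_inj (congrArg Prod.fst h)]
    | rleaf i => simp [nm] at h
    | sleaf s i => simp [nm] at h
  | rleaf i =>
    cases v with
    | root => simp [nm] at h
    | hub a x => simp [nm] at h
    | star s => simp [nm] at h
    | rleaf i' =>
      have h1 : (i : ℕ) + 1 = i' + 1 := congrArg Prod.snd h
      have : i = i' := Fin.ext (by omega)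
      rw [this]
    | sleaf s i' => exact absurd (congrArg Prod.fst h).symm (codeS_ne_codeR s)
  | sleaf s i =>
    cases v with
    | root => simp [nm] at h
    | hub a x => simp [nm] at h
    | star s => simp [nm] at h
    | rleaf i' => exact absurd (congrArg Prod.fst h) (codeS_ne_codeR s)
    | sleaf s' i' =>
      have h0 := codeS_inj (congrArg Prod.fst h)
      subst h0
      have h1 : (i : ℕ) + 1 = i' + 1 := congrArg Prod.snd h
      have : i = i' := Fin.ext (by omega)
      rw [this]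

/-- code of the parent of a star -/
def parC (c : Cd) : Cd := if c.1 = 3 ∨ c.1 = 4 then (1, c.2.1, 0, c.2.2.2.1, false) else codeR

/-- name of the parent -/
def parN (n : Nm) : Nm := if n.2 = 0 then (parC n.1, 0) else (n.1, 0)

lemma parN_nm {t q : ℕ} {sat : Fin t → Bool → Fin q → Bool} {u v : Vtx t q sat}
    (h : par sat u = some v) : parN (nm u) = nm v := by
  cases u with
  | root => simp [par] at h
  | hub a x =>
    simp only [par, Option.some.injEq] at h
    subst h
    simp [parN, nm, parC]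
  | star s =>
    simp only [par, Option.some.injEq] at h
    subst h
    cases s <;> simp [parN, nm, parC, codeS, starPar, hubOf]
  | rleaf i =>
    simp only [par, Option.some.injEq] at h
    subst h
    simp [parN, nm]
  | sleaf s i =>
    simp only [par, Option.some.injEq] at h
    subst h
    simp [parN, nm]

lemma exists_par {t q : ℕ} {sat : Fin t → Bool → Fin q → Bool} {u : Vtx t q sat}
    (h : u ≠ .root) : ∃ v, par sat u = some v := by
  cases u with
  | root => exact absurd rfl h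
  | hub a x => exact ⟨_, rfl⟩
  | star s => exact ⟨_, rfl⟩
  | rleaf i => exact ⟨_, rfl⟩
  | sleaf s i => exact ⟨_, rfl⟩

/-! ### The valid names -/

/-- valid codes of stars -/
def svC (t q : ℕ) (c : Cd) : Prop :=
  (c.1 = 2 ∧ c.2.1 < t ∧ c.2.2.1 = 0 ∧ c.2.2.2.1 = false ∧ c.2.2.2.2 = false) ∨
  (c.1 = 3 ∧ c.2.1 < t ∧ c.2.2.1 = 0) ∨
  (c.1 = 4 ∧ c.2.1 < t ∧ c.2.2.1 < q ∧ c.2.2.2.2 = false) ∨
  (c.1 = 5 ∧ c.2.1 < q ∧ c.2.2.1 < t ∧ c.2.2.2.1 = false ∧ c.2.2.2.2 = false) ∨
  (c.1 = 6 ∧ c.2.1 < 2 * q + 3 ∧ c.2.2.1 = 0 ∧ c.2.2.2.1 = false ∧ c.2.2.2.2 = false) ∨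
  (c.1 = 7 ∧ c.2.1 < 4 * R0 t q ∧ c.2.2.1 = 0 ∧ c.2.2.2.1 = false ∧ c.2.2.2.2 = false)

instance (t q : ℕ) (c : Cd) : Decidable (svC t q c) := by unfold svC; infer_instance

lemma svC_iff {t q : ℕ} {c : Cd} : svC t q c ↔ ∃ s : Star t q, codeS s = c := by
  obtain ⟨k, i, j, x, b⟩ := c
  unfold svC
  simp only
  constructor
  · rintro (⟨rfl, h1, rfl, rfl, rfl⟩ | ⟨rfl, h1, rfl⟩ | ⟨rfl, h1, h2, rfl⟩ | ⟨rfl, h1, h2, rfl, rfl⟩ |
      ⟨rfl, h1, rfl, rfl, rfl⟩ | ⟨rfl, h1, rfl, rfl, rfl⟩)
    · exact ⟨.D ⟨i, h1⟩, rfl⟩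
    · exact ⟨.A ⟨i, h1⟩ x b, rfl⟩
    · exact ⟨.W ⟨i, h1⟩ x ⟨j, h2⟩, rfl⟩
    · exact ⟨.F ⟨i, h1⟩ ⟨j, h2⟩, rfl⟩
    · exact ⟨.E ⟨i, h1⟩, rfl⟩
    · exact ⟨.M ⟨i, h1⟩, rfl⟩
  · rintro ⟨s, hs⟩
    cases s with
    | D a =>
      simp only [codeS, Prod.mk.injEq] at hs
      obtain ⟨rfl, rfl, rfl, rfl, rfl⟩ := hs
      exact Or.inl ⟨rfl, a.2, rfl, rfl, rfl⟩
    | A a x b =>
      simp only [codeS, Prod.mk.injEq] at hs
      obtain ⟨rfl, rfl, rfl, rfl, rfl⟩ := hs
      exact Or.inr (Or.inl ⟨rfl, a.2, rfl⟩)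
    | W a x j =>
      simp only [codeS, Prod.mk.injEq] at hs
      obtain ⟨rfl, rfl, rfl, rfl, rfl⟩ := hs
      exact Or.inr (Or.inr (Or.inl ⟨rfl, a.2, j.2, rfl⟩))
    | F j i =>
      simp only [codeS, Prod.mk.injEq] at hs
      obtain ⟨rfl, rfl, rfl, rfl, rfl⟩ := hs
      exact Or.inr (Or.inr (Or.inr (Or.inl ⟨rfl, j.2, i.2, rfl, rfl⟩)))
    | E i =>
      simp only [codeS, Prod.mk.injEq] at hs
      obtain ⟨rfl, rfl, rfl, rfl, rfl⟩ := hs
      exact Or.inr (Or.inr (Or.inr (Or.inr (Or.inl ⟨rfl, i.2, rfl, rfl, rfl⟩))))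
    | M i =>
      simp only [codeS, Prod.mk.injEq] at hs
      obtain ⟨rfl, rfl, rfl, rfl, rfl⟩ := hs
      exact Or.inr (Or.inr (Or.inr (Or.inr (Or.inr ⟨rfl, i.2, rfl, rfl, rfl⟩))))

/-- the capacity of a star, from its code -/
def capC (t q : ℕ) (satN : ℕ → Bool → ℕ → Bool) (c : Cd) : ℕ :=
  if c.1 = 2 then 2 * c.2.1 else
  if c.1 = 3 then 2 * c.2.1 + 1 else
  if c.1 = 4 then 3 * t + q + t * c.2.2.1 + (if satN c.2.1 c.2.2.2.1 c.2.2.1 = true then 1 else 0) else
  if c.1 = 5 then 3 * t + q + t * c.2.1 else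
  if c.1 = 6 then 3 * t + q else 3 * R0 t q

lemma capC_codeS {t q : ℕ} {sat : Fin t → Bool → Fin q → Bool} {satN : ℕ → Bool → ℕ → Bool}
    (hsat : ∀ a x j, sat a x j = satN a x j) (s : Star t q) : capC t q satN (codeS s) = cap sat s := by
  cases s with
  | W a x j =>
    have h := hsat a x j
    by_cases h2 : satN a x j = true
    · rw [h2] at h
      simp [capC, codeS, cap, h, h2]
    · rw [Bool.not_eq_true] at h2
      rw [h2] at h
      simp [capC, codeS, cap, h, h2]
  | _ => simp [capC, codeS, cap]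

/-- the number of leaves of a star, from its code -/
def lvC (t q : ℕ) (satN : ℕ → Bool → ℕ → Bool) (c : Cd) : ℕ := 2 * kk t q - 2 * capC t q satN c - 1

/-- valid names -/
def svN (t q : ℕ) (satN : ℕ → Bool → ℕ → Bool) (n : Nm) : Prop :=
  (n.1 = codeR ∧ n.2 ≤ rootLeaves t q) ∨
  ((n.1.1 = 1 ∧ n.1.2.1 < t ∧ n.1.2.2.1 = 0 ∧ n.1.2.2.2.2 = false) ∧ n.2 = 0) ∨
  (svC t q n.1 ∧ n.2 ≤ lvC t q satN n.1)

instance (t q : ℕ) (satN : ℕ → Bool → ℕ → Bool) (n : Nm) : Decidable (svN t q satN n) := by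
  unfold svN; infer_instance

lemma svN_iff {t q : ℕ} {sat : Fin t → Bool → Fin q → Bool} {satN : ℕ → Bool → ℕ → Bool}
    (hsat : ∀ a x j, sat a x j = satN a x j) {n : Nm} :
    svN t q satN n ↔ ∃ v : Vtx t q sat, nm v = n := by
  obtain ⟨c, l⟩ := n
  unfold svN
  simp only
  constructor
  · rintro (⟨rfl, h⟩ | ⟨⟨h1, h2, h3, h4⟩, rfl⟩ | ⟨h1, h2⟩)
    · cases l with
      | zero => exact ⟨.root, rfl⟩
      | succ l => exact ⟨.rleaf ⟨l, h⟩, rfl⟩
    · obtain ⟨k, i, j, x, b⟩ := c
      simp only at h1 h2 h3 h4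
      subst h1 h3 h4
      exact ⟨.hub ⟨i, h2⟩ x, rfl⟩
    · obtain ⟨s, rfl⟩ := svC_iff.1 h1
      cases l with
      | zero => exact ⟨.star s, rfl⟩
      | succ l =>
        refine ⟨.sleaf s ⟨l, ?_⟩, rfl⟩
        unfold lvC at h2
        rw [capC_codeS hsat] at h2
        exact h2
  · rintro ⟨v, hv⟩
    cases v with
    | root =>
      obtain ⟨rfl, rfl⟩ := Prod.mk.injEq .. ▸ hv
      exact Or.inl ⟨rfl, Nat.zero_le _⟩
    | hub a x =>
      simp only [nm, Prod.mk.injEq] at hv
      obtain ⟨rfl, rfl⟩ := hv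
      exact Or.inr (Or.inl ⟨⟨rfl, a.2, rfl, rfl⟩, rfl⟩)
    | star s =>
      simp only [nm, Prod.mk.injEq] at hv
      obtain ⟨rfl, rfl⟩ := hv
      exact Or.inr (Or.inr ⟨svC_iff.2 ⟨s, rfl⟩, Nat.zero_le _⟩)
    | rleaf i =>
      simp only [nm, Prod.mk.injEq] at hv
      obtain ⟨rfl, rfl⟩ := hv
      exact Or.inl ⟨rfl, i.2⟩
    | sleaf s i =>
      simp only [nm, Prod.mk.injEq] at hv
      obtain ⟨rfl, rfl⟩ := hv
      refine Or.inr (Or.inr ⟨svC_iff.2 ⟨s, rfl⟩, ?_⟩)
      unfold lvC
      rw [capC_codeS hsat]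
      exact i.2

/-- a list of candidates for the names -/
def cand (t q : ℕ) : List Nm :=
  ((List.range 8) ×ˢ ((List.range (4 * R0 t q + (2 * q + 3))) ×ˢ
    ((List.range (4 * R0 t q + (2 * q + 3))) ×ˢ ([false, true] ×ˢ [false, true])))) ×ˢ
      (List.range (2 * kk t q + 1))

lemma mem_cand {t q : ℕ} {sat : Fin t → Bool → Fin q → Bool} (v : Vtx t q sat) :
    nm v ∈ cand t q := by
  have hb : ∀ x : Bool, x ∈ [false, true] := by decide
  have hR : t ≤ R0 t q ∧ q ≤ R0 t q := by unfold R0; omega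
  have hmem : ∀ (k i j : ℕ) (x b : Bool) (l : ℕ), k < 8 → i < 4 * R0 t q + (2 * q + 3) →
      j < 4 * R0 t q + (2 * q + 3) → l < 2 * kk t q + 1 → ((k, i, j, x, b), l) ∈ cand t q := by
    intro k i j x b l h1 h2 h3 h4
    unfold cand
    simp only [List.mem_product, List.mem_range]
    exact ⟨⟨h1, h2, h3, hb x, hb b⟩, h4⟩
  have hS : ∀ (s : Star t q) (l : ℕ), l < 2 * kk t q + 1 → (codeS s, l) ∈ cand t q := by
    intro s l hl
    cases s with
    | D a => exact hmem _ _ _ _ _ _ (by omega) (by have := a.2; omega) (by omega) hl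
    | A a x b => exact hmem _ _ _ _ _ _ (by omega) (by have := a.2; omega) (by omega) hl
    | W a x j =>
      exact hmem _ _ _ _ _ _ (by omega) (by have := a.2; omega) (by have := j.2; omega) hl
    | F j i =>
      exact hmem _ _ _ _ _ _ (by omega) (by have := j.2; omega) (by have := i.2; omega) hl
    | E i => exact hmem _ _ _ _ _ _ (by omega) (by have := i.2; omega) (by omega) hl
    | M i => exact hmem _ _ _ _ _ _ (by omega) (by have := i.2; omega) (by omega) hl
  cases v with
  | root => exact hmem _ _ _ _ _ _ (by omega) (by omega) (by omega) (by omega)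
  | hub a x => exact hmem _ _ _ _ _ _ (by omega) (by have := a.2; omega) (by omega) (by omega)
  | star s => exact hS s 0 (by omega)
  | rleaf i =>
    refine hmem _ _ _ _ _ _ (by omega) (by omega) (by omega) ?_
    have := i.2
    unfold rootLeaves at this
    omega
  | sleaf s i =>
    refine hS s _ ?_
    have := i.2
    unfold lv at this
    omega

/-- the list of the names -/
def namesL (t q : ℕ) (satN : ℕ → Bool → ℕ → Bool) : List Nm :=
  (cand t q).filter fun n => decide (svN t q satN n)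

lemma mem_namesL {t q : ℕ} {sat : Fin t → Bool → Fin q → Bool} {satN : ℕ → Bool → ℕ → Bool}
    (hsat : ∀ a x j, sat a x j = satN a x j) {n : Nm} :
    n ∈ namesL t q satN ↔ ∃ v : Vtx t q sat, nm v = n := by
  unfold namesL
  rw [List.mem_filter, decide_eq_true_eq, svN_iff hsat]
  constructor
  · exact fun h => h.2
  · rintro ⟨v, rfl⟩
    exact ⟨mem_cand v, v, rfl⟩

lemma nodup_namesL (t q : ℕ) (satN : ℕ → Bool → ℕ → Bool) : (namesL t q satN).Nodup := by
  refine List.Nodup.filter _ ?_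
  unfold cand
  refine List.Nodup.product (List.Nodup.product List.nodup_range (List.Nodup.product
    List.nodup_range (List.Nodup.product List.nodup_range (List.Nodup.product ?_ ?_))))
    List.nodup_range <;> decide

/-- the list of the edges (in both directions) -/
def edgesL (t q : ℕ) (satN : ℕ → Bool → ℕ → Bool) : List (Nm × Nm) :=
  ((namesL t q satN).filter fun n => !decide (n = (codeR, 0))).map (fun n => (n, parN n)) ++
    ((namesL t q satN).filter fun n => !decide (n = (codeR, 0))).map (fun n => (parN n, n))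

lemma adj_iff {t q : ℕ} {sat : Fin t → Bool → Fin q → Bool} {satN : ℕ → Bool → ℕ → Bool}
    (hsat : ∀ a x j, sat a x j = satN a x j) (u v : Vtx t q sat) :
    (parGraph (par sat)).Adj u v ↔ (nm u, nm v) ∈ edgesL t q satN := by
  have h1 : ∀ u v : Vtx t q sat, par sat u = some v ↔
      nm u ∈ (namesL t q satN).filter (fun n => !decide (n = (codeR, 0))) ∧ parN (nm u) = nm v := by
    intro u v
    constructor
    · intro h
      refine ⟨List.mem_filter.2 ⟨(mem_namesL hsat).2 ⟨u, rfl⟩, ?_⟩, parN_nm h⟩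
      have hu : nm u ≠ (codeR, 0) := by
        intro h2
        have h3 : u = .root := nm_inj (h2.trans rfl)
        subst h3
        simp [par] at h
      simp [hu]
    · rintro ⟨h2, h3⟩
      have hu : u ≠ .root := by
        intro h4
        subst h4
        have := (List.mem_filter.1 h2).2
        simp [nm] at this
      obtain ⟨w, hw⟩ := exists_par hu
      have h4 := parN_nm hw
      rw [h3] at h4
      rw [nm_inj h4]
      exact hw
  unfold parGraph
  rw [SimpleGraph.fromRel_adj]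
  unfold edgesL
  rw [List.mem_append, List.mem_map, List.mem_map]
  constructor
  · rintro ⟨-, h | h⟩
    · obtain ⟨h2, h3⟩ := (h1 u v).1 h
      exact Or.inl ⟨nm u, h2, by rw [h3]⟩
    · obtain ⟨h2, h3⟩ := (h1 v u).1 h
      exact Or.inr ⟨nm v, h2, by rw [h3]⟩
  · rintro (⟨n, hn, h⟩ | ⟨n, hn, h⟩)
    · rw [Prod.mk.injEq] at h
      obtain ⟨rfl, h⟩ := h
      have h2 := (h1 u v).2 ⟨hn, h⟩
      exact ⟨(par_ne h2).1, Or.inl h2⟩
    · rw [Prod.mk.injEq] at h
      obtain ⟨h, rfl⟩ := h
      have h2 := (h1 v u).2 ⟨hn, h⟩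
      exact ⟨(par_ne h2).1.symm, Or.inr h2⟩

/-! ### Polynomial time -/

section PT

variable {α : Type*} [Enc α]

lemma PT_R0 {t q : α → ℕ} (ht : PT t) (hq : PT q) : PT fun a => R0 (t a) (q a) := by
  unfold R0; fun_prop

lemma PT_kk {t q : α → ℕ} (ht : PT t) (hq : PT q) : PT fun a => kk (t a) (q a) := by
  have := PT_R0 ht hq
  unfold kk; fun_prop

lemma PL_R0 {t q : α → ℕ} (ht : PL t) (hq : PL q) : PL fun a => R0 (t a) (q a) := by
  unfold R0
  exact (((PL.const 2).mul ht).add (ht.mul hq)).add hq |>.add (PL.const 2)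

lemma PL_kk {t q : α → ℕ} (ht : PL t) (hq : PL q) : PL fun a => kk (t a) (q a) := by
  unfold kk
  exact (PL.const 20).mul (PL_R0 ht hq)

lemma PT_cand {t q : α → ℕ} (ht : PL t) (hq : PL q) : PT fun a => cand (t a) (q a) := by
  have hR := PL_R0 ht hq
  have hL : PL fun a => 4 * R0 (t a) (q a) + (2 * q a + 3) :=
    ((PL.const 4).mul hR).add (((PL.const 2).mul hq).add (PL.const 3))
  have hK : PL fun a => 2 * kk (t a) (q a) + 1 := ((PL.const 2).mul (PL_kk ht hq)).add (PL.const 1)
  unfold cand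
  exact PT.product (PT.product (PT.const _) (PT.product hL.range (PT.product hL.range
    (PT.const _)))) hK.range

lemma PT_eqb {β : Type*} [Enc β] [EncInj β] [DecidableEq β] {f : α → β} (hf : PT f) (b : β) :
    PT fun a => decide (f a = b) := PT.decide_eq hf (PT.const b)

lemma PT_capC {t q : α → ℕ} (ht : PT t) (hq : PT q) {satN : α → ℕ → Bool → ℕ → Bool}
    (hs : PT fun p : α × ℕ × Bool × ℕ => satN p.1 p.2.1 p.2.2.1 p.2.2.2) {c : α → Cd} (hc : PT c) :
    PT fun a => capC (t a) (q a) (satN a) (c a) := by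
  have hR := PT_R0 ht hq
  have hs' : PT fun a => satN a (c a).2.1 (c a).2.2.2.1 (c a).2.2.1 :=
    PT.comp hs (f := fun a => (a, (c a).2.1, (c a).2.2.2.1, (c a).2.2.1)) (by fun_prop)
  unfold capC
  refine PT.ite (PT_eqb (by fun_prop) 2) (by fun_prop) ?_
  refine PT.ite (PT_eqb (by fun_prop) 3) (by fun_prop) ?_
  refine PT.ite (PT_eqb (by fun_prop) 4) ?_ ?_
  · refine PT.add (by fun_prop) ?_
    exact PT.ite (PT.decide_eq hs' (PT.const true)) (PT.const 1) (PT.const 0)
  refine PT.ite (PT_eqb (by fun_prop) 5) (by fun_prop) ?_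
  refine PT.ite (PT_eqb (by fun_prop) 6) (by fun_prop) (by fun_prop)

lemma PT_lvC {t q : α → ℕ} (ht : PT t) (hq : PT q) {satN : α → ℕ → Bool → ℕ → Bool}
    (hs : PT fun p : α × ℕ × Bool × ℕ => satN p.1 p.2.1 p.2.2.1 p.2.2.2) {c : α → Cd} (hc : PT c) :
    PT fun a => lvC (t a) (q a) (satN a) (c a) := by
  have h1 := PT_capC ht hq hs hc
  have h2 := PT_kk ht hq
  unfold lvC
  fun_prop

lemma PT_rootLeaves {t q : α → ℕ} (ht : PT t) (hq : PT q) :
    PT fun a => rootLeaves (t a) (q a) := by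
  have h1 := PT_R0 ht hq
  have h2 := PT_kk ht hq
  unfold rootLeaves
  fun_prop

lemma PT_svC {t q : α → ℕ} (ht : PT t) (hq : PT q) {c : α → Cd} (hc : PT c) :
    PT fun a => decide (svC (t a) (q a) (c a)) := by
  have h1 := PT_R0 ht hq
  have e : ∀ n, PT fun a => decide ((c a).1 = n) := fun n => PT_eqb (by fun_prop) n
  have ej : PT fun a => decide ((c a).2.2.1 = 0) := PT_eqb (by fun_prop) 0
  have ex : PT fun a => decide ((c a).2.2.2.1 = false) := PT_eqb (by fun_prop) false
  have eb : PT fun a => decide ((c a).2.2.2.2 = false) := PT_eqb (by fun_prop) false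
  have h := PT.decide_or (PT.decide_and (e 2) (PT.decide_and (q := fun a =>
      (c a).2.2.1 = 0 ∧ (c a).2.2.2.1 = false ∧ (c a).2.2.2.2 = false)
      (PT.decide_lt (f := fun a => (c a).2.1) (by fun_prop) ht)
      (PT.decide_and ej (PT.decide_and ex eb))))
    (PT.decide_or (PT.decide_and (e 3) (PT.decide_and
      (PT.decide_lt (f := fun a => (c a).2.1) (by fun_prop) ht) ej))
    (PT.decide_or (PT.decide_and (e 4) (PT.decide_and
      (PT.decide_lt (f := fun a => (c a).2.1) (by fun_prop) ht)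
      (PT.decide_and (PT.decide_lt (f := fun a => (c a).2.2.1) (by fun_prop) hq) eb)))
    (PT.decide_or (PT.decide_and (e 5) (PT.decide_and
      (PT.decide_lt (f := fun a => (c a).2.1) (by fun_prop) hq)
      (PT.decide_and (PT.decide_lt (f := fun a => (c a).2.2.1) (by fun_prop) ht)
        (PT.decide_and ex eb))))
    (PT.decide_or (PT.decide_and (e 6) (PT.decide_and
      (PT.decide_lt (f := fun a => (c a).2.1) (g := fun a => 2 * q a + 3) (by fun_prop)
        (by fun_prop))
      (PT.decide_and ej (PT.decide_and ex eb))))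
    (PT.decide_and (e 7) (PT.decide_and
      (PT.decide_lt (f := fun a => (c a).2.1) (g := fun a => 4 * R0 (t a) (q a)) (by fun_prop)
        (by fun_prop))
      (PT.decide_and ej (PT.decide_and ex eb))))))))
  refine h.congr fun a => ?_
  exact decide_eq_decide.2 Iff.rfl

lemma PT_svN {t q : α → ℕ} (ht : PT t) (hq : PT q) {satN : α → ℕ → Bool → ℕ → Bool}
    (hs : PT fun p : α × ℕ × Bool × ℕ => satN p.1 p.2.1 p.2.2.1 p.2.2.2) {n : α → Nm} (hn : PT n) :
    PT fun a => decide (svN (t a) (q a) (satN a) (n a)) := by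
  have h1 := PT_rootLeaves ht hq
  have h2 := PT_lvC ht hq hs (c := fun a => (n a).1) (by fun_prop)
  have h3 := PT_svC ht hq (c := fun a => (n a).1) (by fun_prop)
  have h := PT.decide_or (PT.decide_and (PT_eqb (f := fun a => (n a).1) (by fun_prop) codeR)
      (PT.decide_le (f := fun a => (n a).2) (by fun_prop) h1))
    (PT.decide_or (PT.decide_and (PT.decide_and (PT_eqb (f := fun a => (n a).1.1) (by fun_prop) 1)
      (PT.decide_and (PT.decide_lt (f := fun a => (n a).1.2.1) (by fun_prop) ht)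
        (PT.decide_and (PT_eqb (f := fun a => (n a).1.2.2.1) (by fun_prop) 0)
          (PT_eqb (f := fun a => (n a).1.2.2.2.2) (by fun_prop) false))))
      (PT_eqb (f := fun a => (n a).2) (by fun_prop) 0))
    (PT.decide_and h3 (PT.decide_le (f := fun a => (n a).2) (by fun_prop) h2)))
  refine h.congr fun a => ?_
  exact decide_eq_decide.2 Iff.rfl

lemma PT_namesL {t q : α → ℕ} (ht : PL t) (hq : PL q) (ht' : PT t) (hq' : PT q)
    {satN : α → ℕ → Bool → ℕ → Bool}
    (hs : PT fun p : α × ℕ × Bool × ℕ => satN p.1 p.2.1 p.2.2.1 p.2.2.2) :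
    PT fun a => namesL (t a) (q a) (satN a) := by
  unfold namesL
  refine PT.filter (f := fun (a : α) (n : Nm) => decide (svN (t a) (q a) (satN a) n)) ?_
    (PT_cand ht hq)
  refine PT_svN (t := fun p : α × Nm => t p.1) (q := fun p : α × Nm => q p.1)
    (satN := fun p : α × Nm => satN p.1) (n := fun p : α × Nm => p.2) (by fun_prop) (by fun_prop)
    ?_ (by fun_prop)
  exact PT.comp hs (f := fun p : (α × Nm) × ℕ × Bool × ℕ => (p.1.1, p.2.1, p.2.2.1, p.2.2.2))
    (by fun_prop)

lemma PT_parN {n : α → Nm} (hn : PT n) : PT fun a => parN (n a) := by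
  unfold parN parC
  refine PT.ite (PT_eqb (by fun_prop) 0) ?_ (by fun_prop)
  refine PT.pair ?_ (PT.const 0)
  exact PT.ite (PT.decide_or (PT_eqb (f := fun a => (n a).1.1) (by fun_prop) 3)
    (PT_eqb (f := fun a => (n a).1.1) (by fun_prop) 4)) (by fun_prop) (PT.const _)

lemma PT_edgesL {t q : α → ℕ} (ht : PL t) (hq : PL q) (ht' : PT t) (hq' : PT q)
    {satN : α → ℕ → Bool → ℕ → Bool}
    (hs : PT fun p : α × ℕ × Bool × ℕ => satN p.1 p.2.1 p.2.2.1 p.2.2.2) :
    PT fun a => edgesL (t a) (q a) (satN a) := by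
  have hN := PT_namesL ht hq ht' hq' hs
  have hF : PT fun a => (namesL (t a) (q a) (satN a)).filter fun n => !decide (n = (codeR, 0)) :=
    PT.filter (f := fun (_ : α) (n : Nm) => !decide (n = (codeR, 0)))
      (PT.not (PT_eqb (f := fun p : α × Nm => p.2) (by fun_prop) _)) hN
  have hp : PT fun p : α × Nm => parN p.2 := PT_parN (n := fun p : α × Nm => p.2) (by fun_prop)
  unfold edgesL
  refine PT.append ?_ ?_
  · exact PT.map (f := fun (_ : α) (n : Nm) => (n, parN n)) (PT.pair (by fun_prop) hp) hF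
  · exact PT.map (f := fun (_ : α) (n : Nm) => (parN n, n)) (PT.pair hp (by fun_prop)) hF

end PT

/-- The instances of the reduction, for data given by lists. -/
theorem exists_inst_gen {α β γ : Type} [Enc α] [Enc β] [Enc γ] (A : α → List β) (B : α → List γ)
    (hA : PT A) (hB : PT B) (satN : α → ℕ → Bool → ℕ → Bool)
    (hs : PT fun p : α × ℕ × Bool × ℕ => satN p.1 p.2.1 p.2.2.1 p.2.2.2)
    (sat : ∀ a, Fin (A a).length → Bool → Fin (B a).length → Bool)
    (hsat : ∀ a i x j, sat a i x j = satN a i x j) :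
    ∃ F : α → Inst, (PT fun a => encodeInst (F a)) ∧
      ∀ a, Nonempty (parGraph (par (sat a)) ≃g (F a).1.2) ∧
        (F a).2 = kk (A a).length (B a).length := by
  classical
  have ht : PL fun a => (A a).length := PL.length hA
  have hq : PL fun a => (B a).length := PL.length hB
  have ht' : PT fun a => (A a).length := PT.length hA
  have hq' : PT fun a => (B a).length := PT.length hB
  have hN := PT_namesL ht hq ht' hq' hs
  have hE := PT_edgesL ht hq ht' hq' hs
  let N : α → List Nm := fun a => namesL (A a).length (B a).length (satN a)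
  have hNn : ∀ a, (N a).Nodup := fun a => nodup_namesL _ _ _
  let e0 : ∀ a, Vtx _ _ (sat a) ≃ {n // n ∈ N a} := fun a =>
    Equiv.ofBijective (fun v => ⟨nm v, (mem_namesL (hsat a)).2 ⟨v, rfl⟩⟩)
      ⟨fun u v h => nm_inj (congrArg Subtype.val h), fun n => by
        obtain ⟨v, hv⟩ := (mem_namesL (hsat a)).1 n.2
        exact ⟨v, Subtype.ext hv⟩⟩
  let e : ∀ a, Fin (N a).length ≃ Vtx _ _ (sat a) := fun a =>
    ((hNn a).getEquiv (N a)).trans (e0 a).symm
  have he : ∀ a (i : Fin (N a).length), nm (e a i) = (N a)[i] := by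
    intro a i
    have h1 : (e0 a) (e a i) = (hNn a).getEquiv (N a) i := by
      simp [e]
    have h2 := congrArg Subtype.val h1
    exact h2
  let G : ∀ a, SimpleGraph (Fin (N a).length) := fun a => (parGraph (par (sat a))).comap (e a)
  have hG : ∀ a u v, (G a).Adj u v ↔ ((N a)[u], (N a)[v]) ∈
      edgesL (A a).length (B a).length (satN a) := by
    intro a u v
    rw [← he, ← he, ← adj_iff (hsat a)]
    exact Iff.rfl
  refine ⟨fun a => (⟨(N a).length, G a⟩, kk (A a).length (B a).length), ?_, fun a => ⟨⟨?_⟩, rfl⟩⟩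
  · have h1 := PT_encodeGraph (N := N) hN hE G hG
    have h2 := (PL_kk ht hq).replicate true
    exact PT.append h2 (PT.cons (PT.const false) h1)
  · exact (SimpleGraph.Iso.comap (e a) (parGraph (par (sat a)))).symm

end Pool.Agent.Lib.TopBw
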