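import Pool.Agent.Lib.TopBw.RedVars
import Pool.Agent.Lib.TopBw.RedTree

/-!
# The reduction
-/

set_option autoImplicit false

namespace Pool.Agent.Lib.TopBw

open Pool.Agent.PolyTime Pool.Agent.Lib.CookLevin Pool.Agent.OOD

/-- CHUNK RD2. The instance is computed in polynomial time, and its graph is (isomorphic to) the tree.

Plan. Names of the vertices: `(ℕ × ℕ × ℕ × ℕ) × ℕ`: root `((0,0,0,0),0)`, hub `((1,a,x,0),0)`, centre of
a star `(c, 0)` with the code `c` of the star: `D a ↦ (2,a,0,0)`, `A a x b ↦ (3,a,x,b)`,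
`W a x j ↦ (4,a,x,j)`, `F j i ↦ (5,j,i,0)`, `E i ↦ (6,i,0,0)`, `M i ↦ (7,i,0,0)`; the leaf number `i` of
the root `((0,0,0,0), i + 1)`, the leaf number `i` of the star `c`: `(c, i + 1)`.
List of star codes by `product`, `map`, `append` of `rangeLength` of lists (a list of length `R0` is
`vars ++ vars ++ (vars ×ˢ norm) ++ norm ++ [..]`, up to types; lists of length `4 R0`, `20 R0` by
`flatMap`). Capacity of a code as a function `capOf : CNF × (ℕ × ℕ × ℕ × ℕ) → ℕ` with `PT` (case
distinction on the kind by `PT.ite`, `sat` by `getElem?`/`getD` and `PT.mem`). Leaves: the numbers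
`i < 2 k - 2 cap - 1` by `filter` of `List.range` (length of a list of length `2 k`).
`N` = list of all names (`Nodup`), `Ed` = list of the pairs (child, parent) and (parent, child).
Then `OOD.PT_encodeGraph` gives `encodeGraph ⟨N.length, G⟩`, with `G` on `Fin N.length` defined by
membership in `Ed`, and the isomorphism is `v ↦ index of its name`. Finally `encodeInst` is
`(list of length k).map (fun _ => true) ++ false :: encodeGraph`. -/
theorem exists_inst : ∃ F : CNF → Inst, (PT fun φ => encodeInst (F φ)) ∧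
    ∀ φ, Nonempty (parGraph (par (satOf φ)) ≃g (F φ).1.2) ∧
      (F φ).2 = kk (vars φ).length (norm φ).length := by
  refine exists_inst_gen vars norm PT_vars PT_norm
    (fun φ a x j => decide (((vars φ).getD a 0, x) ∈ (norm φ).getD j [])) ?_
    (fun φ => satOf φ) ?_
  · have h1 : PT fun p : CNF × ℕ × Bool × ℕ => vars p.1 := PT.comp PT_vars (by fun_prop)
    have h2 : PT fun p : CNF × ℕ × Bool × ℕ => norm p.1 := PT.comp PT_norm (by fun_prop)
    refine PT_mem' (f := fun p : CNF × ℕ × Bool × ℕ => ((vars p.1).getD p.2.1 0, p.2.2.1))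
      (l := fun p : CNF × ℕ × Bool × ℕ => (norm p.1).getD p.2.2.2 []) ?_ ?_ _
    · exact PT.pair (PT.getD h1 (by fun_prop) (PT.const 0)) (by fun_prop)
    · exact PT.getD h2 (by fun_prop) (PT.const [])
  · intro φ a x j
    unfold satOf
    simp only [List.getD_eq_getElem _ _ a.2, List.getD_eq_getElem _ _ j.2, Fin.getElem_fin]

end Pool.Agent.Lib.TopBw
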