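import Pool.Agent.Lib.TopBw.Nec
import Pool.Agent.Lib.TopBw.CombEx
import Pool.Agent.Lib.TopBw.Red
import Pool.Agent.Lib.OOD.GraphParse

/-!
# TOPBW-TREE is NP-hard: assembly
-/

set_option autoImplicit false

namespace Pool.Agent.Lib.TopBw

open Turing Pool.Agent.PolyTime Pool.Agent.Lib.CookLevin Pool.Agent.OOD

instance {t q : ℕ} {sat : Fin t → Bool → Fin q → Bool} : Finite (Vtx t q sat) := by
  let f : Vtx t q sat → Unit ⊕ (Fin t × Bool) ⊕ Star t q ⊕ Fin (rootLeaves t q) ⊕
      (Σ s : Star t q, Fin (lv sat s))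
    | .root => .inl ()
    | .hub a x => .inr (.inl (a, x))
    | .star s => .inr (.inr (.inl s))
    | .rleaf i => .inr (.inr (.inr (.inl i)))
    | .sleaf s i => .inr (.inr (.inr (.inr ⟨s, i⟩)))
  refine Finite.of_injective f ?_
  intro u v h
  cases u <;> cases v <;> simp_all [f]

/-- the tree of the reduction is a tree -/
theorem tree_isTree {t q : ℕ} (sat : Fin t → Bool → Fin q → Bool) :
    (parGraph (par sat)).IsTree := by
  refine isTree_parGraph (par sat) .root rfl ?_ rank fun v u h => rank_lt h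
  intro v hv
  cases v <;> simp [par] at hv ⊢

/-- there is a placement iff there is a satisfying assignment -/
theorem placement_iff_sat {t q : ℕ} (sat : Fin t → Bool → Fin q → Bool) (ht : 1 ≤ t)
    (hq : 1 ≤ q) : Nonempty (Placement (parGraph (par sat)) (kk t q)) ↔
      ∃ X : Fin t → Bool, ∀ j, ∃ a, sat a (X a) j = true := by
  rw [placement_iff_rpl (par sat) _ fun u v h => par_ne h]
  exact ⟨necessity ht, fun ⟨X, hX⟩ => sufficiency sat X ht hq hX⟩

/-- graphs with the same string are equal -/
theorem encodeGraph_inj {G H : Σ n, SimpleGraph (Fin n)}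
    (h : encodeGraph G = encodeGraph H) : G = H := by
  obtain ⟨n, G⟩ := G
  obtain ⟨m, H⟩ := H
  have h1 := gn_encodeGraph ⟨n, G⟩
  rw [h, gn_encodeGraph ⟨m, H⟩] at h1
  simp only at h1
  subst h1
  congr 1
  ext u v
  have h2 := gadj_encodeGraph ⟨m, G⟩ u v
  rw [h, gadj_encodeGraph ⟨m, H⟩] at h2
  simpa using h2.symm

/-- instances with the same string are equal -/
theorem encodeInst_inj {I J : Inst} (h : encodeInst I = encodeInst J) : I = J := by
  have key : ∀ (a b : ℕ) (u v : Word), List.replicate a true ++ false :: u =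
      List.replicate b true ++ false :: v → a = b ∧ u = v := by
    intro a
    induction a with
    | zero =>
      intro b u v h
      cases b with
      | zero => simpa using h
      | succ b => simp [List.replicate_succ] at h
    | succ a ih =>
      intro b u v h
      cases b with
      | zero => simp [List.replicate_succ] at h
      | succ b =>
        simp only [List.replicate_succ, List.cons_append, List.cons.injEq, true_and] at h
        obtain ⟨h1, h2⟩ := ih b u v h
        exact ⟨by omega, h2⟩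
  obtain ⟨h1, h2⟩ := key _ _ _ _ h
  exact Prod.ext (encodeGraph_inj h2) h1

/-- Every problem in NP has a polynomial time reduction to TOPBW-TREE. -/
theorem reduction (L : Word → Prop) (hL : InNP L) : ∃ f : Word → Inst,
    Nonempty (TM2ComputableInPolyTime (id : Word → List Bool) encodeInst f) ∧
    (∀ x, (f x).1.2.IsTree ∧ 1 ≤ (f x).2) ∧ ∀ x, L x ↔ topBandwidth (f x).1.2 ≤ (f x).2 := by
  obtain ⟨g, hg, hg'⟩ := cnfSat_hard hL
  obtain ⟨F, hF, hF'⟩ := exists_inst
  have h1 : PT fun x => encodeInst (F (g x)) := hF.comp hg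
  obtain ⟨h3⟩ := PT.tmRaw h1
  refine ⟨fun x => F (g x), ⟨⟨h3.toTM2ComputableAux, h3.time, h3.outputsFun⟩⟩, fun x => ?_,
    fun x => ?_⟩
  · obtain ⟨⟨e⟩, hk⟩ := hF' (g x)
    refine ⟨e.isTree_iff.1 (tree_isTree _), ?_⟩
    rw [hk]
    have := R0_ge (vars (g x)).length (norm (g x)).length
    unfold kk
    omega
  · obtain ⟨⟨e⟩, hk⟩ := hF' (g x)
    rw [hg', sat_iff, ← placement_iff_sat (satOf (g x)) (one_le_vars _) (one_le_norm _),
      topBandwidth_le_iff, hk]
    exact ⟨Placement.map e, Placement.map e.symm⟩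

/-- TOPBW-TREE is NP-hard. -/
theorem npHard_topBwTree : NPHard TopBwTree := by
  intro L hL
  obtain ⟨f, ⟨h1⟩, h2, h3⟩ := reduction L hL
  refine ⟨fun x => encodeInst (f x), ⟨⟨h1.toTM2ComputableAux, h1.time, h1.outputsFun⟩⟩,
    fun x => ?_⟩
  rw [h3 x]
  constructor
  · intro h
    exact ⟨f x, rfl, (h2 x).1, (h2 x).2, h⟩
  · rintro ⟨I, hI, _, _, hI'⟩
    rw [encodeInst_inj hI]
    exact hI'

end Pool.Agent.Lib.TopBw
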