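import Pool.Agent.Lib.TopBw.Tree

/-!
# The number of classes of stars of small capacity
-/

set_option autoImplicit false

namespace Pool.Agent.Lib.TopBw

variable {t q : ℕ} {sat : Fin t → Bool → Fin q → Bool}

/-- The classes of vertices for the last count: `hub a (X a)` are the split hubs; the stars of split
hubs are separate classes, the stars of the other hubs are in the class of the hub. -/
def cls (X : Fin t → Bool) : Vtx t q sat → Vtx t q sat
  | .root => .root
  | .hub a x => if x = X a then .root else .hub a x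
  | .star s => match hubOf s with
    | none => .star s
    | some p => if p.2 = X p.1 then .star s else .hub p.1 p.2
  | .rleaf i => .rleaf i
  | .sleaf s _ => match hubOf s with
    | none => .star s
    | some p => if p.2 = X p.1 then .star s else .hub p.1 p.2

/-- index type for the classes of the stars of small capacity -/
abbrev NCIdx (sat : Fin t → Bool → Fin q → Bool) (X : Fin t → Bool) (j : Fin q) : Type :=
  Fin t ⊕ Fin (2 * q + 3) ⊕ (Fin (j + 1) × Fin t) ⊕ Fin t ⊕ (Fin t × Bool) ⊕ (Fin j × Fin t) ⊕
    {a : Fin t // sat a (X a) j = false}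

/-- the star of an index -/
def ncStar (X : Fin t → Bool) (j : Fin q) : NCIdx sat X j → Star t q
  | .inl a => .D a
  | .inr (.inl i) => .E i
  | .inr (.inr (.inl p)) => .F ⟨p.1, by have := p.1.2; have := j.2; omega⟩ p.2
  | .inr (.inr (.inr (.inl a))) => .A a (!X a) false
  | .inr (.inr (.inr (.inr (.inl p)))) => .A p.1 (X p.1) p.2
  | .inr (.inr (.inr (.inr (.inr (.inl p))))) =>
      .W p.2 (X p.2) ⟨p.1, by have := p.1.2; have := j.2; omega⟩
  | .inr (.inr (.inr (.inr (.inr (.inr a))))) => .W a.1 (X a.1) j

/-- the class of an index -/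
def ncCls (X : Fin t → Bool) (j : Fin q) : NCIdx sat X j → Vtx t q sat
  | .inl a => .star (.D a)
  | .inr (.inl i) => .star (.E i)
  | .inr (.inr (.inl p)) => .star (.F ⟨p.1, by have := p.1.2; have := j.2; omega⟩ p.2)
  | .inr (.inr (.inr (.inl a))) => .hub a (!X a)
  | .inr (.inr (.inr (.inr (.inl p)))) => .star (.A p.1 (X p.1) p.2)
  | .inr (.inr (.inr (.inr (.inr (.inl p))))) =>
      .star (.W p.2 (X p.2) ⟨p.1, by have := p.1.2; have := j.2; omega⟩)
  | .inr (.inr (.inr (.inr (.inr (.inr a))))) => .star (.W a.1 (X a.1) j)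

lemma ncCls_eq (X : Fin t → Bool) (j : Fin q) (i : NCIdx sat X j) :
    (cls X (.star (ncStar X j i)) : Vtx t q sat) = ncCls X j i := by
  rcases i with a | i | p | a | p | p | a
  · rfl
  · rfl
  · rfl
  · simp [ncStar, ncCls, cls, hubOf]
  · simp [ncStar, ncCls, cls, hubOf]
  · simp [ncStar, ncCls, cls, hubOf]
  · simp [ncStar, ncCls, cls, hubOf]

lemma ncStar_cap (X : Fin t → Bool) (ht : 1 ≤ t) (j : Fin q) (i : NCIdx sat X j) :
    cap sat (ncStar X j i) ≤ 3 * t + q + t * j := by
  rcases i with a | i | p | a | p | p | a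
  · have := a.2
    simp only [ncStar, cap]; omega
  · simp only [ncStar, cap]; omega
  · have h1 := p.1.2
    have h2 : t * (p.1 : ℕ) ≤ t * j := Nat.mul_le_mul_left _ (by omega)
    simp only [ncStar, cap]; omega
  · have := a.2
    simp only [ncStar, cap]; omega
  · have := p.1.2
    simp only [ncStar, cap]; omega
  · have h1 := p.1.2
    have h2 : t * (p.1 : ℕ) + t ≤ t * j := by
      calc t * (p.1 : ℕ) + t = t * (p.1 + 1) := by ring
        _ ≤ t * j := Nat.mul_le_mul_left _ h1
    simp only [ncStar, cap]
    split_ifs <;> omega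
  · have h := a.2
    simp only [ncStar, cap, h]
    simp

lemma ncCls_inj (X : Fin t → Bool) (j : Fin q) :
    Function.Injective (ncCls (sat := sat) X j) := by
  intro i i' h
  rcases i with a | i | p | a | p | p | a <;> rcases i' with a' | i' | p' | a' | p' | p' | a' <;>
    simp only [ncCls, Vtx.star.injEq, Vtx.hub.injEq, Star.D.injEq, Star.E.injEq, Star.F.injEq,
      Star.A.injEq, Star.W.injEq, reduceCtorEq, Fin.mk.injEq] at h
  · rw [h]
  · rw [h]
  · have h1 : p.1 = p'.1 := Fin.ext h.1
    rw [Prod.ext h1 h.2]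
  · rw [h.1]
  · rw [Prod.ext h.1 h.2.2]
  · have h1 : p.1 = p'.1 := Fin.ext h.2.2
    rw [Prod.ext h1 h.1]
  · have h1 := p.1.2
    have h2 : (p.1 : ℕ) = j := congrArg Fin.val h.2.2
    omega
  · have h1 := p'.1.2
    have h2 : (j : ℕ) = p'.1 := congrArg Fin.val h.2.2
    omega
  · rw [Subtype.ext h.1]

/-- CHUNK NC. The classes of the stars of capacity at most `3 t + q + t j`: `star (D a)` (`t`),
`star (E i)` (`2 q + 3`), `star (F j' i)`, `j' ≤ j` (`t (j + 1)`), `hub a (!X a)` (`t`),
`star (A a (X a) b)` (`2 t`), `star (W a (X a) j')`, `j' < j` (`t j`), and `star (W a (X a) j)` for the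
`a` with `sat a (X a) j = false`. -/
theorem count_labels (X : Fin t → Bool) (ht : 1 ≤ t) (j : Fin q) :
    5 * t + 2 * (t * j) + 2 * q + 3 + (Finset.univ.filter fun a => sat a (X a) j = false).card ≤
      ((Finset.univ.filter fun s : Star t q => cap sat s ≤ 3 * t + q + t * j).image
        fun s => (cls X (.star s) : Vtx t q sat)).card := by
  have h1 : (Finset.univ : Finset (NCIdx sat X j)).card ≤
      ((Finset.univ.filter fun s : Star t q => cap sat s ≤ 3 * t + q + t * j).image
        fun s => (cls X (.star s) : Vtx t q sat)).card := by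
    apply Finset.card_le_card_of_injOn (ncCls X j)
    · intro i _
      simp only [Finset.coe_image, Set.mem_image, Finset.mem_coe, Finset.mem_filter,
        Finset.mem_univ, true_and]
      exact ⟨ncStar X j i, ncStar_cap X ht j i, ncCls_eq X j i⟩
    · exact fun i _ i' _ h => ncCls_inj X j h
  have h2 : (Finset.univ : Finset (NCIdx sat X j)).card =
      5 * t + 2 * (t * j) + 2 * q + 3 + (Finset.univ.filter fun a => sat a (X a) j = false).card := by
    rw [Finset.card_univ]
    simp only [NCIdx, Fintype.card_sum, Fintype.card_prod, Fintype.card_fin, Fintype.card_bool,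
      Fintype.card_subtype]
    ring
  rw [← h2]
  exact h1

end Pool.Agent.Lib.TopBw
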