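import Pool.Agent.Lib.TopBw.NecCross
import Pool.Agent.Lib.TopBw.NecCount

/-!
# The second count: stars of small capacity, far from the root
-/

set_option autoImplicit false

namespace Pool.Agent.Lib.TopBw

variable {t q : ℕ} {sat : Fin t → Bool → Fin q → Bool}

/-- at most `cap s` other classes have a star beyond `s` -/
theorem fine_bound (P : RPl (par sat) (kk t q)) (h0 : P.x .root = 0) (X : Fin t → Bool)
    (hX : ∀ a, |P.x (.hub a (X a))| ≤ kk t q) (s : Star t q)
    (hs : 2 * (kk t q : ℤ) < P.x (.star s)) (I : Finset (Vtx t q sat))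
    (hI : ∀ b ∈ I, b ≠ cls X (.star s) ∧ ∃ s' : Star t q, cls X (.star s') = b ∧
      P.x (.star s) < P.x (.star s')) : I.card ≤ cap sat s := by
  classical
  have h1 := sum_cset_le P (cls X) (P.x (.star s)) (insert (cls X (.star s)) I)
  have hn : cls X (.star s) ∉ I := fun hh => (hI _ hh).1 rfl
  rw [Finset.sum_insert hn] at h1
  have h2 := own_fine P h0 X hX s hs
  have h3 : ∑ _b ∈ I, 2 ≤ ∑ b ∈ I, (cset P (cls X) (P.x (.star s)) b).card := by
    refine Finset.sum_le_sum fun b hb => ?_
    obtain ⟨hne, s', rfl, hlt⟩ := hI b hb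
    exact cross_fine P h0 X hX s s' hs hlt hne
  rw [Finset.sum_const, smul_eq_mul] at h3
  have h4 := cap_le (sat := sat) s
  have h5 : 3 * R0 t q ≤ kk t q := by unfold kk; omega
  omega

/-- the classes of the stars of capacity `≤ κ` on the right -/
noncomputable def rightLabels (P : RPl (par sat) (kk t q)) (X : Fin t → Bool) (κ : ℕ) :
    Finset (Vtx t q sat) := by
  classical
  exact (Finset.univ.filter fun s : Star t q => cap sat s ≤ κ ∧ 0 < P.x (.star s)).image
    fun s => cls X (.star s)

/-- at most `κ + 1` classes of stars of capacity `≤ κ` are on the right -/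
theorem card_rightLabels (P : RPl (par sat) (kk t q)) (h0 : P.x .root = 0) (X : Fin t → Bool)
    (hX : ∀ a, |P.x (.hub a (X a))| ≤ kk t q) (κ : ℕ) (hκ : κ + 2 ≤ R0 t q) :
    (rightLabels P X κ).card ≤ κ + 1 := by
  classical
  by_cases hne : (Finset.univ.filter fun s : Star t q => cap sat s ≤ κ ∧
      0 < P.x (.star s)).Nonempty
  · obtain ⟨s, hs, hmin⟩ := Finset.exists_min_image _ (fun s => P.x (.star s)) hne
    simp only [Finset.mem_filter, Finset.mem_univ, true_and] at hs hmin
    have hfar := far_low P h0 s hs.2 (by omega)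
    have hb := fine_bound P h0 X hX s hfar ((rightLabels P X κ).erase (cls X (.star s))) (by
      intro b hb
      rw [Finset.mem_erase] at hb
      refine ⟨hb.1, ?_⟩
      unfold rightLabels at hb
      simp only [Finset.mem_image, Finset.mem_filter, Finset.mem_univ, true_and] at hb
      obtain ⟨hne', s', hs', rfl⟩ := hb
      refine ⟨s', rfl, lt_of_le_of_ne (hmin s' hs') ?_⟩
      intro heq
      have := P.x_inj heq
      simp only [Vtx.star.injEq] at this
      subst this
      exact hne' rfl)
    have hin : cls X (.star s) ∈ rightLabels P X κ := by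
      unfold rightLabels
      simp only [Finset.mem_image, Finset.mem_filter, Finset.mem_univ, true_and]
      exact ⟨s, hs, rfl⟩
    rw [Finset.card_erase_of_mem hin] at hb
    omega
  · rw [Finset.not_nonempty_iff_eq_empty] at hne
    unfold rightLabels
    rw [hne]
    simp

/-- NS3. Some variable satisfies the clause `j`. -/
theorem clause_sat (P : RPl (par sat) (kk t q)) (h0 : P.x .root = 0) (X : Fin t → Bool)
    (hX : ∀ a, |P.x (.hub a (X a))| ≤ kk t q) (ht : 1 ≤ t) (j : Fin q) :
    ∃ a, sat a (X a) j = true := by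
  classical
  by_contra hcon
  push Not at hcon
  have hu : (Finset.univ.filter fun a => sat a (X a) j = false).card = t := by
    rw [Finset.filter_true_of_mem]
    · simp
    · intro a _
      have := hcon a
      simpa using this
  have h1 := count_labels (sat := sat) X ht j
  rw [hu] at h1
  have hj : t * (j : ℕ) + t ≤ t * q := by
    calc t * (j : ℕ) + t = t * (j + 1) := by ring
      _ ≤ t * q := Nat.mul_le_mul_left _ j.2
  have hκ : 3 * t + q + t * (j : ℕ) + 2 ≤ R0 t q := by unfold R0; omega
  have h2 := card_rightLabels P h0 X hX _ hκ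
  have h3 := card_rightLabels P.neg (by simp [h0]) X (by intro a; simpa using hX a) _ hκ
  have h4 : ((Finset.univ.filter fun s : Star t q => cap sat s ≤ 3 * t + q + t * j).image
      fun s => (cls X (.star s) : Vtx t q sat)) ⊆
      rightLabels P X (3 * t + q + t * j) ∪ rightLabels P.neg X (3 * t + q + t * j) := by
    intro b hb
    simp only [Finset.mem_image, Finset.mem_filter, Finset.mem_univ, true_and] at hb
    obtain ⟨s, hs, rfl⟩ := hb
    have hfar := far_root P h0 s
    have hR := R0_ge t q
    unfold rightLabels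
    simp only [Finset.mem_union, Finset.mem_image, Finset.mem_filter, Finset.mem_univ, true_and,
      RPl.neg_x, Left.neg_pos_iff]
    rcases lt_trichotomy (P.x (.star s)) 0 with h5 | h5 | h5
    · exact Or.inr ⟨s, ⟨hs, h5⟩, rfl⟩
    · rw [h5, abs_zero] at hfar
      have : (2 : ℤ) ≤ R0 t q := by exact_mod_cast hR
      omega
    · exact Or.inl ⟨s, ⟨hs, h5⟩, rfl⟩
  have h5 := (Finset.card_le_card h4).trans (Finset.card_union_le _ _)
  omega

end Pool.Agent.Lib.TopBw
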