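import Pool.Agent.Lib.TopBw.NecSplit
import Pool.Agent.Lib.TopBw.NecFine

/-!
# A placement gives a satisfying assignment
-/

set_option autoImplicit false

namespace Pool.Agent.Lib.TopBw

variable {t q : ℕ} {sat : Fin t → Bool → Fin q → Bool}

theorem necessity (ht : 1 ≤ t) (h : Nonempty (RPl (par sat) (kk t q))) :
    ∃ X : Fin t → Bool, ∀ j, ∃ a, sat a (X a) j = true := by
  obtain ⟨P, h0⟩ := exists_normalised h .root
  choose X hX _ using fun a => split_unique P h0 a
  exact ⟨X, fun j => clause_sat P h0 X (fun a => split_near P h0 a (X a) (hX a)) ht j⟩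

end Pool.Agent.Lib.TopBw
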