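import Pool.Agent.Lib.TopBw.Tree

/-!
# Basic lemmas on placements of rooted trees
-/

set_option autoImplicit false

namespace Pool.Agent.Lib.TopBw

section General

variable {V : Type*} {pr : V → Option V} {k : ℕ}

/-- the positions on the way from the parent of `v` (excluded) to `v` (included) -/
def RPl.pos (P : RPl pr k) (v : V) : List ℤ := P.pre v ++ [P.x v]

/-- the first position on the way from the parent of `v` to `v` -/
def RPl.nb (P : RPl pr k) (v : V) : ℤ := (P.pos v).head (by simp [RPl.pos])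

/-- the `2 k` positions around `p` -/
noncomputable def zone (k : ℕ) (p : ℤ) : Finset ℤ := (Finset.Icc (p - k) (p + k)).erase p

/-- CHUNK NB (all the statements of this section). -/
lemma card_zone (k : ℕ) (p : ℤ) : (zone k p).card = 2 * k := by
  have h : p ∈ Finset.Icc (p - (k : ℤ)) (p + k) := by
    rw [Finset.mem_Icc]; constructor <;> omega
  rw [zone, Finset.card_erase_of_mem h, Int.card_Icc]
  omega

lemma mem_zone {k : ℕ} {p y : ℤ} : y ∈ zone k p ↔ y ≠ p ∧ p - k ≤ y ∧ y ≤ p + k := by
  rw [zone, Finset.mem_erase, Finset.mem_Icc]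

/-- a chain which goes from below `p` to above `p` has a step over `p` -/
lemma chain_cross_up {k : ℕ} {p : ℤ} (l : List ℤ) {b : ℤ} (hb : p < b) :
    ∀ a : ℤ, List.IsChain (fun a b : ℤ => |a - b| ≤ k) (a :: (l ++ [b])) → a < p →
      p ∉ l ++ [b] →
      ∃ y z, (y = a ∨ y ∈ l ++ [b]) ∧ z ∈ l ++ [b] ∧ y < p ∧ p < z ∧ z - y ≤ k := by
  induction l with
  | nil =>
    intro a hc ha _
    refine ⟨a, b, Or.inl rfl, by simp, ha, hb, ?_⟩
    rw [List.nil_append, List.isChain_cons_cons] at hc
    have := abs_le.1 hc.1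
    omega
  | cons c l ih =>
    intro a hc ha hp
    rw [List.cons_append, List.isChain_cons_cons] at hc
    rw [List.cons_append, List.mem_cons, not_or] at hp
    rcases lt_or_gt_of_ne hp.1 with h | h
    · refine ⟨a, c, Or.inl rfl, by simp, ha, h, ?_⟩
      have := abs_le.1 hc.1
      omega
    · obtain ⟨y, z, h1, h2, h3, h4, h5⟩ := ih c hc.2 h hp.2
      refine ⟨y, z, Or.inr ?_, List.mem_cons_of_mem _ h2, h3, h4, h5⟩
      rcases h1 with h1 | h1
      · rw [h1, List.cons_append]; exact List.mem_cons_self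
      · exact List.mem_cons_of_mem _ h1

/-- a chain which goes from above `p` to below `p` has a step over `p` -/
lemma chain_cross_down {k : ℕ} {p : ℤ} (l : List ℤ) {b : ℤ} (hb : b < p) :
    ∀ a : ℤ, List.IsChain (fun a b : ℤ => |a - b| ≤ k) (a :: (l ++ [b])) → p < a →
      p ∉ l ++ [b] →
      ∃ y z, y ∈ l ++ [b] ∧ (z = a ∨ z ∈ l ++ [b]) ∧ y < p ∧ p < z ∧ z - y ≤ k := by
  induction l with
  | nil =>
    intro a hc ha _
    refine ⟨b, a, by simp, Or.inl rfl, hb, ha, ?_⟩
    rw [List.nil_append, List.isChain_cons_cons] at hc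
    have := abs_le.1 hc.1
    omega
  | cons c l ih =>
    intro a hc ha hp
    rw [List.cons_append, List.isChain_cons_cons] at hc
    rw [List.cons_append, List.mem_cons, not_or] at hp
    rcases lt_or_gt_of_ne hp.1 with h | h
    · obtain ⟨y, z, h1, h2, h3, h4, h5⟩ := ih c hc.2 h hp.2
      refine ⟨y, z, List.mem_cons_of_mem _ h1, Or.inr ?_, h3, h4, h5⟩
      rcases h2 with h2 | h2
      · rw [h2, List.cons_append]; exact List.mem_cons_self
      · exact List.mem_cons_of_mem _ h2
    · refine ⟨c, a, by simp, Or.inl rfl, h, ha, ?_⟩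
      have := abs_le.1 hc.1
      omega

/-- the last step of a chain -/
lemma chain_last {k : ℕ} (l : List ℤ) {b : ℤ} :
    ∀ a : ℤ, List.IsChain (fun a b : ℤ => |a - b| ≤ k) (a :: (l ++ [b])) →
      ∃ y, (y = a ∨ y ∈ l) ∧ |y - b| ≤ k := by
  induction l with
  | nil =>
    intro a hc
    rw [List.nil_append, List.isChain_cons_cons] at hc
    exact ⟨a, Or.inl rfl, hc.1⟩
  | cons c l ih =>
    intro a hc
    rw [List.cons_append, List.isChain_cons_cons] at hc
    obtain ⟨y, h1, h2⟩ := ih c hc.2
    refine ⟨y, Or.inr ?_, h2⟩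
    rcases h1 with h1 | h1
    · rw [h1]; exact List.mem_cons_self
    · exact List.mem_cons_of_mem _ h1

lemma RPl.x_mem_pos (P : RPl pr k) (v : V) : P.x v ∈ P.pos v := by
  simp [RPl.pos]

lemma RPl.nb_mem_pos (P : RPl pr k) (v : V) : P.nb v ∈ P.pos v := List.head_mem _

lemma RPl.pos_eq (P : RPl pr k) {v w : V} {y : ℤ} (hv : y ∈ P.pos v) (hw : y ∈ P.pos w) : v = w :=
  P.disj v w y hv hw

lemma RPl.x_inj (P : RPl pr k) : Function.Injective P.x := fun v w h =>
  P.pos_eq (P.x_mem_pos v) (h ▸ P.x_mem_pos w)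

lemma RPl.nb_inj (P : RPl pr k) : Function.Injective P.nb := fun v w h =>
  P.pos_eq (P.nb_mem_pos v) (h ▸ P.nb_mem_pos w)

/-- the first position on the way is within `k` of the parent -/
lemma RPl.nb_near (P : RPl pr k) {v u : V} (h : pr v = some u) : |P.nb v - P.x u| ≤ k := by
  have hc := P.chain v u h
  have hne : P.pre v ++ [P.x v] ≠ [] := by simp
  obtain ⟨c, l, hl⟩ := List.exists_cons_of_ne_nil hne
  have hnb : P.nb v = c := by
    unfold RPl.nb RPl.pos
    simp only [hl, List.head_cons]
  rw [hl, List.isChain_cons_cons] at hc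
  rw [hnb, abs_sub_comm]
  exact hc.1

/-- the last position on the way is within `k` of `v` -/
lemma RPl.exists_last (P : RPl pr k) {v u : V} (h : pr v = some u) :
    ∃ y, (y = P.x u ∨ y ∈ P.pre v) ∧ |y - P.x v| ≤ k :=
  chain_last _ _ (P.chain v u h)

/-- crossing of `p` on the way from the parent `u` up to `v` -/
lemma RPl.cross_up (P : RPl pr k) {v u : V} (h : pr v = some u) {p : ℤ} (h1 : P.x u < p)
    (h2 : p < P.x v) (hp : p ∉ P.pos v) :
    ∃ y z, (y = P.x u ∨ y ∈ P.pos v) ∧ z ∈ P.pos v ∧ y < p ∧ p < z ∧ z - y ≤ k :=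
  chain_cross_up _ h2 _ (P.chain v u h) h1 hp

/-- crossing of `p` on the way from the parent `u` down to `v` -/
lemma RPl.cross_down (P : RPl pr k) {v u : V} (h : pr v = some u) {p : ℤ} (h1 : P.x v < p)
    (h2 : p < P.x u) (hp : p ∉ P.pos v) :
    ∃ y z, y ∈ P.pos v ∧ (z = P.x u ∨ z ∈ P.pos v) ∧ y < p ∧ p < z ∧ z - y ≤ k :=
  chain_cross_down _ h1 _ (P.chain v u h) h2 hp

/-- the mirror image of a placement -/
def RPl.neg (P : RPl pr k) : RPl pr k where
  x v := - P.x v
  pre v := (P.pre v).map fun y => -y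
  pre_root v hv := by rw [P.pre_root v hv]; rfl
  chain v u h := by
    have hc := P.chain v u h
    have e : (-P.x u :: ((P.pre v).map (fun y => -y) ++ [-P.x v])) =
        (P.x u :: (P.pre v ++ [P.x v])).map (fun y : ℤ => -y) := by
      simp
    rw [e, List.isChain_map]
    refine hc.imp ?_
    intro a b hab
    have e2 : -a - -b = -(a - b) := by ring
    rw [e2, abs_neg]
    exact hab
  nodup v := by
    have e : ((P.pre v).map (fun y => -y) ++ [-P.x v]) =
        (P.pre v ++ [P.x v]).map (fun y : ℤ => -y) := by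
      simp
    rw [e]
    exact (P.nodup v).map neg_injective
  disj v w y hv hw := by
    refine P.disj v w (-y) ?_ ?_
    · simp only [List.mem_append, List.mem_map, List.mem_singleton] at hv ⊢
      rcases hv with ⟨z, hz, rfl⟩ | rfl
      · left; rw [neg_neg]; exact hz
      · right; rw [neg_neg]
    · simp only [List.mem_append, List.mem_map, List.mem_singleton] at hw ⊢
      rcases hw with ⟨z, hz, rfl⟩ | rfl
      · left; rw [neg_neg]; exact hz
      · right; rw [neg_neg]

@[simp] lemma RPl.neg_x (P : RPl pr k) (v : V) : P.neg.x v = - P.x v := rfl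

/-- translate a placement so that `r` gets the position `0` -/
lemma exists_normalised (h : Nonempty (RPl pr k)) (r : V) : ∃ P : RPl pr k, P.x r = 0 := by
  obtain ⟨P⟩ := h
  set c : ℤ := P.x r with hcdef
  refine ⟨⟨fun v => P.x v - c, fun v => (P.pre v).map (fun y => y - c), ?_, ?_, ?_, ?_⟩, ?_⟩
  · intro v hv
    simp [P.pre_root v hv]
  · intro v u h
    have hc := P.chain v u h
    have e : ((P.x u - c) :: ((P.pre v).map (fun y => y - c) ++ [P.x v - c])) =
        (P.x u :: (P.pre v ++ [P.x v])).map (fun y : ℤ => y - c) := by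
      simp
    rw [e, List.isChain_map]
    refine hc.imp ?_
    intro a b hab
    have e2 : (a - c) - (b - c) = a - b := by ring
    rw [e2]
    exact hab
  · intro v
    have e : ((P.pre v).map (fun y => y - c) ++ [P.x v - c]) =
        (P.pre v ++ [P.x v]).map (fun y : ℤ => y - c) := by
      simp
    rw [e]
    exact (P.nodup v).map (sub_left_injective)
  · intro v w y hv hw
    refine P.disj v w (y + c) ?_ ?_
    · simp only [List.mem_append, List.mem_map, List.mem_singleton] at hv ⊢
      rcases hv with ⟨z, hz, rfl⟩ | rfl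
      · left; rw [sub_add_cancel]; exact hz
      · right; rw [sub_add_cancel]
    · simp only [List.mem_append, List.mem_map, List.mem_singleton] at hw ⊢
      rcases hw with ⟨z, hz, rfl⟩ | rfl
      · left; rw [sub_add_cancel]; exact hz
      · right; rw [sub_add_cancel]
  · simp [hcdef]

/-- disjoint sets in a zone -/
lemma zone_count {β : Type*} [DecidableEq β] (k : ℕ) (p : ℤ) (I : Finset β) (S : β → Finset ℤ)
    (hS : ∀ b ∈ I, S b ⊆ zone k p) (hdis : (I : Set β).PairwiseDisjoint S) :
    ∑ b ∈ I, (S b).card ≤ 2 * k := by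
  rw [← card_zone k p, ← Finset.card_biUnion]
  · apply Finset.card_le_card
    rw [Finset.biUnion_subset]
    exact hS
  · intro a ha b hb hab
    exact hdis (Finset.mem_coe.2 ha) (Finset.mem_coe.2 hb) hab

open Classical in
/-- the positions in the zone of `p` which belong to vertices of class `b` -/
noncomputable def cset {β : Type*} (P : RPl pr k) (cls : V → β) (p : ℤ) (b : β) : Finset ℤ :=
  (zone k p).filter fun y => ∃ w, cls w = b ∧ y ∈ P.pos w

lemma mem_cset {β : Type*} {P : RPl pr k} {cls : V → β} {p y : ℤ} {b : β} :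
    y ∈ cset P cls p b ↔ y ∈ zone k p ∧ ∃ w, cls w = b ∧ y ∈ P.pos w := by
  classical
  simp [cset]

lemma cset_subset {β : Type*} (P : RPl pr k) (cls : V → β) (p : ℤ) (b : β) :
    cset P cls p b ⊆ zone k p := by
  intro y hy
  exact (mem_cset.1 hy).1

lemma cset_disjoint {β : Type*} (P : RPl pr k) (cls : V → β) (p : ℤ) {b c : β} (h : b ≠ c) :
    Disjoint (cset P cls p b) (cset P cls p c) := by
  rw [Finset.disjoint_left]
  intro y h1 h2
  obtain ⟨_, w, hw, hy⟩ := mem_cset.1 h1
  obtain ⟨_, w', hw', hy'⟩ := mem_cset.1 h2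
  have := P.pos_eq hy hy'
  rw [← this, hw] at hw'
  exact h hw'

lemma sum_cset_le {β : Type*} [DecidableEq β] (P : RPl pr k) (cls : V → β) (p : ℤ)
    (I : Finset β) : ∑ b ∈ I, (cset P cls p b).card ≤ 2 * k :=
  zone_count k p I _ (fun b _ => cset_subset P cls p b)
    (fun _ _ _ _ hbc => cset_disjoint P cls p hbc)

end General

end Pool.Agent.Lib.TopBw
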