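import Pool.Agent.Lib.TopBw.NecCross_NX

/-!
# Crossings in the zone of the centre of a star, counted by items
-/

set_option autoImplicit false

namespace Pool.Agent.Lib.TopBw

variable {t q : ℕ} {sat : Fin t → Bool → Fin q → Bool}

/-- At most `cap s` other items have a star beyond `s`. -/
theorem right_bound (P : RPl (par sat) (kk t q)) (h0 : P.x .root = 0) (s : Star t q)
    (hs : 0 < P.x (.star s)) (I : Finset (Vtx t q sat))
    (hI : ∀ b ∈ I, b ≠ item (.star s) ∧ ∃ s' : Star t q, item (.star s') = b ∧
      P.x (.star s) < P.x (.star s')) : I.card ≤ cap sat s := by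
  classical
  have h1 := sum_cset_le P item (P.x (.star s)) (insert (item (.star s)) I)
  have hn : item (.star s) ∉ I := fun hh => (hI _ hh).1 rfl
  rw [Finset.sum_insert hn] at h1
  have h2 := own_item P h0 s
  have h3 : ∑ _b ∈ I, 2 ≤ ∑ b ∈ I, (cset P item (P.x (.star s)) b).card := by
    refine Finset.sum_le_sum fun b hb => ?_
    obtain ⟨hne, s', rfl, hlt⟩ := hI b hb
    exact cross_item P h0 s s' hs hlt hne
  rw [Finset.sum_const, smul_eq_mul] at h3
  have h4 := cap_le (sat := sat) s
  have h5 : 3 * R0 t q ≤ kk t q := by unfold kk; omega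
  omega

/-- If moreover another star of the item of `s` lies beyond `s`: at most `cap s - 1` other items. -/
theorem right_bound_sib (P : RPl (par sat) (kk t q)) (h0 : P.x .root = 0) (s : Star t q)
    (hs : 0 < P.x (.star s)) (I : Finset (Vtx t q sat))
    (hI : ∀ b ∈ I, b ≠ item (.star s) ∧ ∃ s' : Star t q, item (.star s') = b ∧
      P.x (.star s) < P.x (.star s'))
    (hsib : ∃ s' : Star t q, item (.star s' : Vtx t q sat) = item (.star s) ∧
      P.x (.star s) < P.x (.star s')) : I.card + 1 ≤ cap sat s := by
  classical
  obtain ⟨s1, he1, hlt1⟩ := hsib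
  have h1 := sum_cset_le P item (P.x (.star s)) (insert (item (.star s)) I)
  have hn : item (.star s) ∉ I := fun hh => (hI _ hh).1 rfl
  rw [Finset.sum_insert hn] at h1
  have h2 := own_item_sib P h0 s s1 hs hlt1 he1
  have h3 : ∑ _b ∈ I, 2 ≤ ∑ b ∈ I, (cset P item (P.x (.star s)) b).card := by
    refine Finset.sum_le_sum fun b hb => ?_
    obtain ⟨hne, s', rfl, hlt⟩ := hI b hb
    exact cross_item P h0 s s' hs hlt hne
  rw [Finset.sum_const, smul_eq_mul] at h3
  have h4 := cap_le (sat := sat) s
  have h5 : 3 * R0 t q ≤ kk t q := by unfold kk; omega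
  omega

/-- CHUNK NM (the next two). Many final fillers are on the right: at most `3 R0 + 1` are on the left,
by `right_bound` for `P.neg` and the nearest final filler on the left. -/
theorem many_M (P : RPl (par sat) (kk t q)) (h0 : P.x .root = 0) :
    R0 t q - 1 ≤ (Finset.univ.filter fun i => 0 < P.x (.star (.M i))).card := by
  classical
  set Rt := Finset.univ.filter fun i : Fin (4 * R0 t q) => 0 < P.x (.star (.M i)) with hRt
  set Lt := Finset.univ.filter fun i : Fin (4 * R0 t q) => ¬ 0 < P.x (.star (.M i)) with hLt
  have hsum : Rt.card + Lt.card = 4 * R0 t q := by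
    rw [hRt, hLt, Finset.card_filter_add_card_filter_not, Finset.card_univ, Fintype.card_fin]
  have hL : Lt.card ≤ 3 * R0 t q + 1 := by
    rcases Lt.eq_empty_or_nonempty with he | hne
    · rw [he]; simp
    · obtain ⟨i0, hi0, hmax⟩ := Lt.exists_max_image (fun i => P.x (.star (.M i))) hne
      have h0' : P.neg.x (.root : Vtx t q sat) = 0 := by simp [h0]
      have hneg : ∀ i ∈ Lt, P.x (.star (.M i)) < 0 := by
        intro i hi
        have h1 : ¬ 0 < P.x (.star (.M i)) := (Finset.mem_filter.1 hi).2
        have h2 := far_root P h0 (.M i)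
        have h3 := R0_ge t q
        rcases lt_trichotomy (P.x (.star (.M i))) 0 with h4 | h4 | h4
        · exact h4
        · rw [h4] at h2
          simp only [abs_zero] at h2
          exfalso
          have : (2 : ℤ) ≤ (R0 t q : ℤ) := by exact_mod_cast h3
          linarith
        · exact absurd h4 h1
      have hb := right_bound P.neg h0' (.M i0) (by
          rw [RPl.neg_x]
          have := hneg i0 hi0
          linarith)
        ((Lt.erase i0).image fun i => (.star (.M i) : Vtx t q sat)) (by
          intro b hb
          obtain ⟨i, hi, rfl⟩ := Finset.mem_image.1 hb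
          rw [Finset.mem_erase] at hi
          refine ⟨?_, .M i, rfl, ?_⟩
          · intro h
            have h1 : (.star (.M i) : Vtx t q sat) = .star (.M i0) := h
            rw [Vtx.star.injEq, Star.M.injEq] at h1
            exact hi.1 h1
          · rw [RPl.neg_x, RPl.neg_x]
            have h1 := hmax i hi.2
            have h2 : P.x (.star (.M i)) ≠ P.x (.star (.M i0)) := by
              intro h
              have h3 := P.x_inj h
              rw [Vtx.star.injEq, Star.M.injEq] at h3
              exact hi.1 h3
            have h4 := lt_of_le_of_ne h1 h2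
            linarith)
      rw [Finset.card_image_of_injective, Finset.card_erase_of_mem hi0] at hb
      · have hc : cap sat (.M i0) = 3 * R0 t q := rfl
        rw [hc] at hb
        omega
      · intro i i' h
        rw [Vtx.star.injEq, Star.M.injEq] at h
        exact h
  omega

/-- A star of small capacity on the right is beyond some final filler, so it is very far. -/
theorem far_low (P : RPl (par sat) (kk t q)) (h0 : P.x .root = 0) (s : Star t q)
    (hs : 0 < P.x (.star s)) (hc : cap sat s + 2 ≤ R0 t q) :
    2 * (kk t q : ℤ) < P.x (.star s) := by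
  classical
  have hsM : ∀ i, s ≠ .M i := by
    rintro i rfl
    have : cap sat (.M i) = 3 * R0 t q := rfl
    omega
  have hex : ∃ i, 0 < P.x (.star (.M i)) ∧ ¬ P.x (.star s) < P.x (.star (.M i)) := by
    by_contra hcon
    have hall : ∀ i, 0 < P.x (.star (.M i)) → P.x (.star s) < P.x (.star (.M i)) := by
      intro i hi
      by_contra h
      exact hcon ⟨i, hi, h⟩
    have hb := right_bound P h0 s hs
      ((Finset.univ.filter fun i : Fin (4 * R0 t q) => 0 < P.x (.star (.M i))).image
        fun i => (.star (.M i) : Vtx t q sat)) (by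
        intro b hb
        obtain ⟨i, hi, rfl⟩ := Finset.mem_image.1 hb
        refine ⟨?_, .M i, rfl, hall i (Finset.mem_filter.1 hi).2⟩
        intro h
        have h1 := hsM i
        cases s <;> simp_all [item, hubOf])
    rw [Finset.card_image_of_injective] at hb
    · have := many_M P h0
      omega
    · intro i i' h
      rw [Vtx.star.injEq, Star.M.injEq] at h
      exact h
  obtain ⟨i, hi, hle⟩ := hex
  have h1 := far_root P h0 (.M i)
  have h2 := far_star P s (.M i) (hsM i)
  rw [abs_of_pos hi] at h1
  rw [abs_of_nonneg (by linarith [not_lt.1 hle])] at h2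
  have h3 := R0_ge t q
  have h4 : (2 : ℤ) ≤ (R0 t q : ℤ) := by exact_mod_cast h3
  have h5 : (kk t q : ℤ) = 20 * R0 t q := by unfold kk; push_cast; ring
  rw [h5]
  linarith

end Pool.Agent.Lib.TopBw
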