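import Pool.Agent.Lib.TopBw.NecFar
import Pool.Agent.Lib.TopBw.NecCount

/-!
# Crossings in the zone of the centre of a star (chunks NX and NX2)
-/

set_option autoImplicit false

namespace Pool.Agent.Lib.TopBw

section General

variable {V β : Type*} {pr : V → Option V} {k : ℕ}

/-- two positions on both sides of `p` -/
lemma two_le_cset (P : RPl pr k) (f : V → β) {p y z : ℤ} {b : β} (hy : y < p) (hz : p < z)
    (hyz : z - y ≤ k) (hyc : ∃ w, f w = b ∧ y ∈ P.pos w) (hzc : ∃ w, f w = b ∧ z ∈ P.pos w) :
    2 ≤ (cset P f p b).card := by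
  have h1 : ({y, z} : Finset ℤ) ⊆ cset P f p b := by
    intro a ha
    rw [Finset.mem_insert, Finset.mem_singleton] at ha
    rw [mem_cset, mem_zone]
    rcases ha with rfl | rfl
    · exact ⟨⟨by omega, by omega, by omega⟩, hyc⟩
    · exact ⟨⟨by omega, by omega, by omega⟩, hzc⟩
  have h2 : ({y, z} : Finset ℤ).card = 2 := Finset.card_pair (by omega)
  rw [← h2]
  exact Finset.card_le_card h1

/-- crossing of `p` on the way from `u` up to `v` -/
lemma cross_aux (P : RPl pr k) (f : V → β) {v u : V} {p : ℤ} (hpr : pr v = some u)
    (h1 : P.x u < p) (h2 : p < P.x v) (hp : p ∉ P.pos v) (hu : f u = f v ∨ ¬ p < P.x u + k) :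
    2 ≤ (cset P f p (f v)).card := by
  obtain ⟨y, z, hy, hz, hyp, hpz, hyz⟩ := P.cross_up hpr h1 h2 hp
  refine two_le_cset P f hyp hpz hyz ?_ ⟨v, rfl, hz⟩
  rcases hy with rfl | hy
  · rcases hu with hu | hu
    · exact ⟨u, hu, P.x_mem_pos u⟩
    · exact absurd (by omega) hu
  · exact ⟨v, rfl, hy⟩

end General

variable {t q : ℕ} {sat : Fin t → Bool → Fin q → Bool}

lemma far_pos (P : RPl (par sat) (kk t q)) (s : Star t q) (h0 : P.x .root = 0)
    (hs : 0 < P.x (.star s)) : (kk t q : ℤ) + 2 < P.x (.star s) := by
  have h1 := far_root P h0 s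
  rw [abs_of_pos hs] at h1
  have h2 : (2 : ℤ) ≤ R0 t q := by exact_mod_cast R0_ge t q
  have h3 : (kk t q : ℤ) = 20 * R0 t q := by unfold kk; push_cast; ring
  omega

lemma star_notMem_pos (P : RPl (par sat) (kk t q)) (s : Star t q) {v : Vtx t q sat}
    (h : v ≠ .star s) : P.x (.star s) ∉ P.pos v := fun h1 =>
  h (P.pos_eq h1 (P.x_mem_pos _))

/-- positions of own vertices in the zone of `s`: first positions to the leaves, and others -/
lemma own_gen {β : Type*} (P : RPl (par sat) (kk t q)) (f : Vtx t q sat → β) (s : Star t q)
    (hl : ∀ i, f (.sleaf s i) = f (.star s)) (T : Finset ℤ)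
    (hT : T ⊆ cset P f (P.x (.star s)) (f (.star s)))
    (hTn : ∀ y ∈ T, ∀ i, y ∉ P.pos (.sleaf s i)) :
    lv sat s + T.card ≤ (cset P f (P.x (.star s)) (f (.star s))).card := by
  classical
  let L : Finset ℤ := Finset.univ.image fun i : Fin (lv sat s) => P.nb (.sleaf s i)
  have hL : L.card = lv sat s := by
    rw [Finset.card_image_of_injective _ (fun i j h => by
      have := P.nb_inj h
      simpa using this)]
    simp
  have hLs : L ⊆ cset P f (P.x (.star s)) (f (.star s)) := by
    intro y hy
    obtain ⟨i, _, rfl⟩ := Finset.mem_image.1 hy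
    have h1 := P.nb_near (v := .sleaf s i) (u := .star s) rfl
    rw [abs_le] at h1
    rw [mem_cset, mem_zone]
    refine ⟨⟨?_, by omega, by omega⟩, ⟨_, hl i, P.nb_mem_pos _⟩⟩
    intro h2
    apply star_notMem_pos P s (v := .sleaf s i) (by simp)
    rw [← h2]
    exact P.nb_mem_pos _
  have hd : Disjoint L T := by
    rw [Finset.disjoint_left]
    intro y hy hyT
    obtain ⟨i, _, rfl⟩ := Finset.mem_image.1 hy
    exact hTn _ hyT i (P.nb_mem_pos _)
  rw [← hL, ← Finset.card_union_of_disjoint hd]
  exact Finset.card_le_card (Finset.union_subset hLs hT)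

lemma lv_eq (s : Star t q) : lv sat s + 1 = 2 * kk t q - 2 * cap sat s := by
  have h1 := cap_le (sat := sat) s
  have h2 := R0_ge t q
  unfold lv kk
  omega

/-- the last position on the way to the centre of a star -/
lemma last_pos {β : Type*} (P : RPl (par sat) (kk t q)) (f : Vtx t q sat → β) (s : Star t q)
    (hu : |P.x (starPar sat s) - P.x (.star s)| ≤ kk t q → f (starPar sat s) = f (.star s)) :
    ∃ y, y ∈ cset P f (P.x (.star s)) (f (.star s)) ∧
      ((y = P.x (starPar sat s) ∧ |P.x (starPar sat s) - P.x (.star s)| ≤ kk t q) ∨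
        y ∈ P.pre (.star s)) := by
  obtain ⟨y, hy, hyk⟩ := P.exists_last (v := .star s) (u := starPar sat s) rfl
  refine ⟨y, ?_, ?_⟩
  · rw [mem_cset, mem_zone]
    rw [abs_le] at hyk
    rcases hy with rfl | hy
    · refine ⟨⟨?_, by omega, by omega⟩, ⟨_, hu (abs_le.2 hyk), P.x_mem_pos _⟩⟩
      intro h
      have h2 := P.x_inj h
      have h3 := rank_lt (sat := sat) (v := .star s) (u := starPar sat s) rfl
      rw [h2] at h3
      exact lt_irrefl _ h3
    · refine ⟨⟨?_, by omega, by omega⟩, ⟨_, rfl, ?_⟩⟩
      · rintro rfl
        have h4 := P.nodup (.star s)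
        rw [List.nodup_append] at h4
        exact h4.2.2 _ hy _ (List.mem_singleton.2 rfl) rfl
      · unfold RPl.pos
        exact List.mem_append_left _ hy
  · rcases hy with rfl | hy
    · exact Or.inl ⟨rfl, hyk⟩
    · exact Or.inr hy

lemma pre_sub_pos (P : RPl (par sat) (kk t q)) (v : Vtx t q sat) {y : ℤ} (h : y ∈ P.pre v) :
    y ∈ P.pos v := by
  unfold RPl.pos
  exact List.mem_append_left _ h

lemma starPar_ne_leaf (s s' : Star t q) (i : Fin (lv sat s')) :
    starPar sat s ≠ .sleaf s' i := by
  unfold starPar
  cases hubOf s <;> simp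

/-- general form of `own_item` and `own_fine` -/
lemma own_aux {β : Type*} (P : RPl (par sat) (kk t q)) (f : Vtx t q sat → β) (s : Star t q)
    (hl : ∀ i, f (.sleaf s i) = f (.star s))
    (hu : |P.x (starPar sat s) - P.x (.star s)| ≤ kk t q → f (starPar sat s) = f (.star s)) :
    2 * kk t q - 2 * cap sat s ≤ (cset P f (P.x (.star s)) (f (.star s))).card := by
  obtain ⟨y, hy, hy2⟩ := last_pos P f s hu
  have h1 := own_gen P f s hl {y} (by rwa [Finset.singleton_subset_iff]) (by
    intro y' hy' i hi
    rw [Finset.mem_singleton] at hy'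
    subst hy'
    rcases hy2 with ⟨h, _⟩ | h
    · rw [h] at hi
      exact starPar_ne_leaf s s i (P.pos_eq (P.x_mem_pos _) hi)
    · have := P.pos_eq (pre_sub_pos P _ h) hi
      simp at this)
  rw [Finset.card_singleton, lv_eq] at h1
  exact h1

lemma item_leaf (s : Star t q) (i : Fin (lv sat s)) :
    item (.sleaf s i : Vtx t q sat) = item (.star s) := rfl

lemma cls_leaf (X : Fin t → Bool) (s : Star t q) (i : Fin (lv sat s)) :
    cls X (.sleaf s i : Vtx t q sat) = cls X (.star s) := rfl

/-- CHUNK NX (this file, up to `own_item_sib`). Another item with a star beyond `s` has at least two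
positions in the zone of `s`: on the way root → (hub →) `s'` there are consecutive positions
`y < x s < z` with `z - y ≤ k`; `y` is not the root since `x s > k` (`far_root`). -/
theorem cross_item (P : RPl (par sat) (kk t q)) (h0 : P.x .root = 0) (s s' : Star t q)
    (hs : 0 < P.x (.star s)) (h : P.x (.star s) < P.x (.star s'))
    (hne : item (.star s' : Vtx t q sat) ≠ item (.star s)) :
    2 ≤ (cset P item (P.x (.star s)) (item (.star s'))).card := by
  have hfar := far_pos P s h0 hs
  have hss : (.star s' : Vtx t q sat) ≠ .star s := fun h1 => hne (by rw [h1])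
  cases hh : hubOf s' with
  | none =>
    have hp : par sat (.star s') = some .root := by simp [par, starPar, hh]
    exact cross_aux P item hp (by rw [h0]; exact hs) h (star_notMem_pos P s hss)
      (Or.inr (by rw [h0]; omega))
  | some p =>
    have hp : par sat (.star s') = some (.hub p.1 p.2) := by simp [par, starPar, hh]
    have hi : item (.hub p.1 p.2 : Vtx t q sat) = item (.star s') := by simp [item, hh]
    rcases lt_trichotomy (P.x (.hub p.1 p.2)) (P.x (.star s)) with h1 | h1 | h1
    · exact cross_aux P item hp h1 h (star_notMem_pos P s hss) (Or.inl hi)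
    · have := P.x_inj h1
      simp at this
    · rw [← hi]
      exact cross_aux P item (v := .hub p.1 p.2) (u := .root) rfl (by rw [h0]; exact hs) h1
        (star_notMem_pos P s (by simp)) (Or.inr (by rw [h0]; omega))

lemma hu_item (P : RPl (par sat) (kk t q)) (h0 : P.x .root = 0) (s : Star t q)
    (h : |P.x (starPar sat s) - P.x (.star s)| ≤ kk t q) :
    item (starPar sat s) = item (.star s) := by
  cases hh : hubOf s with
  | none =>
    have e : starPar sat s = .root := by simp [starPar, hh]
    rw [e, h0, zero_sub, abs_neg] at h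
    have h1 := far_root P h0 s
    have h2 : (2 : ℤ) ≤ R0 t q := by exact_mod_cast R0_ge t q
    have h3 : (kk t q : ℤ) = 20 * R0 t q := by unfold kk; push_cast; ring
    omega
  | some p => simp [starPar, hh, item]

/-- The item of `s` has at least `2 k - 2 cap` positions in the zone of `s`: the first positions
towards the leaves and the last position on the way from the parent (not the root, by `far_root`). -/
theorem own_item (P : RPl (par sat) (kk t q)) (h0 : P.x .root = 0) (s : Star t q) :
    2 * kk t q - 2 * cap sat s ≤ (cset P item (P.x (.star s)) (item (.star s))).card :=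
  own_aux P item s (item_leaf s) (hu_item P h0 s)

/-- If another star of the same hub lies beyond `s`, then there is one more position: if the hub is
left of `x s`, a position `z > x s` on the way hub → `s'`; if the hub is right of `x s`, a position
`y < x s` on the way root → hub. -/
theorem own_item_sib (P : RPl (par sat) (kk t q)) (h0 : P.x .root = 0) (s s' : Star t q)
    (hs : 0 < P.x (.star s)) (h : P.x (.star s) < P.x (.star s'))
    (he : item (.star s' : Vtx t q sat) = item (.star s)) :
    2 * kk t q - 2 * cap sat s + 1 ≤ (cset P item (P.x (.star s)) (item (.star s))).card := by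
  have hfar := far_pos P s h0 hs
  have hss : s' ≠ s := by
    rintro rfl
    exact lt_irrefl _ h
  obtain ⟨p, hp, hp'⟩ : ∃ p, hubOf s = some p ∧ hubOf s' = some p := by
    cases hh : hubOf s with
    | none =>
      cases hh' : hubOf s' with
      | none =>
        simp [item, hh, hh'] at he
        exact absurd he hss
      | some p' => simp [item, hh, hh'] at he
    | some p =>
      cases hh' : hubOf s' with
      | none => simp [item, hh, hh'] at he
      | some p' =>
        simp only [item, hh, hh', Vtx.hub.injEq] at he
        exact ⟨p, rfl, congrArg some (Prod.ext he.1 he.2)⟩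
  have hpar : starPar sat s = .hub p.1 p.2 := by simp [starPar, hp]
  have hpar' : par sat (.star s') = some (.hub p.1 p.2) := by simp [par, starPar, hp']
  have hi : item (.hub p.1 p.2 : Vtx t q sat) = item (.star s) := by simp [item, hp]
  obtain ⟨y, hy, hy2⟩ := last_pos P item s (hu_item P h0 s)
  -- the other position
  obtain ⟨z, hz, hzn, hzy⟩ : ∃ z, z ∈ cset P item (P.x (.star s)) (item (.star s)) ∧
      (∀ i, z ∉ P.pos (.sleaf s i)) ∧ z ≠ y := by
    rcases lt_trichotomy (P.x (.hub p.1 p.2)) (P.x (.star s)) with h1 | h1 | h1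
    · obtain ⟨a, z, ha, hz, haz, hpz, hd⟩ := P.cross_up hpar' h1 h
        (star_notMem_pos P s (by simpa using hss))
      refine ⟨z, ?_, ?_, ?_⟩
      · rw [mem_cset, mem_zone]
        exact ⟨⟨by omega, by omega, by omega⟩, ⟨_, he, hz⟩⟩
      · intro i hzi
        have := P.pos_eq hz hzi
        simp at this
      · rintro rfl
        rcases hy2 with ⟨h2, _⟩ | h2
        · rw [hpar] at h2
          have := P.pos_eq hz (by rw [h2]; exact P.x_mem_pos (.hub p.1 p.2))
          simp at this
        · have := P.pos_eq hz (pre_sub_pos P _ h2)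
          simp at this
          exact hss this
    · have := P.x_inj h1
      simp at this
    · obtain ⟨z, a, hz, ha, haz, hpz, hd⟩ := P.cross_up (v := .hub p.1 p.2) (u := .root) rfl
        (by rw [h0]; exact hs) h1 (star_notMem_pos P s (by simp))
      have hz' : z ∈ P.pos (.hub p.1 p.2) := by
        rcases hz with rfl | hz
        · rw [h0] at hd; omega
        · exact hz
      refine ⟨z, ?_, ?_, ?_⟩
      · rw [mem_cset, mem_zone]
        exact ⟨⟨by omega, by omega, by omega⟩, ⟨_, hi, hz'⟩⟩
      · intro i hzi
        have := P.pos_eq hz' hzi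
        simp at this
      · rintro rfl
        rcases hy2 with ⟨h2, _⟩ | h2
        · rw [hpar] at h2
          omega
        · have := P.pos_eq hz' (pre_sub_pos P _ h2)
          simp at this
  have h1 := own_gen P item s (item_leaf s) {y, z} (by
      intro a ha
      rw [Finset.mem_insert, Finset.mem_singleton] at ha
      rcases ha with rfl | rfl
      · exact hy
      · exact hz) (by
    intro y' hy' i hi
    rw [Finset.mem_insert, Finset.mem_singleton] at hy'
    rcases hy' with rfl | rfl
    · rcases hy2 with ⟨h, _⟩ | h
      · rw [h] at hi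
        exact starPar_ne_leaf s s i (P.pos_eq (P.x_mem_pos _) hi)
      · have := P.pos_eq (pre_sub_pos P _ h) hi
        simp at this
    · exact hzn i hi)
  rw [Finset.card_pair hzy.symm] at h1
  have h2 := lv_eq (sat := sat) s
  omega

/-- CHUNK NX2 (this and the next theorem). Compare `cross_item`. If the hub of `s'` is
`hub a (X a)`, then its position is at most `k < x s - k`, so the crossing of `x s` on the way
hub → `s'` has both positions in `pos s'`. -/
theorem cross_fine (P : RPl (par sat) (kk t q)) (h0 : P.x .root = 0) (X : Fin t → Bool)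
    (hX : ∀ a, |P.x (.hub a (X a))| ≤ kk t q) (s s' : Star t q)
    (hs : 2 * (kk t q : ℤ) < P.x (.star s)) (h : P.x (.star s) < P.x (.star s'))
    (hne : (cls X (.star s') : Vtx t q sat) ≠ cls X (.star s)) :
    2 ≤ (cset P (cls X) (P.x (.star s)) (cls X (.star s'))).card := by
  have hss : (.star s' : Vtx t q sat) ≠ .star s := fun h1 => hne (by rw [h1])
  cases hh : hubOf s' with
  | none =>
    have hp : par sat (.star s') = some .root := by simp [par, starPar, hh]
    exact cross_aux P (cls X) hp (by rw [h0]; omega) h (star_notMem_pos P s hss)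
      (Or.inr (by rw [h0]; omega))
  | some p =>
    have hp : par sat (.star s') = some (.hub p.1 p.2) := by simp [par, starPar, hh]
    by_cases hx : p.2 = X p.1
    · have h1 := hX p.1
      rw [← hx, abs_le] at h1
      exact cross_aux P (cls X) hp (by omega) h (star_notMem_pos P s hss)
        (Or.inr (by omega))
    · have hi : cls X (.hub p.1 p.2 : Vtx t q sat) = cls X (.star s') := by simp [cls, hh, hx]
      rcases lt_trichotomy (P.x (.hub p.1 p.2)) (P.x (.star s)) with h1 | h1 | h1
      · exact cross_aux P (cls X) hp h1 h (star_notMem_pos P s hss) (Or.inl hi)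
      · have := P.x_inj h1
        simp at this
      · rw [← hi]
        exact cross_aux P (cls X) (v := .hub p.1 p.2) (u := .root) rfl (by rw [h0]; omega) h1
          (star_notMem_pos P s (by simp)) (Or.inr (by rw [h0]; omega))

theorem own_fine (P : RPl (par sat) (kk t q)) (h0 : P.x .root = 0) (X : Fin t → Bool)
    (hX : ∀ a, |P.x (.hub a (X a))| ≤ kk t q) (s : Star t q)
    (hs : 2 * (kk t q : ℤ) < P.x (.star s)) :
    2 * kk t q - 2 * cap sat s ≤
      (cset P (cls X) (P.x (.star s)) (cls X (.star s) : Vtx t q sat)).card := by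
  apply own_aux P (cls X) s (cls_leaf X s)
  intro h
  cases hh : hubOf s with
  | none =>
    have e : starPar sat s = .root := by simp [starPar, hh]
    rw [e, h0, abs_le] at h
    omega
  | some p =>
    have e : starPar sat s = .hub p.1 p.2 := by simp [starPar, hh]
    by_cases hx : p.2 = X p.1
    · have h1 := hX p.1
      rw [← hx, abs_le] at h1
      rw [e, abs_le] at h
      omega
    · simp [starPar, hh, cls, hx]

end Pool.Agent.Lib.TopBw
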