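import Pool.Agent.Lib.TopBw.NecBase

/-!
# Centres of stars are far from each other and from the root
-/

set_option autoImplicit false

namespace Pool.Agent.Lib.TopBw

variable {t q : ℕ} {sat : Fin t → Bool → Fin q → Bool}

/-- the children of the root, listed by a sum type -/
def rootChild (t q : ℕ) (sat : Fin t → Bool → Fin q → Bool) :
    (Fin t × Bool) ⊕ Fin t ⊕ (Fin q × Fin t) ⊕ Fin (2 * q + 3) ⊕ Fin (4 * R0 t q) ⊕
      Fin (rootLeaves t q) → Vtx t q sat
  | .inl p => .hub p.1 p.2
  | .inr (.inl a) => .star (.D a)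
  | .inr (.inr (.inl p)) => .star (.F p.1 p.2)
  | .inr (.inr (.inr (.inl i))) => .star (.E i)
  | .inr (.inr (.inr (.inr (.inl i)))) => .star (.M i)
  | .inr (.inr (.inr (.inr (.inr i)))) => .rleaf i

lemma rootChild_injective : Function.Injective (rootChild t q sat) := by
  rintro (⟨a, x⟩ | a | ⟨j, i⟩ | i | i | i) (⟨a', x'⟩ | a' | ⟨j', i'⟩ | i' | i' | i') h <;>
    simp_all [rootChild]

lemma par_rootChild (c) : par sat (rootChild t q sat c) = some .root := by
  rcases c with (⟨a, x⟩ | a | ⟨j, i⟩ | i | i | i) <;> rfl

lemma exists_rootChild (v : Vtx t q sat) (h : par sat v = some .root) :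
    ∃ c, rootChild t q sat c = v := by
  cases v with
  | root => simp [par] at h
  | hub a x => exact ⟨.inl (a, x), rfl⟩
  | star s =>
    cases s with
    | D a => exact ⟨.inr (.inl a), rfl⟩
    | A a x b => simp [par, starPar, hubOf] at h
    | W a x j => simp [par, starPar, hubOf] at h
    | F j i => exact ⟨.inr (.inr (.inl (j, i))), rfl⟩
    | E i => exact ⟨.inr (.inr (.inr (.inl i))), rfl⟩
    | M i => exact ⟨.inr (.inr (.inr (.inr (.inl i)))), rfl⟩
  | rleaf i => exact ⟨.inr (.inr (.inr (.inr (.inr i)))), rfl⟩
  | sleaf s i => simp [par] at h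

/-- The root has `2 k - t` children. -/
lemma card_children_root : Nat.card {v : Vtx t q sat // par sat v = some .root} =
    2 * kk t q - t := by
  have e : ((Fin t × Bool) ⊕ Fin t ⊕ (Fin q × Fin t) ⊕ Fin (2 * q + 3) ⊕ Fin (4 * R0 t q) ⊕
      Fin (rootLeaves t q)) ≃ {v : Vtx t q sat // par sat v = some .root} :=
    Equiv.ofBijective (fun c => ⟨rootChild t q sat c, par_rootChild c⟩)
      ⟨fun c d h => rootChild_injective (congrArg Subtype.val h), fun v => by
        obtain ⟨c, hc⟩ := exists_rootChild v.1 v.2
        exact ⟨c, Subtype.ext hc⟩⟩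
  rw [← Nat.card_congr e]
  simp only [Nat.card_eq_fintype_card, Fintype.card_sum, Fintype.card_prod, Fintype.card_fin,
    Fintype.card_bool, rootLeaves, kk]
  have h1 : R0 t q = 2 * t + t * q + q + 2 := rfl
  have h2 : q * t = t * q := Nat.mul_comm q t
  omega

/-- Children of two vertices: all their first positions lie in an interval. -/
lemma two_fans {V : Type*} {pr : V → Option V} {k : ℕ} (P : RPl pr k) (u w : V)
    (A B : Finset V) (hA : ∀ v ∈ A, pr v = some u) (hB : ∀ v ∈ B, pr v = some w) (huw : u ≠ w) :
    ((A.card : ℤ) + B.card) ≤ |P.x u - P.x w| + 2 * k + 1 := by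
  classical
  have hdis : Disjoint A B := by
    rw [Finset.disjoint_left]
    intro v hv hv'
    have h1 := hA v hv
    rw [hB v hv'] at h1
    exact huw (Option.some.inj h1).symm
  have hsub : (A ∪ B).image P.nb ⊆
      Finset.Icc (min (P.x u) (P.x w) - k) (max (P.x u) (P.x w) + k) := by
    intro y hy
    obtain ⟨v, hv, rfl⟩ := Finset.mem_image.1 hy
    rw [Finset.mem_Icc]
    rcases Finset.mem_union.1 hv with hv | hv
    · have := abs_le.1 (P.nb_near (hA v hv))
      constructor
      · have := min_le_left (P.x u) (P.x w); omega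
      · have := le_max_left (P.x u) (P.x w); omega
    · have := abs_le.1 (P.nb_near (hB v hv))
      constructor
      · have := min_le_right (P.x u) (P.x w); omega
      · have := le_max_right (P.x u) (P.x w); omega
  have hc := Finset.card_le_card hsub
  rw [Finset.card_image_of_injective _ P.nb_inj, Finset.card_union_of_disjoint hdis,
    Int.card_Icc] at hc
  have h3 : max (P.x u) (P.x w) - min (P.x u) (P.x w) = |P.x u - P.x w| :=
    max_sub_min_eq_abs' _ _
  have h4 : (0 : ℤ) ≤ max (P.x u) (P.x w) + k + 1 - (min (P.x u) (P.x w) - k) := by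
    have := abs_nonneg (P.x u - P.x w)
    omega
  have h5 := Int.toNat_of_nonneg h4
  zify at hc
  rw [h5] at hc
  omega

/-- the leaves of a star -/
def leavesOf (sat : Fin t → Bool → Fin q → Bool) (s : Star t q) : Finset (Vtx t q sat) :=
  Finset.univ.map ⟨fun i : Fin (lv sat s) => Vtx.sleaf s i, fun i j h => by simpa using h⟩

lemma card_leavesOf (s : Star t q) : (leavesOf sat s).card = lv sat s := by
  simp [leavesOf]

lemma par_leavesOf (s : Star t q) : ∀ v ∈ leavesOf sat s, par sat v = some (.star s) := by
  intro v hv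
  obtain ⟨i, -, rfl⟩ := Finset.mem_map.1 hv
  rfl

/-- CHUNK NF. The centre of a star is far from the root. Proof for `x > 0` (else use `P.neg`): the
`2 k - t` positions `nb c`, `c` a child of the root, lie in `[-k, k]`, the `2 k - 2 cap - 1` positions
`nb (sleaf s i)` lie in `[x - k, x + k]`, all are different, so `4 k - t - 2 cap - 1 ≤ x + 2 k + 1`. -/
theorem far_root (P : RPl (par sat) (kk t q)) (h0 : P.x .root = 0) (s : Star t q) :
    (32 * R0 t q : ℤ) ≤ |P.x (.star s)| := by
  classical
  have hR : R0 t q = 2 * t + t * q + q + 2 := rfl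
  have hk : kk t q = 20 * R0 t q := rfl
  have hcard := card_children_root (t := t) (q := q) (sat := sat)
  have hpos : 0 < Nat.card {v : Vtx t q sat // par sat v = some .root} := by
    rw [hcard]
    omega
  have hfin : Finite {v : Vtx t q sat // par sat v = some .root} := Nat.finite_of_card_ne_zero
    hpos.ne'
  have hfin' : {v : Vtx t q sat | par sat v = some .root}.Finite := hfin
  have hA : hfin'.toFinset.card = 2 * kk t q - t := by
    rw [← hcard, ← Set.ncard_eq_toFinset_card _ hfin', ← Nat.card_coe_set_eq]
    rfl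
  have h := two_fans P .root (.star s) hfin'.toFinset (leavesOf sat s)
    (fun v hv => by simpa using hv) (par_leavesOf s) (by simp)
  rw [hA, card_leavesOf, h0, zero_sub, abs_neg] at h
  have hc := cap_le (sat := sat) s
  have hl : lv sat s = 2 * kk t q - 2 * cap sat s - 1 := rfl
  have htq := Nat.zero_le (t * q)
  omega

/-- Centres of different stars are far from each other (same argument). -/
theorem far_star (P : RPl (par sat) (kk t q)) (s s' : Star t q) (h : s ≠ s') :
    (24 * R0 t q : ℤ) ≤ |P.x (.star s) - P.x (.star s')| := by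
  have hR := R0_ge t q
  have hk : kk t q = 20 * R0 t q := rfl
  have h := two_fans P (.star s) (.star s') (leavesOf sat s) (leavesOf sat s')
    (par_leavesOf s) (par_leavesOf s') (by simpa using h)
  rw [card_leavesOf, card_leavesOf] at h
  have hc := cap_le (sat := sat) s
  have hc' := cap_le (sat := sat) s'
  have hl : lv sat s = 2 * kk t q - 2 * cap sat s - 1 := rfl
  have hl' : lv sat s' = 2 * kk t q - 2 * cap sat s' - 1 := rfl
  omega

end Pool.Agent.Lib.TopBw
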