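import Pool.Agent.Lib.TopBw.NecCross

/-!
# Exactly one hub of each variable is split at the root
-/

set_option autoImplicit false

namespace Pool.Agent.Lib.TopBw

variable {t q : ℕ} {sat : Fin t → Bool → Fin q → Bool}

/-- the hub `(a, x)` is split: its two heavy stars lie on different sides of the root -/
def Split (P : RPl (par sat) (kk t q)) (a : Fin t) (x : Bool) : Prop :=
  ¬ (0 < P.x (.star (.A a x false)) ↔ 0 < P.x (.star (.A a x true)))

/-- indices of the items of the variables: `(a, none)` is the dummy star `D a`, `(a, some x)` is the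
hub `(a, x)` -/
abbrev VI (t : ℕ) := Fin t × Option Bool

/-- the item of an index -/
def itv (sat : Fin t → Bool → Fin q → Bool) : VI t → Vtx t q sat
  | (a, none) => .star (.D a)
  | (a, some x) => .hub a x

/-- the dummy star and the heavy stars of an index -/
def stOf (q : ℕ) : VI t → Bool → Star t q
  | (a, none), _ => .D a
  | (a, some x), b => .A a x b

lemma item_stOf (c : VI t) (b : Bool) :
    item (.star (stOf q c b) : Vtx t q sat) = itv sat c := by
  rcases c with ⟨a, _ | x⟩ <;> rfl

lemma itv_inj : Function.Injective (itv (q := q) sat) := by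
  rintro ⟨a, _ | x⟩ ⟨a', _ | x'⟩ h <;> simp [itv] at h ⊢ <;> exact h

lemma cap_stOf_le (c : VI t) (b : Bool) : cap sat (stOf q c b) ≤ 2 * c.1 + 1 := by
  rcases c with ⟨a, _ | x⟩ <;> simp [stOf, cap]

lemma x_star_ne (P : RPl (par sat) (kk t q)) (h0 : P.x .root = 0) (s : Star t q) :
    P.x (.star s) ≠ 0 := by
  intro h
  have h1 := far_root P h0 s
  have h2 := R0_ge t q
  rw [h, abs_zero] at h1
  omega

open Classical in
/-- the indices of the variables up to `a` with a star on the right of the root -/
noncomputable def onR (P : RPl (par sat) (kk t q)) (a : Fin t) : Finset (VI t) :=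
  (Finset.Iic a ×ˢ Finset.univ).filter fun c => ∃ b, 0 < P.x (.star (stOf q c b))

lemma onR_le (P : RPl (par sat) (kk t q)) (h0 : P.x .root = 0) (a : Fin t) :
    (onR P a).card ≤ 2 * a + 2 ∧ ((∀ x, ¬ Split P a x) → (onR P a).card ≤ 2 * a + 1) := by
  classical
  by_cases hR : (onR P a) = ∅
  · rw [hR]; simp
  let S : Finset (VI t × Bool) := ((Finset.Iic a ×ˢ Finset.univ) ×ˢ Finset.univ).filter
    fun d => 0 < P.x (.star (stOf q d.1 d.2))
  have hS : S.Nonempty := by
    obtain ⟨c, hc⟩ := Finset.nonempty_iff_ne_empty.2 hR
    unfold onR at hc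
    rw [Finset.mem_filter] at hc
    obtain ⟨hc1, b, hb⟩ := hc
    refine ⟨(c, b), ?_⟩
    simp only [S, Finset.mem_filter, Finset.mem_product, Finset.mem_univ, and_true] at hc1 ⊢
    exact ⟨hc1, hb⟩
  obtain ⟨⟨c, b⟩, hd, hmin⟩ := S.exists_min_image (fun d => P.x (.star (stOf q d.1 d.2))) hS
  simp only [S, Finset.mem_filter, Finset.mem_product, Finset.mem_univ, and_true,
    Finset.mem_Iic] at hd hmin
  obtain ⟨hca, hpos⟩ := hd
  have hcR : c ∈ onR P a := by
    unfold onR
    rw [Finset.mem_filter]
    exact ⟨by simp [hca], b, hpos⟩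
  let I : Finset (Vtx t q sat) := ((onR P a).image (itv sat)).erase (itv sat c)
  have hIc : I.card + 1 = (onR P a).card := by
    have h1 : itv sat c ∈ (onR P a).image (itv sat) := Finset.mem_image_of_mem _ hcR
    have h2 := Finset.card_erase_add_one h1
    rw [Finset.card_image_of_injective _ itv_inj] at h2
    exact h2
  have hI : ∀ v ∈ I, v ≠ item (.star (stOf q c b)) ∧ ∃ s' : Star t q, item (.star s') = v ∧
      P.x (.star (stOf q c b)) < P.x (.star s') := by
    intro v hv
    simp only [I, Finset.mem_erase, Finset.mem_image] at hv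
    obtain ⟨hne, c', hc', rfl⟩ := hv
    refine ⟨by rw [item_stOf]; exact hne, ?_⟩
    unfold onR at hc'
    rw [Finset.mem_filter] at hc'
    obtain ⟨hc1, b', hb'⟩ := hc'
    refine ⟨stOf q c' b', item_stOf c' b', ?_⟩
    have h1 := hmin (c', b') ⟨by simpa using hc1, hb'⟩
    refine lt_of_le_of_ne h1 fun h2 => hne ?_
    have h3 := P.x_inj h2
    have h4 := congrArg item h3
    rw [item_stOf, item_stOf] at h4
    exact h4.symm
  have hb1 := right_bound P h0 (stOf q c b) hpos I hI
  have hcap := cap_stOf_le (sat := sat) (q := q) c b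
  have hca' : (c.1 : ℕ) ≤ a := hca
  refine ⟨by omega, fun hns => ?_⟩
  rcases hca'.lt_or_eq with hlt | heq
  · omega
  · obtain ⟨a', o⟩ := c
    have ha' : a' = a := Fin.ext heq
    subst ha'
    rcases o with _ | x
    · have : cap sat (stOf q ((a', none) : VI t) b) = 2 * a' := rfl
      omega
    · have h5 : 0 < P.x (.star (stOf q ((a', some x) : VI t) (!b))) := by
        have h6 := hns x
        unfold Split at h6
        push Not at h6
        cases b
        · exact h6.1 hpos
        · exact h6.2 hpos
      have h7 := hmin ((a', some x), !b) ⟨le_rfl, h5⟩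
      have h8 : P.x (.star (stOf q ((a', some x) : VI t) b)) <
          P.x (.star (stOf q ((a', some x) : VI t) (!b))) := by
        refine lt_of_le_of_ne h7 fun h9 => ?_
        have h10 := P.x_inj h9
        simp [stOf] at h10
      have h11 := right_bound_sib P h0 (stOf q ((a', some x) : VI t) b) hpos I hI
        ⟨stOf q ((a', some x) : VI t) (!b), by rw [item_stOf, item_stOf], h8⟩
      have h12 : cap sat (stOf q ((a', some x) : VI t) b) = 2 * a' + 1 := rfl
      omega

lemma split_neg (P : RPl (par sat) (kk t q)) (h0 : P.x .root = 0) (a : Fin t) (x : Bool) :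
    Split P.neg a x ↔ Split P a x := by
  unfold Split
  rw [RPl.neg_x, RPl.neg_x]
  have h1 := x_star_ne P h0 (.A a x false)
  have h2 := x_star_ne P h0 (.A a x true)
  have h3 : 0 < - P.x (.star (.A a x false)) ↔ ¬ 0 < P.x (.star (.A a x false)) := by omega
  have h4 : 0 < - P.x (.star (.A a x true)) ↔ ¬ 0 < P.x (.star (.A a x true)) := by omega
  rw [h3, h4]
  tauto

open Classical in
lemma onR_add (P : RPl (par sat) (kk t q)) (h0 : P.x .root = 0) (a : Fin t) :
    (onR P a).card + (onR P.neg a).card = 3 * (a + 1) +
      ∑ a' ∈ Finset.Iic a, ((if Split P a' false then 1 else 0) +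
        (if Split P a' true then 1 else 0)) := by
  have key : ∀ c : VI t, (if ∃ b, 0 < P.x (.star (stOf q c b)) then 1 else 0) +
      (if ∃ b, 0 < P.neg.x (.star (stOf q c b)) then 1 else 0) =
      1 + (match c.2 with | none => 0 | some x => if Split P c.1 x then 1 else 0) := by
    rintro ⟨a', _ | x⟩
    · have h1 := x_star_ne P h0 (.D a')
      simp only [stOf, RPl.neg_x, exists_const, neg_pos]
      by_cases h2 : 0 < P.x (.star (.D a'))
      · have h3 : ¬ P.x (.star (.D a')) < 0 := by omega
        simp only [h2, h3, if_true, if_false]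
      · have h3 : P.x (.star (.D a')) < 0 := by omega
        simp only [h2, h3, if_true, if_false]
    · have h1 := x_star_ne P h0 (.A a' x false)
      have h2 := x_star_ne P h0 (.A a' x true)
      simp only [stOf, RPl.neg_x, Bool.exists_bool, Split, neg_pos]
      by_cases h3 : 0 < P.x (.star (.A a' x false))
      · by_cases h4 : 0 < P.x (.star (.A a' x true))
        · have h5 : ¬ P.x (.star (.A a' x false)) < 0 := by omega
          have h6 : ¬ P.x (.star (.A a' x true)) < 0 := by omega
          simp [h3, h4, h5, h6]
        · have h5 : ¬ P.x (.star (.A a' x false)) < 0 := by omega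
          have h6 : P.x (.star (.A a' x true)) < 0 := by omega
          simp [h3, h4, h5, h6]
      · by_cases h4 : 0 < P.x (.star (.A a' x true))
        · have h5 : P.x (.star (.A a' x false)) < 0 := by omega
          have h6 : ¬ P.x (.star (.A a' x true)) < 0 := by omega
          simp [h3, h4, h5, h6]
        · have h5 : P.x (.star (.A a' x false)) < 0 := by omega
          have h6 : P.x (.star (.A a' x true)) < 0 := by omega
          simp [h3, h4, h5, h6]
  unfold onR
  rw [Finset.card_filter, Finset.card_filter, ← Finset.sum_add_distrib,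
    Finset.sum_congr rfl (fun c _ => key c), Finset.sum_add_distrib, Finset.sum_product]
  congr 1
  · simp
    ring
  · rw [Finset.sum_product]
    refine Finset.sum_congr rfl fun a' _ => ?_
    rw [Fintype.sum_option, Fintype.sum_bool]
    show 0 + ((if Split P a' true then 1 else 0) + (if Split P a' false then 1 else 0)) = _
    omega

/-- CHUNK NS1. Exactly one hub of each variable is split.

Strong induction on `a`. Consider the `3 (a + 1)` items `star (D a')`, `hub a' x`, `a' ≤ a`, and
their stars `D a'`, `A a' x b`. Let `nR` (`nL`) be the number of these items which have one of these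
stars on the right (left) of the root. Then `nR + nL ≥ 3 (a + 1) +` the number of split hubs among
them. If `s` is the star nearest to the root on the right, then all the other items counted in `nR`
are beyond `s`, so `nR ≤ cap s + 1 ≤ 2 a + 2` (`right_bound`). If no hub of the variable `a` is split
then `nR ≤ 2 a + 1`: for a star of a variable `< a` since `cap s ≤ 2 a - 1`, for `s = D a` since
`cap s = 2 a`, and for `s = A a x b` by `right_bound_sib`, as its sibling is beyond `s`. The same on
the left, by `P.neg` (all positions of stars are `≠ 0`, `far_root`). By induction exactly `a` of the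
hubs of the variables `< a` are split; if none of `a` is split: `3 a + 3 + a ≤ 4 a + 2`, a
contradiction; if both are split: `3 a + 3 + a + 2 ≤ 4 a + 4`, a contradiction. -/
theorem split_unique (P : RPl (par sat) (kk t q)) (h0 : P.x .root = 0) (a : Fin t) :
    ∃! x, Split P a x := by
  classical
  induction a using WellFoundedLT.induction with
  | _ a ih =>
  have h0' : P.neg.x .root = 0 := by rw [RPl.neg_x, h0]; rfl
  obtain ⟨hR, hR'⟩ := onR_le P h0 a
  obtain ⟨hL, hL'⟩ := onR_le P.neg h0' a
  have hadd := onR_add P h0 a
  have hone : ∀ a' ∈ Finset.Iio a, ((if Split P a' false then 1 else 0) +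
      (if Split P a' true then 1 else 0)) = 1 := by
    intro a' ha'
    obtain ⟨x, hx, hu⟩ := ih a' (Finset.mem_Iio.1 ha')
    cases x
    · have h1 : ¬ Split P a' true := fun h => by simpa using hu true h
      simp [hx, h1]
    · have h1 : ¬ Split P a' false := fun h => by simpa using hu false h
      simp [hx, h1]
  rw [← Finset.Iio_insert a, Finset.sum_insert (by simp), Finset.sum_congr rfl hone,
    Finset.sum_const, Fin.card_Iio, smul_eq_mul, mul_one] at hadd
  by_cases hf : Split P a false
  · by_cases ht : Split P a true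
    · exfalso
      rw [if_pos hf, if_pos ht] at hadd
      omega
    · refine ⟨false, hf, fun y hy => ?_⟩
      cases y
      · rfl
      · exact absurd hy ht
  · by_cases ht : Split P a true
    · refine ⟨true, ht, fun y hy => ?_⟩
      cases y
      · exact absurd hy hf
      · rfl
    · exfalso
      have hns : ∀ x, ¬ Split P a x := by
        intro x; cases x <;> assumption
      have h1 := hR' hns
      have h2 := hL' (fun x hx => hns x ((split_neg P h0 a x).1 hx))
      rw [if_neg hf, if_neg ht] at hadd
      omega

/-- the classes for the zone of the root: the heavy stars of a variable, and everything else -/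
def nsCls : Vtx t q sat → Option (Fin t)
  | .star (.A a _ _) => some a
  | _ => none

lemma ns_children (P : RPl (par sat) (kk t q)) (h0 : P.x .root = 0) :
    2 * kk t q - t ≤ (cset P nsCls 0 none).card := by
  classical
  rw [← card_children_root (t := t) (q := q) (sat := sat)]
  have h1 : ∀ v : {v : Vtx t q sat // par sat v = some .root}, P.nb v.1 ∈ cset P nsCls 0 none := by
    rintro ⟨v, hv⟩
    rw [mem_cset, mem_zone]
    have h2 := P.nb_near hv
    rw [h0, sub_zero, abs_le] at h2
    refine ⟨⟨?_, by linarith [h2.1], by linarith [h2.2]⟩, v, ?_, P.nb_mem_pos v⟩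
    · intro h
      have h3 : v = .root := P.pos_eq (P.nb_mem_pos v) (by
        rw [h, ← h0]
        exact P.x_mem_pos .root)
      rw [h3] at hv
      simp [par] at hv
    · cases v with
      | root => rfl
      | hub a x => rfl
      | star s =>
        simp only [par, Option.some.injEq, starPar] at hv
        cases s <;> simp [hubOf] at hv <;> rfl
      | rleaf i => rfl
      | sleaf s i => rfl
  have h2 := Nat.card_le_card_of_injective
    (fun v : {v : Vtx t q sat // par sat v = some .root} =>
      (⟨P.nb v.1, h1 v⟩ : (cset P nsCls 0 none : Finset ℤ)))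
    (fun v w h => Subtype.ext (P.nb_inj (congrArg Subtype.val h)))
  rw [Nat.card_eq_fintype_card (α := (cset P nsCls 0 none : Finset ℤ)), Fintype.card_coe] at h2
  exact h2

/-- the positions of a heavy star of a split hub on both sides of the root -/
lemma ns_cross (P : RPl (par sat) (kk t q)) (h0 : P.x .root = 0) (a : Fin t) (x : Bool)
    (h : Split P a x) : ∃ b y z, (y = P.x (.hub a x) ∨ y ∈ P.pos (.star (.A a x b))) ∧
      (z = P.x (.hub a x) ∨ z ∈ P.pos (.star (.A a x b))) ∧
      (y ∈ P.pos (.star (.A a x b)) ∨ z ∈ P.pos (.star (.A a x b))) ∧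
      y < 0 ∧ 0 < z ∧ z - y ≤ kk t q := by
  have hpar : ∀ b, par sat (.star (.A a x b)) = some (.hub a x) := fun b => rfl
  have hz : ∀ b, (0 : ℤ) ∉ P.pos (.star (.A a x b)) := by
    intro b hb
    rw [← h0] at hb
    have := P.pos_eq (P.x_mem_pos .root) hb
    simp at this
  have hne : ∀ b, P.x (.star (.A a x b)) ≠ 0 := by
    intro b hb
    exact hz b (hb ▸ P.x_mem_pos _)
  have hu : P.x (.hub a x) ≠ 0 := by
    intro hb
    have := P.x_inj (hb.trans h0.symm)
    simp at this
  -- there is a heavy star on each side
  have hpos : ∃ b, 0 < P.x (.star (.A a x b)) := by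
    by_contra hcon
    have h1 : ∀ b, ¬ 0 < P.x (.star (.A a x b)) := fun b hb => hcon ⟨b, hb⟩
    exact h ⟨fun h2 => absurd h2 (h1 false), fun h2 => absurd h2 (h1 true)⟩
  have hneg : ∃ b, P.x (.star (.A a x b)) < 0 := by
    by_contra hcon
    have h1 : ∀ b, 0 < P.x (.star (.A a x b)) := by
      intro b
      rcases lt_trichotomy (P.x (.star (.A a x b))) 0 with h2 | h2 | h2
      · exact absurd ⟨b, h2⟩ hcon
      · exact absurd h2 (hne b)
      · exact h2
    exact h ⟨fun _ => h1 true, fun _ => h1 false⟩
  rcases lt_or_gt_of_ne hu with h1 | h1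
  · obtain ⟨b, hb⟩ := hpos
    obtain ⟨y, z, hy, hz', hy0, hz0, hd⟩ := P.cross_up (hpar b) h1 hb (hz b)
    exact ⟨b, y, z, hy, Or.inr hz', Or.inr hz', hy0, hz0, hd⟩
  · obtain ⟨b, hb⟩ := hneg
    obtain ⟨y, z, hy, hz', hy0, hz0, hd⟩ := P.cross_down (hpar b) hb h1 (hz b)
    exact ⟨b, y, z, Or.inr hy, hz', Or.inl hy, hy0, hz0, hd⟩

/-- CHUNK NS2. A split hub is at distance at most `k` from the root.

The zone of the root has `2 k` positions; the `2 k - t` positions `nb c`, `c` a child of the root, are
in it (`card_children_root`, `nb_near`). For each split hub `u = hub a x` the way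
`A a x false - u - A a x true` has consecutive positions `y < 0 < z`, `z - y ≤ k` (`cross_up` or
`cross_down` for the star on the other side than `x u`; if `u` is right of `0`, take the star on the
left). At most one of `y`, `z` is `x u`, and the other ones are in `pos` of a star `A a x b`, so they
are not of the form `nb c`. If `|x u₀| > k` for one split hub `u₀` then both `y` and `z` are in `pos`
of stars for `u₀`, in total `2 k - t + (t - 1) + 2 > 2 k` positions, a contradiction. (Use
`split_unique` to have a split hub for each variable.) -/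
theorem split_near (P : RPl (par sat) (kk t q)) (h0 : P.x .root = 0) (a : Fin t) (x : Bool)
    (h : Split P a x) : |P.x (.hub a x)| ≤ kk t q := by
  classical
  by_contra hcon
  rw [not_le] at hcon
  have hzone : ∀ (y z : ℤ), y < 0 → 0 < z → z - y ≤ kk t q → y ∈ zone (kk t q) 0 ∧
      z ∈ zone (kk t q) 0 := by
    intro y z h1 h2 h3
    rw [mem_zone, mem_zone]
    exact ⟨⟨h1.ne, by linarith, by linarith⟩, ⟨h2.ne', by linarith, by linarith⟩⟩
  have hone : ∀ a', 1 ≤ (cset P nsCls 0 (some a')).card := by
    intro a'
    obtain ⟨x', hx', _⟩ := split_unique P h0 a'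
    obtain ⟨b, y, z, _, _, hyz, hy0, hz0, hd⟩ := ns_cross P h0 a' x' hx'
    rw [Nat.one_le_iff_ne_zero, Finset.card_ne_zero]
    rcases hyz with h1 | h1
    · exact ⟨y, mem_cset.2 ⟨(hzone y z hy0 hz0 hd).1, _, rfl, h1⟩⟩
    · exact ⟨z, mem_cset.2 ⟨(hzone y z hy0 hz0 hd).2, _, rfl, h1⟩⟩
  have htwo : 2 ≤ (cset P nsCls 0 (some a)).card := by
    obtain ⟨b, y, z, hy, hz, _, hy0, hz0, hd⟩ := ns_cross P h0 a x h
    have hy' : y ∈ P.pos (.star (.A a x b)) := by
      rcases hy with h1 | h1
      · exfalso
        rw [← h1, abs_of_neg hy0] at hcon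
        linarith
      · exact h1
    have hz' : z ∈ P.pos (.star (.A a x b)) := by
      rcases hz with h1 | h1
      · exfalso
        rw [← h1, abs_of_pos hz0] at hcon
        linarith
      · exact h1
    have h1 : ({y, z} : Finset ℤ) ⊆ cset P nsCls 0 (some a) := by
      intro w hw
      rw [Finset.mem_insert, Finset.mem_singleton] at hw
      rcases hw with rfl | rfl
      · exact mem_cset.2 ⟨(hzone _ _ hy0 hz0 hd).1, _, rfl, hy'⟩
      · exact mem_cset.2 ⟨(hzone _ _ hy0 hz0 hd).2, _, rfl, hz'⟩
    have h2 := Finset.card_le_card h1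
    rwa [Finset.card_pair (by linarith : y ≠ z)] at h2
  have hsum := sum_cset_le P nsCls 0 (Finset.univ : Finset (Option (Fin t)))
  rw [Fintype.sum_option] at hsum
  have h1 := ns_children P h0
  have h2 : ∑ a' : Fin t, (if a' = a then 2 else 1) ≤
      ∑ a' : Fin t, (cset P nsCls 0 (some a')).card := by
    apply Finset.sum_le_sum
    intro a' _
    split_ifs with h3
    · rw [h3]; exact htwo
    · exact hone a'
  have h3 : ∑ a' : Fin t, (if a' = a then 2 else 1) = t + 1 := by
    have h4 : ∀ a' : Fin t, (if a' = a then 2 else 1) = 1 + (if a' = a then 1 else 0) := by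
      intro a'; split_ifs <;> rfl
    simp only [h4, Finset.sum_add_distrib]
    simp
  have h4 : t ≤ 2 * kk t q := by unfold kk R0; omega
  omega

end Pool.Agent.Lib.TopBw
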