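import Pool.Agent.Lib.TopBw.Defs

/-!
# Placements

A placement of a graph `G` on the line with span `k`: positions `x v` of the vertices, and for each
edge `uv` the list `P u v` of the positions of the subdividing vertices from `u` to `v`, such that
consecutive positions differ by at most `k` and all positions are different. Then
`b*(G) ≤ k` iff there is a placement.
-/

set_option autoImplicit false

namespace Pool.Agent.Lib.TopBw

/-- A placement of `G` on the line, with steps at most `k`. -/
structure Placement {V : Type*} (G : SimpleGraph V) (k : ℕ) where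
  /-- positions of the vertices -/
  x : V → ℤ
  /-- positions of the subdividing vertices, from `u` to `v` -/
  P : V → V → List ℤ
  symm : ∀ u v, G.Adj u v → P v u = (P u v).reverse
  chain : ∀ u v, G.Adj u v → List.IsChain (fun a b : ℤ => |a - b| ≤ k) (x u :: (P u v ++ [x v]))
  inj : Function.Injective x
  nodup : ∀ u v, G.Adj u v → (P u v).Nodup
  avoid : ∀ u v w, G.Adj u v → x w ∉ P u v
  disj : ∀ u v u' v', G.Adj u v → G.Adj u' v' → ∀ y, y ∈ P u v → y ∈ P u' v' →
    s(u, v) = s(u', v')

/-- every finite graph has a bandwidth -/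
theorem hasBandwidthLE_bandwidth {V : Type*} [Finite V] (G : SimpleGraph V) :
    HasBandwidthLE G (bandwidth G) := by
  unfold bandwidth
  refine Nat.sInf_mem (s := {b | HasBandwidthLE G b}) ⟨Nat.card V, Finite.equivFin V, ?_⟩
  intro u v _
  have h1 := (Finite.equivFin V u).2
  have h2 := (Finite.equivFin V v).2
  rw [abs_le]
  constructor <;> omega

/-- the number of the vertex `pathVert G ℓ e s` in the list of the numbers along the way that
replaces the edge `e` -/
theorem pathVert_getElem {n : ℕ} (G : SimpleGraph (Fin n)) (ℓ : EdgeOf G → ℕ)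
    (f : RefVert G ℓ → ℤ) (e : EdgeOf G) (L : List ℤ) (hL : L.length = ℓ e)
    (hf : ∀ (i : Fin (ℓ e)), f (Sum.inr ⟨e, i⟩) = L[(i : ℕ)]'(by rw [hL]; exact i.2))
    (s : ℕ) (hs : s < (f (Sum.inl e.1.1) :: (L ++ [f (Sum.inl e.1.2)])).length) :
    (f (Sum.inl e.1.1) :: (L ++ [f (Sum.inl e.1.2)]))[s] = f (pathVert G ℓ e s) := by
  unfold pathVert
  cases s with
  | zero => simp
  | succ s =>
    simp only [List.getElem_cons_succ, Nat.add_sub_cancel, Nat.succ_ne_zero, if_false]
    by_cases h : s < ℓ e
    · rw [dif_pos h, List.getElem_append_left (by omega), hf ⟨s, h⟩]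
    · rw [dif_neg h, List.getElem_append_right (by omega)]
      simp

/-- CHUNK PL1 (first half). From a numbering of a refinement to a placement. -/
theorem placement_of_topBandwidth_le {n : ℕ} (G : SimpleGraph (Fin n)) (k : ℕ)
    (h : topBandwidth G ≤ k) : Nonempty (Placement G k) := by
  classical
  have hmem : topBandwidth G ∈ {b | ∃ ℓ : EdgeOf G → ℕ, b = bandwidth (refinement G ℓ)} :=
    Nat.sInf_mem ⟨_, fun _ => 0, rfl⟩
  obtain ⟨ℓ, hℓ⟩ := hmem
  obtain ⟨π, hπ⟩ := hasBandwidthLE_bandwidth (refinement G ℓ)
  rw [← hℓ] at hπ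
  let f : RefVert G ℓ → ℤ := fun v => ((π v : ℕ) : ℤ)
  have hf : Function.Injective f := by
    intro a b hab
    have h1 : ((π a : ℕ) : ℤ) = ((π b : ℕ) : ℤ) := hab
    exact π.injective (Fin.ext (by exact_mod_cast h1))
  have hadj : ∀ (e : EdgeOf G) (s : ℕ), s ≤ ℓ e →
      |f (pathVert G ℓ e s) - f (pathVert G ℓ e (s + 1))| ≤ k := by
    intro e s hs
    by_cases he : pathVert G ℓ e s = pathVert G ℓ e (s + 1)
    · rw [he]; simp
    · have h1 : (refinement G ℓ).Adj (pathVert G ℓ e s) (pathVert G ℓ e (s + 1)) := by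
        unfold refinement
        rw [SimpleGraph.fromRel_adj]
        exact ⟨he, Or.inl ⟨e, s, hs, rfl, rfl⟩⟩
      have h2 := hπ _ _ h1
      have h3 : ((topBandwidth G : ℕ) : ℤ) ≤ k := by exact_mod_cast h
      exact h2.trans h3
  let Q : EdgeOf G → List ℤ := fun e => List.ofFn fun i : Fin (ℓ e) => f (Sum.inr ⟨e, i⟩)
  have hQlen : ∀ e, (Q e).length = ℓ e := fun e => by simp [Q]
  have hQmem : ∀ e y, y ∈ Q e ↔ ∃ i : Fin (ℓ e), f (Sum.inr ⟨e, i⟩) = y := by
    intro e y
    simp [Q, List.mem_ofFn]
  have hQchain : ∀ e : EdgeOf G, List.IsChain (fun a b : ℤ => |a - b| ≤ k)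
      (f (Sum.inl e.1.1) :: (Q e ++ [f (Sum.inl e.1.2)])) := by
    intro e
    rw [List.isChain_iff_getElem]
    intro s hs
    rw [pathVert_getElem G ℓ f e (Q e) (hQlen e) (fun i => by simp [Q]) s,
      pathVert_getElem G ℓ f e (Q e) (hQlen e) (fun i => by simp [Q]) (s + 1)]
    refine hadj e s ?_
    simp only [List.length_cons, List.length_append, hQlen, List.length_nil] at hs
    omega
  let P : Fin n → Fin n → List ℤ := fun u v =>
    if h : u < v ∧ G.Adj u v then Q ⟨(u, v), h⟩
    else if h : v < u ∧ G.Adj v u then (Q ⟨(v, u), h⟩).reverse else []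
  have hP1 : ∀ u v (h : u < v ∧ G.Adj u v), P u v = Q ⟨(u, v), h⟩ := by
    intro u v h
    simp only [P, dif_pos h]
  have hP2 : ∀ u v (h : v < u ∧ G.Adj v u), P u v = (Q ⟨(v, u), h⟩).reverse := by
    intro u v h
    have h' : ¬ (u < v ∧ G.Adj u v) := fun h'' => lt_asymm h.1 h''.1
    simp only [P, dif_neg h', dif_pos h]
  have hPmem : ∀ u v, G.Adj u v → ∀ y, y ∈ P u v → ∃ (e : EdgeOf G) (i : Fin (ℓ e)),
      s(e.1.1, e.1.2) = s(u, v) ∧ f (Sum.inr ⟨e, i⟩) = y := by
    intro u v huv y hy
    rcases lt_or_gt_of_ne huv.ne with h | h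
    · rw [hP1 u v ⟨h, huv⟩, hQmem] at hy
      obtain ⟨i, hi⟩ := hy
      exact ⟨_, i, rfl, hi⟩
    · rw [hP2 u v ⟨h, huv.symm⟩, List.mem_reverse, hQmem] at hy
      obtain ⟨i, hi⟩ := hy
      exact ⟨_, i, Sym2.eq_swap, hi⟩
  refine ⟨⟨fun v => f (Sum.inl v), P, ?_, ?_, ?_, ?_, ?_, ?_⟩⟩
  · intro u v huv
    rcases lt_or_gt_of_ne huv.ne with h | h
    · rw [hP1 u v ⟨h, huv⟩, hP2 v u ⟨h, huv⟩]
    · rw [hP2 u v ⟨h, huv.symm⟩, hP1 v u ⟨h, huv.symm⟩, List.reverse_reverse]
  · intro u v huv
    rcases lt_or_gt_of_ne huv.ne with h | h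
    · rw [hP1 u v ⟨h, huv⟩]
      exact hQchain ⟨(u, v), ⟨h, huv⟩⟩
    · rw [hP2 u v ⟨h, huv.symm⟩]
      have h1 := hQchain ⟨(v, u), ⟨h, huv.symm⟩⟩
      have h2 : f (Sum.inl u) :: ((Q ⟨(v, u), ⟨h, huv.symm⟩⟩).reverse ++ [f (Sum.inl v)]) =
          (f (Sum.inl v) :: (Q ⟨(v, u), ⟨h, huv.symm⟩⟩ ++ [f (Sum.inl u)])).reverse := by
        simp
      rw [h2, List.isChain_reverse]
      refine h1.imp ?_
      intro a b hab
      rw [abs_sub_comm]
      exact hab
  · intro a b hab
    exact Sum.inl_injective (hf hab)
  · intro u v huv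
    have hn : ∀ e, (Q e).Nodup := by
      intro e
      refine List.nodup_ofFn.2 ?_
      intro i j hij
      have h1 := Sum.inr_injective (hf hij)
      simpa using h1
    rcases lt_or_gt_of_ne huv.ne with h | h
    · rw [hP1 u v ⟨h, huv⟩]
      exact hn _
    · rw [hP2 u v ⟨h, huv.symm⟩, List.nodup_reverse]
      exact hn _
  · intro u v w huv hw
    obtain ⟨e, i, -, hi⟩ := hPmem u v huv _ hw
    have := hf hi
    simp at this
  · intro u v u' v' huv huv' y hy hy'
    obtain ⟨e, i, he, hi⟩ := hPmem u v huv _ hy
    obtain ⟨e', i', he', hi'⟩ := hPmem u' v' huv' _ hy'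
    have h1 := Sum.inr_injective (hf (hi.trans hi'.symm))
    have h2 : e = e' := congrArg Sigma.fst h1
    rw [← he, ← he', h2]

/-- Numbering from left to right: a finite graph on integer positions with all edges of length
`≤ k` has bandwidth at most `k`. -/
theorem hasBandwidthLE_of_pos {V : Type*} [Finite V] (G : SimpleGraph V) (k : ℕ) (f : V → ℤ)
    (hf : Function.Injective f) (hk : ∀ u v, G.Adj u v → |f u - f v| ≤ k) :
    HasBandwidthLE G k := by
  classical
  have := Fintype.ofFinite V
  let c : V → Finset V := fun v => Finset.univ.filter fun w => f w < f v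
  have hc : ∀ v, (c v).card < Nat.card V := by
    intro v
    rw [Nat.card_eq_fintype_card, ← Finset.card_univ]
    refine Finset.card_lt_card ⟨Finset.subset_univ _, fun h => ?_⟩
    have h1 := h (Finset.mem_univ v)
    simp [c] at h1
  have hmono : ∀ u v, f u < f v → (c u).card < (c v).card := by
    intro u v huv
    refine Finset.card_lt_card ⟨?_, fun h => ?_⟩
    · intro w hw
      simp only [c, Finset.mem_filter, Finset.mem_univ, true_and] at hw ⊢
      exact hw.trans huv
    · have h1 : u ∈ c v := by simpa [c] using huv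
      have h2 := h h1
      simp [c] at h2
  let g : V → Fin (Nat.card V) := fun v => ⟨(c v).card, hc v⟩
  have hg : Function.Injective g := by
    intro u v huv
    have h1 : (c u).card = (c v).card := congrArg Fin.val huv
    rcases lt_trichotomy (f u) (f v) with h | h | h
    · exact absurd h1 (hmono u v h).ne
    · exact hf h
    · exact absurd h1 (hmono v u h).ne'
  have hgb : Function.Bijective g := by
    rw [Fintype.bijective_iff_injective_and_card]
    exact ⟨hg, by simp [Nat.card_eq_fintype_card]⟩
  have hdiff : ∀ u v, f u ≤ f v → (((c v).card : ℤ) - (c u).card) ≤ f v - f u := by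
    intro u v huv
    have h1 : c v ⊆ c u ∪ Finset.univ.filter fun w => f u ≤ f w ∧ f w < f v := by
      intro w hw
      simp only [c, Finset.mem_union, Finset.mem_filter, Finset.mem_univ, true_and] at hw ⊢
      by_cases h : f w < f u
      · exact Or.inl h
      · exact Or.inr ⟨not_lt.1 h, hw⟩
    have h2 := (Finset.card_le_card h1).trans (Finset.card_union_le _ _)
    have h3 : (Finset.univ.filter fun w => f u ≤ f w ∧ f w < f v).card ≤
        (Finset.Ico (f u) (f v)).card := by
      refine Finset.card_le_card_of_injOn f ?_ hf.injOn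
      intro w hw
      simpa using hw
    rw [Int.card_Ico] at h3
    have h4 : (((f v - f u).toNat : ℕ) : ℤ) = f v - f u := Int.toNat_of_nonneg (by omega)
    omega
  refine ⟨Equiv.ofBijective g hgb, ?_⟩
  intro u v huv
  have h1 := hk u v huv
  show |(((c u).card : ℕ) : ℤ) - (((c v).card : ℕ) : ℤ)| ≤ k
  rcases lt_trichotomy (f u) (f v) with h | h | h
  · have h2 := hdiff u v h.le
    have h3 := hmono u v h
    rw [abs_le] at h1 ⊢
    constructor <;> omega
  · rw [hf h]; simp
  · have h2 := hdiff v u h.le
    have h3 := hmono v u h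
    rw [abs_le] at h1 ⊢
    constructor <;> omega

/-- CHUNK PL2 (second half). From a placement to a numbering: put `ℓ e` = length of the list, number
the positions that occur from left to right (this only decreases distances). -/
theorem topBandwidth_le_of_placement {n : ℕ} (G : SimpleGraph (Fin n)) (k : ℕ)
    (h : Nonempty (Placement G k)) : topBandwidth G ≤ k := by
  classical
  obtain ⟨p⟩ := h
  let ℓ : EdgeOf G → ℕ := fun e => (p.P e.1.1 e.1.2).length
  let f : RefVert G ℓ → ℤ := fun v => match v with
    | Sum.inl v => p.x v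
    | Sum.inr ⟨e, i⟩ => (p.P e.1.1 e.1.2)[(i : ℕ)]'i.2
  have hf : Function.Injective f := by
    rintro (u | ⟨e, i⟩) (v | ⟨e', i'⟩) huv
    · exact congrArg _ (p.inj huv)
    · exfalso
      have h1 : p.x u = (p.P e'.1.1 e'.1.2)[(i' : ℕ)]'i'.2 := huv
      refine p.avoid e'.1.1 e'.1.2 u e'.2.2 ?_
      rw [h1]
      exact List.getElem_mem _
    · exfalso
      have h1 : (p.P e.1.1 e.1.2)[(i : ℕ)]'i.2 = p.x v := huv
      refine p.avoid e.1.1 e.1.2 v e.2.2 ?_
      rw [← h1]
      exact List.getElem_mem _
    · have h1 : (p.P e.1.1 e.1.2)[(i : ℕ)]'i.2 = (p.P e'.1.1 e'.1.2)[(i' : ℕ)]'i'.2 := huv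
      have h0 : (p.P e.1.1 e.1.2)[(i : ℕ)]'i.2 ∈ p.P e'.1.1 e'.1.2 := by
        rw [h1]
        exact List.getElem_mem _
      have h2 := p.disj e.1.1 e.1.2 e'.1.1 e'.1.2 e.2.2 e'.2.2 _ (List.getElem_mem _) h0
      have h3 : e = e' := by
        rw [Sym2.eq_iff] at h2
        rcases h2 with h2 | h2
        · exact Subtype.ext (Prod.ext h2.1 h2.2)
        · exfalso
          have h4 := e.2.1
          rw [h2.1, h2.2] at h4
          exact lt_asymm h4 e'.2.1
      subst h3
      have h4 := (List.Nodup.getElem_inj_iff (p.nodup _ _ e.2.2)).1 h1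
      have h5 : i = i' := Fin.ext h4
      rw [h5]
  have hadj : ∀ (e : EdgeOf G) (s : ℕ), s ≤ ℓ e →
      |f (pathVert G ℓ e s) - f (pathVert G ℓ e (s + 1))| ≤ k := by
    intro e s hs
    have hs : s ≤ (p.P e.1.1 e.1.2).length := hs
    have h1 := p.chain e.1.1 e.1.2 e.2.2
    rw [List.isChain_iff_getElem] at h1
    have h2 := h1 s (by simp only [List.length_cons, List.length_append, List.length_nil]; omega)
    have h3 := pathVert_getElem G ℓ f e (p.P e.1.1 e.1.2) rfl (fun i => rfl) s
      (by simp only [List.length_cons, List.length_append, List.length_nil]; omega)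
    have h4 := pathVert_getElem G ℓ f e (p.P e.1.1 e.1.2) rfl (fun i => rfl) (s + 1)
      (by simp only [List.length_cons, List.length_append, List.length_nil]; omega)
    rw [← h3, ← h4]
    exact h2
  have hband : HasBandwidthLE (refinement G ℓ) k := by
    refine hasBandwidthLE_of_pos _ k f hf ?_
    intro u v huv
    unfold refinement at huv
    rw [SimpleGraph.fromRel_adj] at huv
    rcases huv.2 with ⟨e, s, hs, rfl, rfl⟩ | ⟨e, s, hs, rfl, rfl⟩
    · exact hadj e s hs
    · rw [abs_sub_comm]
      exact hadj e s hs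
  have h1 : bandwidth (refinement G ℓ) ≤ k := Nat.sInf_le hband
  have h2 : topBandwidth G ≤ bandwidth (refinement G ℓ) := Nat.sInf_le ⟨ℓ, rfl⟩
  exact h2.trans h1

theorem topBandwidth_le_iff {n : ℕ} (G : SimpleGraph (Fin n)) (k : ℕ) :
    topBandwidth G ≤ k ↔ Nonempty (Placement G k) :=
  ⟨placement_of_topBandwidth_le G k, topBandwidth_le_of_placement G k⟩

/-- Placements are carried over by isomorphisms. -/
theorem Placement.map {V W : Type*} {G : SimpleGraph V} {H : SimpleGraph W} {k : ℕ}
    (φ : G ≃g H) (p : Nonempty (Placement G k)) : Nonempty (Placement H k) := by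
  obtain ⟨p⟩ := p
  refine ⟨⟨fun w => p.x (φ.symm w), fun u v => p.P (φ.symm u) (φ.symm v), ?_, ?_, ?_, ?_, ?_, ?_⟩⟩
  · intro u v h; exact p.symm _ _ ((φ.symm.map_adj_iff).2 h)
  · intro u v h; exact p.chain _ _ ((φ.symm.map_adj_iff).2 h)
  · intro a b h; exact φ.symm.injective (p.inj h)
  · intro u v h; exact p.nodup _ _ ((φ.symm.map_adj_iff).2 h)
  · intro u v w h; exact p.avoid _ _ _ ((φ.symm.map_adj_iff).2 h)
  · intro u v u' v' h h' y hy hy'
    have := p.disj _ _ _ _ ((φ.symm.map_adj_iff).2 h) ((φ.symm.map_adj_iff).2 h') y hy hy'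
    rw [Sym2.eq_iff] at this ⊢
    simpa using this

/-! ### Rooted trees -/

/-- the graph of a parent function -/
def parGraph {V : Type*} (par : V → Option V) : SimpleGraph V :=
  SimpleGraph.fromRel fun u v => par u = some v

/-- A placement of a rooted forest: for each vertex `v` with a parent `u`, the list `pre v` of the
positions on the way from `u` to `v` (excluding both ends). -/
structure RPl {V : Type*} (par : V → Option V) (k : ℕ) where
  /-- positions of the vertices -/
  x : V → ℤ
  /-- positions strictly between the parent of `v` and `v` -/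
  pre : V → List ℤ
  pre_root : ∀ v, par v = none → pre v = []
  chain : ∀ v u, par v = some u →
    List.IsChain (fun a b : ℤ => |a - b| ≤ k) (x u :: (pre v ++ [x v]))
  nodup : ∀ v, (pre v ++ [x v]).Nodup
  disj : ∀ v w y, y ∈ pre v ++ [x v] → y ∈ pre w ++ [x w] → v = w

lemma parGraph_adj {V : Type*} {par : V → Option V} {u v : V} :
    (parGraph par).Adj u v ↔ u ≠ v ∧ (par u = some v ∨ par v = some u) := by
  simp [parGraph, SimpleGraph.fromRel_adj]

/-- CHUNK PL3. -/
theorem placement_iff_rpl {V : Type*} (par : V → Option V) (k : ℕ)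
    (h : ∀ u v, par u = some v → u ≠ v ∧ par v ≠ some u) :
    Nonempty (Placement (parGraph par) k) ↔ Nonempty (RPl par k) := by
  classical
  have hadj : ∀ v u, par v = some u → (parGraph par).Adj u v := by
    intro v u hv
    rw [parGraph_adj]
    exact ⟨(h v u hv).1.symm, Or.inr hv⟩
  constructor
  · rintro ⟨p⟩
    let pre : V → List ℤ := fun v => match par v with
      | none => []
      | some u => p.P u v
    have hpre0 : ∀ v, par v = none → pre v = [] := by
      intro v hv; simp only [pre, hv]
    have hpre1 : ∀ v u, par v = some u → pre v = p.P u v := by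
      intro v u hv; simp only [pre, hv]
    have hmem : ∀ v y, y ∈ pre v → ∃ u, par v = some u ∧ y ∈ p.P u v := by
      intro v y hy
      rcases hv : par v with _ | u
      · rw [hpre0 v hv] at hy; simp at hy
      · rw [hpre1 v u hv] at hy; exact ⟨u, rfl, hy⟩
    refine ⟨⟨p.x, pre, hpre0, ?_, ?_, ?_⟩⟩
    · intro v u hv
      rw [hpre1 v u hv]
      exact p.chain u v (hadj v u hv)
    · intro v
      rcases hv : par v with _ | u
      · rw [hpre0 v hv]; simp
      · rw [hpre1 v u hv, List.nodup_append]
        refine ⟨p.nodup u v (hadj v u hv), by simp, ?_⟩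
        intro a ha b hb hab
        rw [List.mem_singleton] at hb
        rw [hab, hb] at ha
        exact p.avoid u v v (hadj v u hv) ha
    · intro v w y hv hw
      rw [List.mem_append, List.mem_singleton] at hv hw
      rcases hv with hv | hv <;> rcases hw with hw | hw
      · obtain ⟨u, hu, hy⟩ := hmem v y hv
        obtain ⟨u', hu', hy'⟩ := hmem w y hw
        have h1 := p.disj _ _ _ _ (hadj v u hu) (hadj w u' hu') y hy hy'
        rw [Sym2.eq_iff] at h1
        rcases h1 with ⟨_, h1⟩ | ⟨h1, h2⟩
        · exact h1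
        · rw [h1] at hu
          rw [← h2] at hu'
          exact absurd hu' (h v w hu).2
      · obtain ⟨u, hu, hy⟩ := hmem v y hv
        rw [hw] at hy
        exact absurd hy (p.avoid u v w (hadj v u hu))
      · obtain ⟨u, hu, hy⟩ := hmem w y hw
        rw [hv] at hy
        exact absurd hy (p.avoid u w v (hadj w u hu))
      · exact p.inj (hv ▸ hw)
  · rintro ⟨p⟩
    let P : V → V → List ℤ := fun u v =>
      if par v = some u then p.pre v else if par u = some v then (p.pre u).reverse else []
    have hP1 : ∀ v u, par v = some u → P u v = p.pre v := by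
      intro v u hv; simp only [P, if_pos hv]
    have hP2 : ∀ v u, par v = some u → P v u = (p.pre v).reverse := by
      intro v u hv
      simp only [P, if_neg (h v u hv).2, if_pos hv]
    have hmem : ∀ u v y, (parGraph par).Adj u v → y ∈ P u v →
        ∃ c d, par c = some d ∧ s(u, v) = s(c, d) ∧ y ∈ p.pre c := by
      intro u v y huv hy
      rw [parGraph_adj] at huv
      rcases huv.2 with h1 | h1
      · rw [hP2 u v h1, List.mem_reverse] at hy
        exact ⟨u, v, h1, rfl, hy⟩
      · rw [hP1 v u h1] at hy
        exact ⟨v, u, h1, Sym2.eq_swap, hy⟩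
    refine ⟨⟨p.x, P, ?_, ?_, ?_, ?_, ?_, ?_⟩⟩
    · intro u v huv
      rw [parGraph_adj] at huv
      rcases huv.2 with h1 | h1
      · rw [hP1 u v h1, hP2 u v h1, List.reverse_reverse]
      · rw [hP1 v u h1, hP2 v u h1]
    · intro u v huv
      rw [parGraph_adj] at huv
      rcases huv.2 with h1 | h1
      · rw [hP2 u v h1]
        have e : p.x u :: ((p.pre u).reverse ++ [p.x v]) =
            (p.x v :: (p.pre u ++ [p.x u])).reverse := by simp
        rw [e, List.isChain_reverse]
        refine (p.chain u v h1).imp ?_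
        intro a b hab
        show |b - a| ≤ (k : ℤ)
        rw [abs_sub_comm]; exact hab
      · rw [hP1 v u h1]
        exact p.chain v u h1
    · intro a b hab
      exact p.disj a b (p.x a) (by simp) (by rw [hab]; simp)
    · intro u v huv
      rw [parGraph_adj] at huv
      rcases huv.2 with h1 | h1
      · rw [hP2 u v h1, List.nodup_reverse]
        exact (List.nodup_append.1 (p.nodup u)).1
      · rw [hP1 v u h1]
        exact (List.nodup_append.1 (p.nodup v)).1
    · intro u v w huv hy
      obtain ⟨c, d, _, _, hy'⟩ := hmem u v _ huv hy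
      have h1 : w = c := p.disj w c (p.x w) (by simp) (by simp [hy'])
      rw [h1] at hy'
      exact (List.nodup_append.1 (p.nodup c)).2.2 _ hy' _ (by simp) rfl
    · intro u v u' v' huv huv' y hy hy'
      obtain ⟨c, d, hc, he, hyc⟩ := hmem u v _ huv hy
      obtain ⟨c', d', hc', he', hyc'⟩ := hmem u' v' _ huv' hy'
      have h1 : c = c' := p.disj c c' y (by simp [hyc]) (by simp [hyc'])
      subst h1
      rw [hc] at hc'
      rw [he, he', Option.some.inj hc']

/-- CHUNK TR. The graph of a parent function with a single root is a tree. -/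
theorem isTree_parGraph {V : Type*} [Finite V] (par : V → Option V) (root : V)
    (hroot : par root = none) (hn : ∀ v, par v = none → v = root) (rank : V → ℕ)
    (hr : ∀ v u, par v = some u → rank u < rank v) : (parGraph par).IsTree := by
  classical
  rw [SimpleGraph.isTree_iff_connected_and_card]
  have hadj : ∀ v u, par v = some u → (parGraph par).Adj v u := by
    intro v u h
    rw [parGraph_adj]
    refine ⟨?_, Or.inl h⟩
    rintro rfl
    exact lt_irrefl _ (hr _ _ h)
  have hsome : ∀ v, v ≠ root → ∃ u, par v = some u := by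
    intro v hv
    rcases h : par v with _ | u
    · exact absurd (hn v h) hv
    · exact ⟨u, rfl⟩
  constructor
  · have key : ∀ n v, rank v = n → (parGraph par).Reachable v root := by
      intro n
      induction n using Nat.strong_induction_on with
      | _ n ih =>
        intro v hv
        by_cases h : v = root
        · rw [h]
        · obtain ⟨u, hu⟩ := hsome v h
          have h1 := hr v u hu
          exact (hadj v u hu).reachable.trans (ih (rank u) (hv ▸ h1) u rfl)
    rw [SimpleGraph.connected_iff]
    refine ⟨fun a b => (key _ a rfl).trans (key _ b rfl).symm, ⟨root⟩⟩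
  · choose! f hf using hsome
    let g : {v : V // v ≠ root} → (parGraph par).edgeSet := fun v =>
      ⟨s(v.1, f v.1), by rw [SimpleGraph.mem_edgeSet]; exact hadj _ _ (hf v.1 v.2)⟩
    have hg : Function.Bijective g := by
      constructor
      · intro a b hab
        have h1 : s(a.1, f a.1) = s(b.1, f b.1) := congrArg Subtype.val hab
        rw [Sym2.eq_iff] at h1
        rcases h1 with ⟨h1, _⟩ | ⟨h1, h2⟩
        · exact Subtype.ext h1
        · have h3 := hr _ _ (hf a.1 a.2)
          have h4 := hr _ _ (hf b.1 b.2)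
          rw [h2] at h3
          rw [← h1] at h4
          exact absurd h3 (lt_asymm h4)
      · rintro ⟨e, he⟩
        induction e using Sym2.ind with
        | _ a b =>
          rw [SimpleGraph.mem_edgeSet, parGraph_adj] at he
          rcases he.2 with h | h
          · have ha : a ≠ root := by rintro rfl; rw [hroot] at h; simp at h
            refine ⟨⟨a, ha⟩, Subtype.ext ?_⟩
            have := hf a ha
            rw [h] at this
            simp only [g]
            rw [← Option.some.inj this]
          · have hb : b ≠ root := by rintro rfl; rw [hroot] at h; simp at h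
            refine ⟨⟨b, hb⟩, Subtype.ext ?_⟩
            have := hf b hb
            rw [h] at this
            simp only [g]
            rw [← Option.some.inj this, Sym2.eq_swap]
    rw [← Nat.card_congr (Equiv.ofBijective g hg), ← Finite.card_option]
    exact Nat.card_congr (Equiv.optionSubtypeNe root)

end Pool.Agent.Lib.TopBw
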