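import Pool.Agent.Lib.TopBw.Tree
import Pool.Agent.Lib.OOD.GraphPT
import Pool.Agent.Lib.CookLevin.TMLocal

/-!
# The reduction, chunk RD1: the list of the variables
-/

set_option autoImplicit false

namespace Pool.Agent.Lib.TopBw

open Pool.Agent.PolyTime Pool.Agent.Lib.CookLevin Pool.Agent.OOD

/-- CNF formulas -/
abbrev CNF : Type := List (List (ℕ × Bool))

/-- the formula with an additional tautological clause `x₀ ∨ ¬ x₀`, and variables shifted by one -/
def norm (φ : CNF) : CNF := [(0, true), (0, false)] :: φ.map fun c => c.map fun l => (l.1 + 1, l.2)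

/-- the list of the variables of a formula, without repetitions -/
def vars (φ : CNF) : List ℕ :=
  ((norm φ).flatten.map Prod.fst).foldl (fun acc v => if v ∈ acc then acc else v :: acc) []

/-- the literal `vars[a] = x` is in the clause number `j` -/
def satOf (φ : CNF) (a : Fin (vars φ).length) (x : Bool) (j : Fin (norm φ).length) : Bool :=
  decide (((vars φ)[a], x) ∈ (norm φ)[j])

theorem one_le_norm (φ : CNF) : 1 ≤ (norm φ).length := by
  simp [norm]

/-- one step of the removal of repetitions -/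
def dstep (acc : List ℕ) (v : ℕ) : List ℕ := if v ∈ acc then acc else v :: acc

lemma mem_dstep (l : List ℕ) : ∀ (acc : List ℕ) (v : ℕ),
    v ∈ l.foldl dstep acc ↔ v ∈ acc ∨ v ∈ l := by
  induction l with
  | nil => simp
  | cons a l ih =>
    intro acc v
    rw [List.foldl_cons, ih]
    unfold dstep
    split_ifs with h
    · rw [List.mem_cons]
      constructor
      · rintro (h1 | h1)
        · exact Or.inl h1
        · exact Or.inr (Or.inr h1)
      · rintro (h1 | h1 | h1)
        · exact Or.inl h1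
        · subst h1; exact Or.inl h
        · exact Or.inr h1
    · rw [List.mem_cons, List.mem_cons]
      tauto

lemma nodup_dstep (l : List ℕ) : ∀ acc : List ℕ, acc.Nodup → (l.foldl dstep acc).Nodup := by
  induction l with
  | nil => intro acc h; exact h
  | cons a l ih =>
    intro acc h
    rw [List.foldl_cons]
    apply ih
    unfold dstep
    split_ifs with h1
    · exact h
    · exact List.nodup_cons.2 ⟨h1, h⟩

lemma vars_eq (φ : CNF) : vars φ = ((norm φ).flatten.map Prod.fst).foldl dstep [] := rfl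

lemma mem_vars {φ : CNF} {v : ℕ} : v ∈ vars φ ↔ ∃ c ∈ norm φ, ∃ b, (v, b) ∈ c := by
  rw [vars_eq, mem_dstep, List.mem_map]
  simp only [List.not_mem_nil, false_or, List.mem_flatten]
  constructor
  · rintro ⟨⟨w, b⟩, ⟨c, hc, h⟩, rfl⟩
    exact ⟨c, hc, b, h⟩
  · rintro ⟨c, hc, b, h⟩
    exact ⟨(v, b), ⟨c, hc, h⟩, rfl⟩

theorem one_le_vars (φ : CNF) : 1 ≤ (vars φ).length := by
  have h : 0 ∈ vars φ := mem_vars.2 ⟨[(0, true), (0, false)], by simp [norm], true, by simp⟩
  exact List.length_pos_of_mem h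

theorem vars_nodup (φ : CNF) : (vars φ).Nodup := nodup_dstep _ _ List.nodup_nil

theorem sat_iff (φ : CNF) : CNFSat φ ↔
    ∃ X : Fin (vars φ).length → Bool, ∀ j, ∃ a, satOf φ a (X a) j = true := by
  constructor
  · rintro ⟨e, he⟩
    let e' : ℕ → Bool := fun n => if n = 0 then true else e (n - 1)
    have he' : ∀ c ∈ norm φ, ∃ l ∈ c, e' l.1 = l.2 := by
      intro c hc
      unfold norm at hc
      rw [List.mem_cons] at hc
      rcases hc with rfl | hc
      · exact ⟨(0, true), by simp, by simp [e']⟩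
      · obtain ⟨c', hc', rfl⟩ := List.mem_map.1 hc
        obtain ⟨l, hl, h⟩ := he c' hc'
        exact ⟨(l.1 + 1, l.2), List.mem_map.2 ⟨l, hl, rfl⟩, by simp [e', h]⟩
    refine ⟨fun a => e' (vars φ)[a], fun j => ?_⟩
    obtain ⟨⟨v, b⟩, hl, h⟩ := he' (norm φ)[j] (List.getElem_mem _)
    have hv : v ∈ vars φ := mem_vars.2 ⟨_, List.getElem_mem _, b, hl⟩
    obtain ⟨i, hi, hv'⟩ := List.mem_iff_getElem.1 hv
    refine ⟨⟨i, hi⟩, ?_⟩
    unfold satOf
    rw [decide_eq_true_iff]
    show ((vars φ)[i], e' (vars φ)[i]) ∈ _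
    rw [hv']
    simp only at h
    rw [h]
    exact hl
  · rintro ⟨X, hX⟩
    have hget : ∀ a : Fin (vars φ).length, (vars φ).idxOf (vars φ)[a] = a := fun a =>
      List.Nodup.idxOf_getElem (vars_nodup φ) a a.2
    refine ⟨fun n => if h : (vars φ).idxOf (n + 1) < (vars φ).length then
      X ⟨(vars φ).idxOf (n + 1), h⟩ else true, ?_⟩
    intro c hc
    have hmem : c.map (fun l => (l.1 + 1, l.2)) ∈ norm φ := by
      unfold norm
      exact List.mem_cons_of_mem _ (List.mem_map.2 ⟨c, hc, rfl⟩)
    obtain ⟨j, hj, hj'⟩ := List.mem_iff_getElem.1 hmem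
    obtain ⟨a, ha⟩ := hX ⟨j, hj⟩
    unfold satOf at ha
    rw [decide_eq_true_iff] at ha
    have e : (norm φ)[(⟨j, hj⟩ : Fin _)] = c.map (fun l => (l.1 + 1, l.2)) := hj'
    rw [e] at ha
    obtain ⟨l, hl, hl'⟩ := List.mem_map.1 ha
    rw [Prod.mk.injEq] at hl'
    refine ⟨l, hl, ?_⟩
    have h1 : (vars φ).idxOf (l.1 + 1) = a := by
      rw [hl'.1]
      exact hget a
    have h2 : (vars φ).idxOf (l.1 + 1) < (vars φ).length := by rw [h1]; exact a.2
    show (if h : (vars φ).idxOf (l.1 + 1) < (vars φ).length then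
      X ⟨(vars φ).idxOf (l.1 + 1), h⟩ else true) = l.2
    rw [dif_pos h2, hl'.2]
    congr 1
    exact Fin.ext h1

theorem PT_norm : PT norm := by
  unfold norm
  refine PT.cons (PT.const _) ?_
  refine PT.map (f := fun (_ : CNF) (c : List (ℕ × Bool)) => c.map fun l => (l.1 + 1, l.2)) ?_
    PT.id
  refine PT.map (f := fun (_ : CNF × List (ℕ × Bool)) (l : ℕ × Bool) => (l.1 + 1, l.2)) ?_
    (by fun_prop)
  fun_prop

lemma sz_dstep (acc : List ℕ) (v : ℕ) : sz (dstep acc v) ≤ sz acc + sz v + 1 := by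
  unfold dstep
  split_ifs
  · omega
  · rw [sz_cons]; omega

lemma sz_foldl_dstep (l : List ℕ) : ∀ acc : List ℕ, sz (l.foldl dstep acc) ≤ sz acc + sz l := by
  induction l with
  | nil => intro acc; simp
  | cons a l ih =>
    intro acc
    rw [List.foldl_cons]
    have h1 := ih (dstep acc a)
    have h2 := sz_dstep acc a
    rw [sz_cons]
    omega

theorem PT_vars : PT vars := by
  have h0 : PT fun φ : CNF => (norm φ).flatten.map Prod.fst := by
    refine PT.map (f := fun (_ : CNF) (l : ℕ × Bool) => l.1) (by fun_prop) ?_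
    exact PT.flatten PT_norm
  have h1 : PT fun φ : CNF => ((norm φ).flatten.map Prod.fst).foldl dstep [] := by
    refine PT.foldl (g := fun (_ : CNF) => dstep) (B := fun φ : CNF =>
      1 + sz ((norm φ).flatten.map Prod.fst)) ?_ (PT.const _) h0 ?_ ?_
    · unfold dstep
      refine PT.ite ?_ (by fun_prop) (by fun_prop)
      exact PT_mem' (by fun_prop) (by fun_prop) _
    · exact PBd.add (PBd.const 1) (PT.bdd h0)
    · intro φ l1 l2 h
      have h2 := sz_foldl_dstep l1 []
      have h3 : sz l1 ≤ sz ((norm φ).flatten.map Prod.fst) := by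
        rw [h]
        exact sz_sublist_le (List.sublist_append_left l1 l2)
      rw [sz_nil] at h2
      omega
  exact h1.congr fun φ => rfl

end Pool.Agent.Lib.TopBw
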