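import Pool.Agent.Lib.TopBw.Placement

/-!
# The tree of the reduction

`t` variables, `q` clauses; `sat a x j = true` means: giving the variable `a` the value `x` makes the
clause `j` true.
-/

set_option autoImplicit false

namespace Pool.Agent.Lib.TopBw

/-- the basic parameter -/
def R0 (t q : ℕ) : ℕ := 2 * t + t * q + q + 2

/-- the bandwidth bound `k` -/
def kk (t q : ℕ) : ℕ := 20 * R0 t q

/-- The stars: dummy stars `D`, the two heavy stars `A` of each hub, the clause stars `W` of each
hub, fillers `F`, `E` and final fillers `M`. -/
inductive Star (t q : ℕ) : Type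
  | D (a : Fin t) : Star t q
  | A (a : Fin t) (x b : Bool) : Star t q
  | W (a : Fin t) (x : Bool) (j : Fin q) : Star t q
  | F (j : Fin q) (i : Fin t) : Star t q
  | E (i : Fin (2 * q + 3)) : Star t q
  | M (i : Fin (4 * R0 t q)) : Star t q
  deriving DecidableEq, Fintype

variable {t q : ℕ}

/-- the capacity of a star: its centre has degree `2 k - 2 cap` -/
def cap (sat : Fin t → Bool → Fin q → Bool) : Star t q → ℕ
  | .D a => 2 * a
  | .A a _ _ => 2 * a + 1
  | .W a x j => 3 * t + q + t * j + (if sat a x j then 1 else 0)
  | .F j _ => 3 * t + q + t * j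
  | .E _ => 3 * t + q
  | .M _ => 3 * R0 t q

/-- the hub of a star (`none`: the star hangs at the root) -/
def hubOf : Star t q → Option (Fin t × Bool)
  | .D _ => none
  | .A a x _ => some (a, x)
  | .W a x _ => some (a, x)
  | .F _ _ => none
  | .E _ => none
  | .M _ => none

/-- the number of leaves of a star -/
def lv (sat : Fin t → Bool → Fin q → Bool) (s : Star t q) : ℕ := 2 * kk t q - 2 * cap sat s - 1

/-- the number of leaves at the root -/
def rootLeaves (t q : ℕ) : ℕ := 2 * kk t q - (4 * t + t * q + 2 * q + 3 + 4 * R0 t q)

/-- the vertices of the tree -/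
inductive Vtx (t q : ℕ) (sat : Fin t → Bool → Fin q → Bool) : Type
  | root : Vtx t q sat
  | hub (a : Fin t) (x : Bool) : Vtx t q sat
  | star (s : Star t q) : Vtx t q sat
  | rleaf (i : Fin (rootLeaves t q)) : Vtx t q sat
  | sleaf (s : Star t q) (i : Fin (lv sat s)) : Vtx t q sat
  deriving DecidableEq

variable {sat : Fin t → Bool → Fin q → Bool}

/-- the parent of the centre of a star -/
def starPar (sat : Fin t → Bool → Fin q → Bool) (s : Star t q) : Vtx t q sat :=
  match hubOf s with
  | none => .root
  | some p => .hub p.1 p.2

/-- the parent function of the tree -/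
def par (sat : Fin t → Bool → Fin q → Bool) : Vtx t q sat → Option (Vtx t q sat)
  | .root => none
  | .hub _ _ => some .root
  | .star s => some (starPar sat s)
  | .rleaf _ => some .root
  | .sleaf s _ => some (.star s)

/-- the topmost non-root ancestor of a vertex -/
def item : Vtx t q sat → Vtx t q sat
  | .root => .root
  | .hub a x => .hub a x
  | .star s => match hubOf s with
    | none => .star s
    | some p => .hub p.1 p.2
  | .rleaf i => .rleaf i
  | .sleaf s _ => match hubOf s with
    | none => .star s
    | some p => .hub p.1 p.2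

/-- the depth of a vertex -/
def rank : Vtx t q sat → ℕ
  | .root => 0
  | .hub _ _ => 1
  | .star _ => 2
  | .rleaf _ => 3
  | .sleaf _ _ => 3

lemma rank_lt {v u : Vtx t q sat} (h : par sat v = some u) : rank u < rank v := by
  cases v with
  | root => simp [par] at h
  | hub a x => simp only [par, Option.some.injEq] at h; subst h; simp [rank]
  | star s =>
    simp only [par, Option.some.injEq, starPar] at h
    subst h
    cases s <;> simp [hubOf, rank]
  | rleaf i => simp only [par, Option.some.injEq] at h; subst h; simp [rank]
  | sleaf s i => simp only [par, Option.some.injEq] at h; subst h; simp [rank]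

lemma par_ne {u v : Vtx t q sat} (h : par sat u = some v) : u ≠ v ∧ par sat v ≠ some u := by
  have h1 := rank_lt h
  refine ⟨fun h2 => ?_, fun h2 => ?_⟩
  · subst h2; exact lt_irrefl _ h1
  · exact lt_asymm h1 (rank_lt h2)

lemma R0_ge (t q : ℕ) : 2 ≤ R0 t q := by unfold R0; omega

lemma cap_le (s : Star t q) : cap sat s ≤ 3 * R0 t q := by
  cases s with
  | D a => have := a.2; simp only [cap]; unfold R0; omega
  | A a x b => have := a.2; simp only [cap]; unfold R0; omega
  | W a x j =>
    have h1 := a.2
    have h2 : t * (j : ℕ) + t ≤ t * q := by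
      calc t * (j : ℕ) + t = t * (j + 1) := by ring
        _ ≤ t * q := Nat.mul_le_mul_left _ j.2
    simp only [cap]; unfold R0; split_ifs <;> omega
  | F j i =>
    have h2 : t * (j : ℕ) + t ≤ t * q := by
      calc t * (j : ℕ) + t = t * (j + 1) := by ring
        _ ≤ t * q := Nat.mul_le_mul_left _ j.2
    simp only [cap]; unfold R0; omega
  | E i => simp only [cap]; unfold R0; omega
  | M i => simp only [cap]; rfl

end Pool.Agent.Lib.TopBw
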